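import Pool.Agent.Helper78.FW.Frm
import Pool.Agent.Helper46.WF.Ent
import Pool.Agent.Helper69.RK.Defs

/-!
# Domination by exchangeability ((1.2), (2.4) of ns_notes_58)

Exchangeable elements `x 0, x 1, ..`, each with `N` vectors in `ℝ^N` (a frame of its body). The probability that the
vectors of one element `x c` are not all in a box of `N` vectors of the first `k` elements and of the floor is at most
`N / (k + 1)`.
-/

set_option autoImplicit false

namespace Pool.Agent.Helper99.FW

open Finset Pool.Agent.Helper46.WF Pool.Agent.Helper78.FW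
open Pool.Agent.Helper69.RK (mass)

variable {N B : ℕ} {α Ω : Type} [Fintype Ω]

/-- the vectors of the elements of `S` and of the floor -/
noncomputable def famS (φ : ℝ) (V : α → Fin N → Fin N → ℝ) (x : Fin B → α) (S : Finset (Fin B)) :
    Multiset (Fin N → ℝ) := fam (flr φ) + ∑ a ∈ S, fam (V (x a))

theorem mem_famS {φ : ℝ} {V : α → Fin N → Fin N → ℝ} {x : Fin B → α} {S : Finset (Fin B)} {v : Fin N → ℝ} :
    v ∈ famS φ V x S ↔ v ∈ fam (flr (N := N) φ) ∨ ∃ a ∈ S, v ∈ fam (V (x a)) := by
  unfold famS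
  rw [Multiset.mem_add, Multiset.mem_sum]

/-- the element `s` is not dominated by the elements of `S` -/
def NDom (φ : ℝ) (V : α → Fin N → Fin N → ℝ) (x : Fin B → α) (S : Finset (Fin B)) (s : Fin B) : Prop :=
  ¬ ∀ i, InB (famS φ V x S) (V (x s) i)

/-- at most `N` elements are not dominated by the others -/
theorem card_ndom [DecidableEq (Fin B)] {φ : ℝ} (hφ : 0 < φ) (V : α → Fin N → Fin N → ℝ) (x : Fin B → α)
    (U : Finset (Fin B)) [DecidablePred (fun s => NDom φ V x (U.erase s) s)] :
    (U.filter (fun s => NDom φ V x (U.erase s) s)).card ≤ N := by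
  classical
  set P : Set (Fin N → ℝ) := {v | v ∈ famS φ V x U} with hP
  have hfin : P.Finite := Multiset.finite_toSet (famS φ V x U)
  have hflr : ∀ i, flr (N := N) φ i ∈ P := fun i => mem_famS.mpr (Or.inl (mem_fam _ i))
  obtain ⟨w, hw⟩ := exists_isFr P hfin (flr φ) hflr
  have hdet : (Matrix.of w).det ≠ 0 := by
    have h1 := hw.2 (flr φ) hflr
    rw [det_flr, abs_of_pos (by positivity)] at h1
    intro h2
    rw [h2, abs_zero] at h1
    exact absurd h1 (not_le.mpr (by positivity))
  have hsrc : ∀ i, ∃ g : Option (Fin B), ∀ s ∈ U, (g ≠ some s) → w i ∈ famS φ V x (U.erase s) := by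
    intro i
    rcases mem_famS.mp (hw.1 i) with h1 | ⟨a, ha, h1⟩
    · exact ⟨none, fun s _ _ => mem_famS.mpr (Or.inl h1)⟩
    · refine ⟨some a, fun s _ hs => mem_famS.mpr (Or.inr ⟨a, ?_, h1⟩)⟩
      rw [mem_erase]
      exact ⟨fun h => hs (by rw [h]), ha⟩
  choose g hg using hsrc
  have hsub : (U.filter (fun s => NDom φ V x (U.erase s) s)).image (fun s => some s) ⊆ univ.image g := by
    intro t ht
    rw [mem_image] at ht
    obtain ⟨s, hs, rfl⟩ := ht
    rw [mem_filter] at hs
    obtain ⟨hsU, hs⟩ := hs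
    by_contra hcon
    apply hs
    intro i
    have hin : ∀ k, w k ∈ famS φ V x (U.erase s) := by
      intro k
      refine hg k s hsU (fun h => hcon ?_)
      rw [mem_image]
      exact ⟨k, mem_univ _, h⟩
    have hv : V (x s) i ∈ P := mem_famS.mpr (Or.inr ⟨s, hsU, mem_fam _ i⟩)
    obtain ⟨c, hc, hc1⟩ := hw.coord hw.1 hdet hv
    refine ⟨w, hin, c, fun k => ?_, hc⟩
    refine (hc1 k).trans (le_of_eq ?_)
    rw [div_self]
    rw [ne_eq, abs_eq_zero]
    exact hdet
  have h1 := Finset.card_le_card hsub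
  rw [Finset.card_image_of_injective _ (Option.some_injective _)] at h1
  refine h1.trans (Finset.card_image_le.trans (le_of_eq ?_))
  exact Finset.card_fin N

/-- **DOMINATION BY EXCHANGEABILITY**; `x ω` is an exchangeable sequence -/
theorem dom_exch (μ : Ω → ℝ) (hμ : ∀ ω, 0 ≤ μ ω) (x : Ω → Fin B → α)
    (hinv : ∀ (a b : Fin B) (Q : (Fin B → α) → Prop), Pw μ (fun ω => Q (x ω ∘ Equiv.swap a b)) = Pw μ (fun ω => Q (x ω)))
    {φ : ℝ} (hφ : 0 < φ) (V : α → Fin N → Fin N → ℝ) (S : Finset (Fin B)) (c : Fin B) (hc : c ∉ S) :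
    Pw μ (fun ω => ¬ ∀ i, InB (famS φ V (x ω) S) (V (x ω c) i)) ≤ N / (S.card + 1) * mass μ := by
  classical
  set U := insert c S with hU
  have hUc : U.erase c = S := by
    rw [hU, Finset.erase_insert hc]
  have key : ∀ s ∈ U, Pw μ (fun ω => NDom φ V (x ω) (U.erase s) s) = Pw μ (fun ω => NDom φ V (x ω) S c) := by
    intro s hs
    rw [← hinv c s (fun y => NDom φ V y S c)]
    have hsum : ∀ y : Fin B → α, famS φ V (y ∘ Equiv.swap c s) S = famS φ V y (U.erase s) := by
      intro y
      unfold famS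
      congr 1
      have e1 : ∑ a ∈ S, fam (V ((y ∘ Equiv.swap c s) a)) = ∑ b ∈ S.image (Equiv.swap c s), fam (V (y b)) := by
        rw [Finset.sum_image]
        · rfl
        · intro a _ b _ h
          exact (Equiv.swap c s).injective h
      rw [e1]
      congr 1
      ext b
      rw [mem_image, mem_erase, hU, mem_insert]
      constructor
      · rintro ⟨a, ha, rfl⟩
        have hac : a ≠ c := fun h => hc (h ▸ ha)
        by_cases has : a = s
        · rw [has, Equiv.swap_apply_right]
          exact ⟨fun h => hac (has.trans h.symm), Or.inl rfl⟩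
        · rw [Equiv.swap_apply_of_ne_of_ne hac has]
          exact ⟨has, Or.inr ha⟩
      · rintro ⟨hbs, hb | hb⟩
        · rw [hU, mem_insert] at hs
          rcases hs with hs | hs
          · exact absurd (hb.trans hs.symm) hbs
          · exact ⟨s, hs, by rw [Equiv.swap_apply_right, hb]⟩
        · have hbc : b ≠ c := fun h => hc (h ▸ hb)
          exact ⟨b, hb, Equiv.swap_apply_of_ne_of_ne hbc hbs⟩
    congr 1
    funext ω
    unfold NDom
    rw [hsum, Function.comp_apply, Equiv.swap_apply_left]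
  have hsum : ∑ s ∈ U, Pw μ (fun ω => NDom φ V (x ω) (U.erase s) s) ≤ N * mass μ := by
    unfold Pw
    rw [Finset.sum_comm, mass, Finset.mul_sum]
    refine Finset.sum_le_sum fun ω _ => ?_
    rw [← Finset.sum_filter, Finset.sum_const, nsmul_eq_mul]
    refine mul_le_mul_of_nonneg_right ?_ (hμ ω)
    exact_mod_cast card_ndom hφ V (x ω) U
  rw [Finset.sum_congr rfl key, Finset.sum_const, nsmul_eq_mul] at hsum
  have hcard : (U.card : ℝ) = S.card + 1 := by
    rw [hU, Finset.card_insert_of_notMem hc]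
    push_cast
    rfl
  rw [hcard] at hsum
  have hpos : (0 : ℝ) < S.card + 1 := by positivity
  have e1 : Pw μ (fun ω => ¬ ∀ i, InB (famS φ V (x ω) S) (V (x ω c) i)) = Pw μ (fun ω => NDom φ V (x ω) S c) := rfl
  rw [e1, div_mul_eq_mul_div, le_div_iff₀ hpos, mul_comm]
  exact hsum

/-- the same for an invariant weight on the sequences: the first `k` elements dominate the element `c` -/
theorem dom_perm [Fintype α] (w : (Fin B → α) → ℝ) (hw : ∀ x, 0 ≤ w x)
    (hinv : ∀ (σ : Equiv.Perm (Fin B)) (x : Fin B → α), w (x ∘ σ) = w x)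
    {φ : ℝ} (hφ : 0 < φ) (V : α → Fin N → Fin N → ℝ) {k : ℕ} (c : Fin B) (hk : k ≤ c.val) :
    Pw w (fun x => ¬ ∀ i, InB (famS φ V x (univ.filter (fun a : Fin B => a.val < k))) (V (x c) i)) ≤
      N / (k + 1) * mass w := by
  classical
  have hc : c ∉ univ.filter (fun a : Fin B => a.val < k) := by
    rw [mem_filter]
    rintro ⟨-, h⟩
    omega
  have hcard : (univ.filter (fun a : Fin B => a.val < k)).card = k := by
    have h1 : univ.filter (fun a : Fin B => a.val < k) = (univ : Finset (Fin k)).image (Fin.castLE (by omega)) := by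
      ext a
      rw [mem_filter, mem_image]
      constructor
      · rintro ⟨-, h⟩
        exact ⟨⟨a.val, h⟩, mem_univ _, Fin.ext rfl⟩
      · rintro ⟨b, -, rfl⟩
        exact ⟨mem_univ _, b.isLt⟩
    rw [h1, Finset.card_image_of_injective _ (Fin.castLE_injective _), Finset.card_fin]
  have h1 := dom_exch w hw (fun x => x) (by
    intro a b Q
    have h2 := Equiv.sum_comp (Equiv.arrowCongr (Equiv.swap a b) (Equiv.refl α)).symm
      (fun x => if Q (x ∘ Equiv.swap a b) then w x else 0)
    unfold Pw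
    rw [← h2]
    refine Finset.sum_congr rfl fun x _ => ?_
    have e1 : (Equiv.arrowCongr (Equiv.swap a b) (Equiv.refl α)).symm x = x ∘ Equiv.swap a b := rfl
    rw [e1, hinv]
    have e2 : (x ∘ Equiv.swap a b) ∘ Equiv.swap a b = x := by
      funext i
      simp
    rw [e2]) hφ V (univ.filter (fun a : Fin B => a.val < k)) c hc
  rw [hcard] at h1
  exact h1

end Pool.Agent.Helper99.FW
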