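import Pool.Agent.Helper99.FW.LemBA
import Pool.Agent.Helper99.FW.Dom

/-!
# The bad event of a pair of carriers at one level

`BadP` : one of the two points is out of its tube, or its body is not dominated by the bodies of the elements of `S`, or
the slopes of the two nodes are not close. `cls_sum` : the sum over the levels of its probability. `BadP.tube`,
`BadP.close` : off the bad event the errors are bounded in every seminorm in which the vectors of the family of `S` have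
length at most `1`.
-/

set_option autoImplicit false

namespace Pool.Agent.Helper99.FW

open Finset Pool.Agent.Helper69.RK Pool.Agent.Helper61.GL Pool.Agent.Helper46.WF Pool.Agent.Helper58.VW
open Pool.Agent.Helper99.VW Pool.Agent.Helper58.TR Pool.Agent.Helper78.FW
open Pool.Agent.Helper31.EC (amw amw_nonneg amw_supp ms)

variable {N B : ℕ} {X Λ Pt β R β₀ κQ ζ : Type} [Fintype X]

/-- vectors of length `≤ c` are combinations of the frame with coefficients `≤ c` -/
def FrOf (p : Seminorm ℝ (Fin N → ℝ)) (V : Fin N → Fin N → ℝ) : Prop :=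
  ∀ (v : Fin N → ℝ) (c : ℝ), p v ≤ c → ∃ x : Fin N → ℝ, (∀ i, |x i| ≤ c) ∧ v = ∑ i, x i • V i

theorem sn_sum_le (P : Seminorm ℝ (Fin N → ℝ)) (f : Fin N → Fin N → ℝ) : P (∑ k, f k) ≤ ∑ k, P (f k) :=
  Finset.le_sum_of_subadditive P (map_zero P).le (map_add_le_add P) univ f

theorem inB_le {Z : Multiset (Fin N → ℝ)} {v : Fin N → ℝ} (h : InB Z v) (P : Seminorm ℝ (Fin N → ℝ)) {c : ℝ}
    (hP : ∀ u ∈ Z, P u ≤ c) : P v ≤ N * c := by
  obtain ⟨u, hu, x, hx, rfl⟩ := h
  refine (sn_sum_le P _).trans ?_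
  have h1 : ∀ k ∈ (univ : Finset (Fin N)), P (x k • u k) ≤ c := by
    intro k _
    rw [map_smul_eq_mul, Real.norm_eq_abs]
    have h2 := hP (u k) (hu k)
    have h3 := apply_nonneg P (u k)
    have h4 := hx k
    nlinarith [abs_nonneg (x k)]
  refine (Finset.sum_le_sum h1).trans (le_of_eq ?_)
  rw [Finset.sum_const, Finset.card_fin, nsmul_eq_mul]

theorem FrOf.le_of {p : Seminorm ℝ (Fin N → ℝ)} {V : Fin N → Fin N → ℝ} (h : FrOf p V) (P : Seminorm ℝ (Fin N → ℝ))
    {c d : ℝ} (hP : ∀ i, P (V i) ≤ d) {v : Fin N → ℝ} (hv : p v ≤ c) : P v ≤ N * (c * d) := by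
  obtain ⟨x, hx, rfl⟩ := h v c hv
  refine (sn_sum_le P _).trans ?_
  have h1 : ∀ k ∈ (univ : Finset (Fin N)), P (x k • V k) ≤ c * d := by
    intro k _
    rw [map_smul_eq_mul, Real.norm_eq_abs]
    exact mul_le_mul (hx k) (hP k) (apply_nonneg _ _) ((abs_nonneg _).trans (hx k))
  refine (Finset.sum_le_sum h1).trans (le_of_eq ?_)
  rw [Finset.sum_const, Finset.card_fin, nsmul_eq_mul]

/-- the bad event of the points `c`, `c'` at one level; `n b` = node of the point `b`, `V n` = frame of the body of the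
node, `p n` = its seminorm, `dv b` = deviation of the point `b` from its tube, `sl n` = slope -/
def BadP (φ : ℝ) (V : β → Fin N → Fin N → ℝ) (p : β → Seminorm ℝ (Fin N → ℝ)) (r c₁ c₂ : ℝ) (S : Finset (Fin B))
    (c c' : Fin B) (nd' : Fin B → β) (dv : Fin B → Fin N → ℝ) (sl : β → Fin N → ℝ) : Prop :=
  r < p (nd' c) (dv c) ∨ r < p (nd' c') (dv c') ∨ NDom φ V nd' S c ∨ NDom φ V nd' S c' ∨
    ¬ InSum (p (nd' c)) (p (nd' c')) c₁ c₂ (sl (nd' c) - sl (nd' c'))

section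

variable {φ : ℝ} {V : β → Fin N → Fin N → ℝ} {p : β → Seminorm ℝ (Fin N → ℝ)} {r c₁ c₂ : ℝ} {S : Finset (Fin B)}
  {c c' : Fin B} {nd' : Fin B → β} {dv : Fin B → Fin N → ℝ} {sl : β → Fin N → ℝ}

/-- **the carriers are in their tubes, in units of the family of `S`** -/
theorem BadP.tube (h : ¬ BadP φ V p r c₁ c₂ S c c' nd' dv sl) (hFr : ∀ n, FrOf (p n) (V n)) (P : Seminorm ℝ (Fin N → ℝ))
    (hP : ∀ u ∈ famS φ V nd' S, P u ≤ 1) : P (dv c) ≤ N ^ 2 * r ∧ P (dv c') ≤ N ^ 2 * r := by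
  unfold BadP at h
  push Not at h
  obtain ⟨h1, h2, h3, h4, -⟩ := h
  unfold NDom at h3 h4
  push Not at h3 h4
  have e1 := (hFr (nd' c)).le_of P (fun i => inB_le (h3 i) P hP) h1
  have e2 := (hFr (nd' c')).le_of P (fun i => inB_le (h4 i) P hP) h2
  constructor
  · refine e1.trans (le_of_eq ?_)
    ring
  · refine e2.trans (le_of_eq ?_)
    ring

/-- **the slopes of the carriers are close, in units of the family of `S`** -/
theorem BadP.close (h : ¬ BadP φ V p r c₁ c₂ S c c' nd' dv sl) (hFr : ∀ n, FrOf (p n) (V n)) (P : Seminorm ℝ (Fin N → ℝ))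
    (hP : ∀ u ∈ famS φ V nd' S, P u ≤ 1) : P (sl (nd' c) - sl (nd' c')) ≤ N ^ 2 * (c₁ + c₂) := by
  unfold BadP at h
  push Not at h
  obtain ⟨-, -, h3, h4, e₁, e₂, he, h5, h6⟩ := h
  unfold NDom at h3 h4
  push Not at h3 h4
  have e1 := (hFr (nd' c)).le_of P (fun i => inB_le (h3 i) P hP) h5
  have e2 := (hFr (nd' c')).le_of P (fun i => inB_le (h4 i) P hP) h6
  rw [he]
  refine (map_add_le_add P _ _).trans ((add_le_add e1 e2).trans (le_of_eq ?_))
  ring

end

/-- the same deviations with a family at one level: exact vectors of the family of `S` (no frame chosen) -/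
theorem famS_mono {φ : ℝ} {V : β → Fin N → Fin N → ℝ} {x : Fin B → β} {S S' : Finset (Fin B)} (h : S ⊆ S') :
    famS φ V x S ≤ famS φ V x S' := by
  unfold famS
  exact add_le_add le_rfl (Finset.sum_le_sum_of_subset h)

/-- **the sum over the levels of the probability of the bad event of a pair of carriers** -/
theorem cls_sum [Fintype R] [Nonempty R] (E : ℕ → (Pt → Lb β R) → Pt → R) (F : Pt → β) (T : Pt → ℝ) (P : ℕ)
    (o : ℕ → ℕ) {w : X → ℝ} (hw : ∀ x, 0 ≤ w x) (hm : ∑ x, w x = 1) (qs : X → Fin B → Pt)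
    (hinv : ∀ (a b : Fin B) (Q : (Fin B → Pt) → Prop), Pw w (fun x => Q (qs x ∘ Equiv.swap a b)) = Pw w (fun x => Q (qs x)))
    (F₀ : X → β₀) (Q : X → κQ) (z : X → ζ) {c c' : Fin B} {Sp : Finset (Fin B)} (hc : c ∉ Sp) (hc' : c' ∉ Sp)
    (hF : ∀ x y, w x ≠ 0 → w y ≠ 0 → F₀ x = F₀ y → F (qs x c) = F (qs y c) ∧ F (qs x c') = F (qs y c'))
    (hT : ∀ x, w x ≠ 0 → (0 ≤ T (qs x c) ∧ T (qs x c) < 1) ∧ 0 ≤ T (qs x c') ∧ T (qs x c') < 1)
    (A : Pt → Fin N → ℝ) (a b : ℕ → ℕ → Lb β R → Fin N → ℝ) (p : ℕ → ℕ → Lb β R → Seminorm ℝ (Fin N → ℝ))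
    (V : ℕ → ℕ → Lb β R → Fin N → Fin N → ℝ) (r : ℕ → ℕ → ℝ) {φ : ℝ} (hφ : 0 < φ)
    (q : Seminorm ℝ (Fin N → ℝ)) {t ε : ℝ} {C₀ S L n : ℕ} (hC : 1 ≤ C₀) (hSP : S + C₀ + 2 ≤ P) (hn : L * P + C₀ ≤ n + 1)
    (hfl : ∀ i < L, ∀ s < S, ∀ l v, q v ≤ t → p i s l v ≤ r i s)
    (ha : ∀ i < L, ∀ s < S, ∀ l, 1 / 2 ^ n * p i s l (a i s l) ≤ r i s) {d₁ d₂ d₃ : ℝ}
    (h1 : CH w z F₀ - CH w z (fun x => ((qs x c, qs x c'), Q x, F₀ x)) ≤ d₁)
    (h2 : CH w (fun x => (qs x c, qs x c')) F₀ - CH w (fun x => (qs x c, qs x c')) (fun x => (Q x, F₀ x)) ≤ d₂)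
    (h3 : 2 * n - d₃ ≤ CH w (fun x => (cl n (T (qs x c)), cl n (T (qs x c')))) F₀)
    (hAD : ∀ (δ : Type) (g : Pt × Pt → δ),
      Pw (amw w w (fun x => (F₀ x, Q x, (cl n (T (qs x c) - T (qs x c')), g (qs x c, qs x c')), z x))
        (fun x => (F₀ x, Q x, (cl n (T (qs x c) - T (qs x c')), g (qs x c, qs x c')), z x)))
        (fun x => t < q ((A (qs x.1 c) - A (qs x.1 c')) - (A (qs x.2 c) - A (qs x.2 c')))) ≤ ε)
    {π : ℝ} (hout : ∑ i ∈ range L, ∑ s ∈ range S, Pw w (fun x => r i s < p i s (nd E F T P o i s (qs x c))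
        (A (qs x c) - T (qs x c) • a i s (nd E F T P o i s (qs x c)) - b i s (nd E F T P o i s (qs x c)))) ≤ π)
    (hout' : ∑ i ∈ range L, ∑ s ∈ range S, Pw w (fun x => r i s < p i s (nd E F T P o i s (qs x c'))
        (A (qs x c') - T (qs x c') • a i s (nd E F T P o i s (qs x c')) - b i s (nd E F T P o i s (qs x c')))) ≤ π) :
    ∑ i ∈ range L, ∑ s ∈ range S, Pw w (fun x => BadP φ (V i s) (p i s) (r i s) (2 ^ (i * P + s + C₀ + 3) * r i s)
      (2 ^ (i * P + s + C₀ + 2) * r i s) Sp c c' (fun d => nd E F T P o i s (qs x d))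
      (fun d => A (qs x d) - T (qs x d) • a i s (nd E F T P o i s (qs x d)) - b i s (nd E F T P o i s (qs x d)))
      (a i s)) ≤
    (8 / 2 ^ C₀ * (L * P) + 16 * 2 ^ C₀ * (C₀ * (d₃ + C₀))) +
    256 * (2 * (L * (2 * Real.logb 2 (Fintype.card R)) + (d₁ + d₂ + d₃ + 2))) + 514 * π + 256 * (L * S * ε) +
    2 * (L * S * (N / (Sp.card + 1))) := by
  classical
  have hmass : mass w = 1 := hm
  have hB := lemB_array E F T P o hw hm (fun x => qs x c) (fun x => qs x c') F₀ Q z hF hT A a b p r q hC hSP hn hfl ha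
    h1 h2 h3 hAD
  -- domination at one level
  have hdom : ∀ (d : Fin B), d ∉ Sp → ∀ i s, Pw w (fun x => NDom φ (V i s) (fun d => nd E F T P o i s (qs x d)) Sp d) ≤
      N / (Sp.card + 1) := by
    intro d hd i s
    have h4 := dom_exch (N := N) w hw qs hinv hφ (fun y => V i s (nd E F T P o i s y)) Sp d hd
    rw [hmass, mul_one] at h4
    exact h4
  have key : ∀ i s, Pw w (fun x => BadP φ (V i s) (p i s) (r i s) (2 ^ (i * P + s + C₀ + 3) * r i s)
      (2 ^ (i * P + s + C₀ + 2) * r i s) Sp c c' (fun d => nd E F T P o i s (qs x d))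
      (fun d => A (qs x d) - T (qs x d) • a i s (nd E F T P o i s (qs x d)) - b i s (nd E F T P o i s (qs x d)))
      (a i s)) ≤
      Pw w (fun x => r i s < p i s (nd E F T P o i s (qs x c))
        (A (qs x c) - T (qs x c) • a i s (nd E F T P o i s (qs x c)) - b i s (nd E F T P o i s (qs x c)))) +
      (Pw w (fun x => r i s < p i s (nd E F T P o i s (qs x c'))
        (A (qs x c') - T (qs x c') • a i s (nd E F T P o i s (qs x c')) - b i s (nd E F T P o i s (qs x c')))) +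
      (N / (Sp.card + 1) + (N / (Sp.card + 1) +
      Pw w (fun x => ¬ InSum (p i s (nd E F T P o i s (qs x c)))
      (p i s (nd E F T P o i s (qs x c'))) (2 ^ (i * P + s + C₀ + 3) * r i s) (2 ^ (i * P + s + C₀ + 2) * r i s)
      (a i s (nd E F T P o i s (qs x c)) - a i s (nd E F T P o i s (qs x c'))))))) := by
    intro i s
    refine (Pw_or w hw _ _).trans (add_le_add le_rfl ((Pw_or w hw _ _).trans (add_le_add le_rfl
      ((Pw_or w hw _ _).trans (add_le_add (hdom c hc i s) ((Pw_or w hw _ _).trans (add_le_add (hdom c' hc' i s)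
        le_rfl)))))))
  refine (Finset.sum_le_sum fun i _ => Finset.sum_le_sum fun s _ => key i s).trans ?_
  simp only [Finset.sum_add_distrib, Finset.sum_const, card_range, nsmul_eq_mul] at hB ⊢
  have e1 : (L : ℝ) * (S * ((N : ℝ) / (Sp.card + 1))) = L * S * (N / (Sp.card + 1)) := by ring
  rw [e1]
  linarith

end Pool.Agent.Helper99.FW
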