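import Pool.Agent.Helper99.FW.Nod
import Pool.Agent.Helper99.FW.Cls
import Pool.Agent.Helper9.VB.Vis
import Pool.Agent.Helper9.VB.Span

/-!
# The recorder of the tree and the bodies of its nodes

A function `bod` gives to every level and every law a body (matrix `M`), a slope `a` and an offset `o`. The recorder
`Erec` records the symbol `sym` of the deviation `M (A - T a - o)` of a point in the body of its node. `bN` : body of a
node of the recorded tree; `er_eq` : what is recorded; `sum_out` : most points are in the tubes of their nodes.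
-/

set_option autoImplicit false

namespace Pool.Agent.Helper99.FW

open Finset Pool.Agent.Helper69.RK Pool.Agent.Helper61.GL Pool.Agent.Helper46.WF Pool.Agent.Helper58.VW
open Pool.Agent.Helper99.VW Pool.Agent.Helper58.TR Pool.Agent.Helper9.ND

variable {N : ℕ} {Pt β R γ : Type} [Fintype Pt]

/-- a body with a line -/
structure NB (N : ℕ) where
  /-- the body is `‖M v‖ ≤ 1` -/
  M : Matrix (Fin N) (Fin N) ℝ
  /-- the slope -/
  a : Fin N → ℝ
  /-- the offset -/
  o : Fin N → ℝ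

/-- the deviation from the tube, in the coordinates of the body -/
def NB.dev (b : NB N) (t : ℝ) (v : Fin N → ℝ) : Fin N → ℝ := b.M.mulVec (v - t • b.a - b.o)

/-- the seminorm of a body -/
noncomputable def NB.sn (b : NB N) : Seminorm ℝ (Fin N → ℝ) := (normSeminorm ℝ (Fin N → ℝ)).comp (Matrix.toLin' b.M)

theorem NB.sn_apply (b : NB N) (v : Fin N → ℝ) : b.sn v = ‖b.M.mulVec v‖ := by
  unfold NB.sn
  rw [Seminorm.comp_apply, Matrix.toLin'_apply]
  rfl

/-- the frame of a body -/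
noncomputable def NB.fr (b : NB N) (i : Fin N) : Fin N → ℝ := fun j => b.M⁻¹ j i

/-- regular bodies: invertible, the floor is inside, bounded slope, bounded frame -/
structure NB.Reg (b : NB N) (g K B : ℝ) : Prop where
  det : b.M.det ≠ 0
  flo : ∀ i, ‖b.M.mulVec (Pi.single i g)‖ ≤ 1
  slo : ‖b.a‖ ≤ K
  bnd : ∀ i, ‖b.fr i‖ ≤ B

/-- vectors in the body are combinations of the frame -/
theorem NB.Reg.frOf {b : NB N} {g K B : ℝ} (h : b.Reg g K B) : FrOf b.sn b.fr := by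
  intro v c hv
  rw [b.sn_apply] at hv
  refine ⟨b.M.mulVec v, fun i => ?_, ?_⟩
  · have h1 := norm_le_pi_norm (b.M.mulVec v) i
    rw [Real.norm_eq_abs] at h1
    exact h1.trans hv
  · have h1 : b.M⁻¹.mulVec (b.M.mulVec v) = v := by
      rw [Matrix.mulVec_mulVec, Matrix.nonsing_inv_mul _ (isUnit_iff_ne_zero.mpr h.det), Matrix.one_mulVec]
    funext j
    conv_lhs => rw [← h1]
    rw [Finset.sum_apply]
    show ∑ i, b.M⁻¹ j i * (b.M.mulVec v) i = _
    refine Finset.sum_congr rfl fun i _ => ?_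
    show b.M⁻¹ j i * (b.M.mulVec v) i = (b.M.mulVec v) i * b.M⁻¹ j i
    ring

/-- the floor in the seminorm -/
theorem NB.Reg.floor {b : NB N} {g K B : ℝ} (hg : 0 < g) (h : b.Reg g K B) (v : Fin N → ℝ) : b.sn v ≤ N / g * ‖v‖ := by
  classical
  rw [b.sn_apply]
  have h1 : b.M.mulVec v = ∑ i, (v i / g) • b.M.mulVec (Pi.single i g) := by
    have h2 : v = ∑ i, (v i / g) • (Pi.single i g : Fin N → ℝ) := by
      funext j
      rw [Finset.sum_apply, Finset.sum_eq_single j]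
      · simp only [Pi.smul_apply, Pi.single_eq_same, smul_eq_mul]
        field_simp
      · intro i _ hij
        simp only [Pi.smul_apply, smul_eq_mul]
        rw [Pi.single_eq_of_ne (fun h => hij h.symm), mul_zero]
      · intro h
        exact absurd (Finset.mem_univ j) h
    conv_lhs => rw [h2]
    rw [Matrix.mulVec_sum]
    refine Finset.sum_congr rfl fun i _ => ?_
    rw [Matrix.mulVec_smul]
  rw [h1]
  refine (norm_sum_le _ _).trans ?_
  have h2 : ∀ i ∈ (univ : Finset (Fin N)), ‖(v i / g) • b.M.mulVec (Pi.single i g)‖ ≤ ‖v‖ / g := by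
    intro i _
    rw [norm_smul, Real.norm_eq_abs, abs_div, abs_of_pos hg]
    have h3 := norm_le_pi_norm v i
    rw [Real.norm_eq_abs] at h3
    calc |v i| / g * ‖b.M.mulVec (Pi.single i g)‖ ≤ ‖v‖ / g * 1 :=
          mul_le_mul (by gcongr) (h.flo i) (norm_nonneg _) (by positivity)
      _ = ‖v‖ / g := mul_one _
  refine (Finset.sum_le_sum h2).trans (le_of_eq ?_)
  rw [Finset.sum_const, Finset.card_fin, nsmul_eq_mul]
  ring

/-- the default body: the floor itself -/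
noncomputable def NB.dflt (N : ℕ) (g : ℝ) : NB N := ⟨g⁻¹ • (1 : Matrix (Fin N) (Fin N) ℝ), 0, 0⟩

theorem NB.dflt_reg {g K B : ℝ} (hg : 0 < g) (hK : 0 ≤ K) (hB : g ≤ B) : (NB.dflt N g).Reg g K B := by
  refine ⟨?_, ?_, ?_, ?_⟩
  · show (g⁻¹ • (1 : Matrix (Fin N) (Fin N) ℝ)).det ≠ 0
    rw [Matrix.det_smul, Matrix.det_one, mul_one]
    positivity
  · intro i
    show ‖(g⁻¹ • (1 : Matrix (Fin N) (Fin N) ℝ)).mulVec (Pi.single i g)‖ ≤ 1
    rw [Matrix.smul_mulVec, Matrix.one_mulVec, norm_smul, Pi.norm_single, norm_inv, Real.norm_eq_abs,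
      abs_of_pos hg, inv_mul_cancel₀ hg.ne']
  · show ‖(0 : Fin N → ℝ)‖ ≤ K
    rw [norm_zero]
    exact hK
  · intro i
    have h1 : (NB.dflt N g).M⁻¹ = g • (1 : Matrix (Fin N) (Fin N) ℝ) := by
      apply Matrix.inv_eq_left_inv
      show (g • (1 : Matrix (Fin N) (Fin N) ℝ)) * (g⁻¹ • (1 : Matrix (Fin N) (Fin N) ℝ)) = 1
      rw [Matrix.smul_mul, Matrix.one_mul, smul_smul, mul_inv_cancel₀ hg.ne', one_smul]
    rw [pi_norm_le_iff_of_nonneg (hg.le.trans hB)]
    intro j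
    show ‖(NB.dflt N g).M⁻¹ j i‖ ≤ B
    rw [h1, Matrix.smul_apply, smul_eq_mul, Matrix.one_apply, Real.norm_eq_abs]
    split_ifs
    · rw [mul_one, abs_of_pos hg]
      exact hB
    · rw [mul_zero, abs_zero]
      exact hg.le.trans hB

/-- **the frame of a visible body is bounded** by the size of the vectors -/
theorem frame_bdd {Ω : Type} [Fintype Ω] (w : Ω → ℝ) (Δ : Ω → Fin N → ℝ) {κ' g Bd : ℝ} (hκ : 0 < κ')
    (hg : 0 < g) (hN : 0 < N) (hΔ : ∀ ω, w ω ≠ 0 → ‖Δ ω‖ ≤ Bd) (hgB : g ≤ Bd) (b : NB N) (hdet : b.M.det ≠ 0)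
    (hsee : ∀ ν : Fin N → ℝ, ∑ i, |ν i| = 1 →
        (∃ i, 1 / (4 * N) ≤ |ν ⬝ᵥ (b.M.mulVec (Pi.single i g : Fin N → ℝ))|) ∨
        κ' ≤ Pw w (fun ω => 1 / (4 * N) * max 1 ‖b.M.mulVec (Δ ω)‖ ≤ |ν ⬝ᵥ (b.M.mulVec (Δ ω))|)) (i : Fin N) :
    ‖b.fr i‖ ≤ 4 * N ^ 2 * Bd := by
  classical
  have hBd : 0 ≤ Bd := hg.le.trans hgB
  have hNr : (0 : ℝ) < N := by exact_mod_cast hN
  have hinv : ∀ v, b.M⁻¹.mulVec (b.M.mulVec v) = v := by
    intro v
    rw [Matrix.mulVec_mulVec, Matrix.nonsing_inv_mul _ (isUnit_iff_ne_zero.mpr hdet), Matrix.one_mulVec]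
  set x : Ω ⊕ Fin N → Fin N → ℝ := Sum.elim (fun ω => if w ω = 0 then 0 else Helper9.VB.tr (b.M.mulVec (Δ ω)))
    (fun i => b.M.mulVec (Pi.single i g)) with hx
  obtain ⟨s, -, -, h3⟩ := Helper9.VB.span_of_seen x (c := 1 / (4 * N)) (by positivity) (by
    intro ν hν
    rcases hsee ν hν with ⟨i, hi⟩ | h
    · exact ⟨Sum.inr i, hi⟩
    · obtain ⟨ω, h0, h1⟩ := Pw_exists w (lt_of_lt_of_le hκ h)
      refine ⟨Sum.inl ω, ?_⟩
      rw [hx]
      simp only [Sum.elim_inl]
      rw [if_neg h0, Helper9.VB.seen_iff]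
      exact h1)
  have hxB : ∀ k, ‖b.M⁻¹.mulVec (x k)‖ ≤ Bd := by
    rintro (ω | i)
    · rw [hx]
      simp only [Sum.elim_inl]
      by_cases h0 : w ω = 0
      · rw [if_pos h0, Matrix.mulVec_zero, norm_zero]
        exact hBd
      · rw [if_neg h0]
        unfold Helper9.VB.tr
        rw [Matrix.mulVec_smul, hinv, norm_smul, Real.norm_eq_abs]
        have h1 : 1 ≤ max 1 ‖b.M.mulVec (Δ ω)‖ := le_max_left _ _
        have h2 : |1 / max 1 ‖b.M.mulVec (Δ ω)‖| ≤ 1 := by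
          rw [abs_of_pos (by positivity), div_le_one (by positivity)]
          exact h1
        calc |1 / max 1 ‖b.M.mulVec (Δ ω)‖| * ‖Δ ω‖ ≤ 1 * Bd :=
              mul_le_mul h2 (hΔ ω h0) (norm_nonneg _) zero_le_one
          _ = Bd := one_mul _
    · rw [hx]
      simp only [Sum.elim_inr]
      rw [hinv, Pi.norm_single, Real.norm_eq_abs, abs_of_pos hg]
      exact hgB
  obtain ⟨t, ht, htv⟩ := h3 (Pi.single i 1)
  have hfr : b.fr i = b.M⁻¹.mulVec (Pi.single i 1) := by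
    funext j
    rw [Matrix.mulVec_single_one]
    rfl
  rw [hfr, htv, Matrix.mulVec_sum]
  refine (norm_sum_le _ _).trans ?_
  have h4 : ∀ k ∈ (univ : Finset (Fin N)), ‖b.M⁻¹.mulVec (t k • x (s k))‖ ≤ 4 * N * Bd := by
    intro k _
    rw [Matrix.mulVec_smul, norm_smul, Real.norm_eq_abs]
    have h5 := ht k
    rw [Pi.norm_single, norm_one] at h5
    have h6 : 1 / (1 / (4 * (N : ℝ))) = 4 * N := by field_simp
    rw [h6] at h5
    exact mul_le_mul h5 (hxB _) (norm_nonneg _) (by positivity)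
  refine (Finset.sum_le_sum h4).trans (le_of_eq ?_)
  rw [Finset.sum_const, Finset.card_fin, nsmul_eq_mul]
  ring

/-! ### the recorder -/

/-- **the recorder** -/
noncomputable def Erec (μ : Pt → ℝ) (T : Pt → ℝ) (A : Pt → Fin N → ℝ) (bod : ℕ → (Pt → ℝ) → ℤ → NB N)
    (sym : (Fin N → ℝ) → R) : ℕ → (Pt → Lb β R) → Pt → R :=
  fun m lam q => sym ((bod m (cw μ lam q) (cl m (T q))).dev (T q) (A q))

open Classical in
/-- the law of a node -/
noncomputable def nlaw (μ : Pt → ℝ) (lam : Pt → γ) (n : γ) : Pt → ℝ :=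
  if h : ∃ q, μ q ≠ 0 ∧ lam q = n then cw μ lam h.choose else 0

theorem nlaw_eq (μ : Pt → ℝ) (lam : Pt → γ) {q : Pt} (hq : μ q ≠ 0) : nlaw μ lam (lam q) = cw μ lam q := by
  unfold nlaw
  have h : ∃ q', μ q' ≠ 0 ∧ lam q' = lam q := ⟨q, hq, rfl⟩
  rw [dif_pos h]
  exact cw_congr' μ lam h.choose_spec.2

variable (F : Pt → β) (T : Pt → ℝ) (P : ℕ) (μ : Pt → ℝ) (A : Pt → Fin N → ℝ) (bod : ℕ → (Pt → ℝ) → ℤ → NB N)
  (sym : (Fin N → ℝ) → R) (o : ℕ → ℕ)

/-- the body of a node of level `i P + s` -/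
noncomputable def bN (i s : ℕ) (n : Lb β R) : NB N :=
  bod (i * P + s) (nlaw μ (nd (Erec μ T A bod sym) F T P o i s) n) n.2.1

theorem bN_nd (i s : ℕ) {q : Pt} (hq : μ q ≠ 0) :
    bN F T P μ A bod sym o i s (nd (Erec μ T A bod sym) F T P o i s q) =
      bod (i * P + s) (cw μ (nd (Erec μ T A bod sym) F T P o i s) q) (cl (i * P + s) (T q)) := by
  unfold bN
  rw [nlaw_eq μ _ hq]
  rfl

/-- **what is recorded** -/
theorem er_eq (i s : ℕ) {q : Pt} (hq : μ q ≠ 0) : er (Erec μ T A bod sym) F T P o i s q =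
    sym ((bN F T P μ A bod sym o i s (nd (Erec μ T A bod sym) F T P o i s q)).dev (T q) (A q)) := by
  rw [bN_nd F T P μ A bod sym o i s hq]
  rfl

theorem bN_reg {g K B : ℝ} (h : ∀ m w c, (bod m w c).Reg g (K * 2 ^ m) B) (i s : ℕ) (n : Lb β R) :
    (bN F T P μ A bod sym o i s n).Reg g (K * 2 ^ (i * P + s)) B := h _ _ _

/-- **most points are in the tubes of their nodes** -/
theorem sum_out [Fintype R] [Nonempty R] (hμ : ∀ x, 0 ≤ μ x) (hm : ∑ x, μ x = 1)
    (hT : ∀ x, μ x ≠ 0 → 0 ≤ T x ∧ T x < 1) {D ρ S : ℕ} (hD : D ≤ ρ) (hSP : S + ρ ≤ P) (L : ℕ) {C κ : ℝ}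
    (hκ : 0 ≤ κ)
    (hb : ∀ m w c, (∀ x, w x ≠ 0 → μ x ≠ 0) → IsNd w T m D ρ c →
      Pw w (fun x => C < ‖(bod m w c).dev (T x) (A x)‖) ≤ κ) :
    ∑ i ∈ range L, ∑ s ∈ range S, Pw μ (fun x => C < ‖(bN F T P μ A bod sym o i s
      (nd (Erec μ T A bod sym) F T P o i s x)).dev (T x) (A x)‖) ≤
    64 * 2 ^ ρ * (ρ * (L * P + L * Real.logb 2 (Fintype.card R) - CH μ (fun x => cl (L * P) (T x)) F)) +
      L * S * κ := by
  classical
  set E := Erec (β := β) μ T A bod sym with hE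
  have h1 := sum_not_nd E F T P μ hμ hm hT hD hSP o L
  have key : ∀ i s, Pw μ (fun x => C < ‖(bN F T P μ A bod sym o i s (nd E F T P o i s x)).dev (T x) (A x)‖) ≤
      Pw μ (fun x => ¬ IsNd (cw μ (nd E F T P o i s) x) T (i * P + s) D ρ (cl (i * P + s) (T x))) + κ := by
    intro i s
    rw [Pw_tower μ hμ (nd E F T P o i s)]
    have hterm : ∀ x ∈ (univ : Finset Pt), μ x * Pw (cw μ (nd E F T P o i s) x) (fun y => C < ‖(bN F T P μ A bod sym o i s
        (nd E F T P o i s y)).dev (T y) (A y)‖) ≤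
        (if ¬ IsNd (cw μ (nd E F T P o i s) x) T (i * P + s) D ρ (cl (i * P + s) (T x)) then μ x else 0) + κ * μ x := by
      intro x _
      by_cases h0 : μ x = 0
      · simp [h0]
      have hle1 : Pw (cw μ (nd E F T P o i s) x) (fun y => C < ‖(bN F T P μ A bod sym o i s
        (nd E F T P o i s y)).dev (T y) (A y)‖) ≤ 1 :=
        Pw_le_one _ (fun y => cw_nonneg μ _ hμ _ _) (cw_sum μ _ hμ x h0) _
      by_cases hN : IsNd (cw μ (nd E F T P o i s) x) T (i * P + s) D ρ (cl (i * P + s) (T x))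
      · rw [if_neg (not_not.mpr hN), zero_add, mul_comm κ]
        refine mul_le_mul_of_nonneg_left ?_ (hμ x)
        refine le_trans (Pw_mono _ (fun y => cw_nonneg μ _ hμ _ _) ?_)
          (hb _ _ _ (fun y hy => (cw_ne_zero μ _ hy).2) hN)
        intro y hy hy2
        obtain ⟨h2, h3⟩ := cw_ne_zero μ _ hy
        rw [bN_nd F T P μ A bod sym o i s h3] at hy2
        have h4 : cl (i * P + s) (T y) = cl (i * P + s) (T x) := by
          have h5 := h2
          simp only [nd, Prod.mk.injEq] at h5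
          exact h5.2.1
        rw [cw_congr' μ _ h2, h4] at hy2
        exact hy2
      · rw [if_pos hN]
        have h2 := mul_le_mul_of_nonneg_left hle1 (hμ x)
        have h4 := mul_nonneg hκ (hμ x)
        linarith
    refine (Finset.sum_le_sum hterm).trans (le_of_eq ?_)
    rw [Finset.sum_add_distrib, ← Finset.mul_sum, hm, mul_one]
    congr 1
    unfold Pw
    refine Finset.sum_congr rfl fun x _ => ?_
    by_cases hN : IsNd (cw μ (nd E F T P o i s) x) T (i * P + s) D ρ (cl (i * P + s) (T x))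
    · rw [if_neg (not_not.mpr hN), if_neg (not_not.mpr hN)]
    · rw [if_pos hN, if_pos hN]
  refine (Finset.sum_le_sum fun i _ => Finset.sum_le_sum fun s _ => key i s).trans ?_
  simp only [Finset.sum_add_distrib, Finset.sum_const, card_range, nsmul_eq_mul]
  have e1 : (L : ℝ) * (S * κ) = L * S * κ := by ring
  rw [e1]
  linarith

end Pool.Agent.Helper99.FW
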