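import Pool.Agent.Helper99.FW.Tre
import Pool.Agent.Helper22.FW.AddAR
import Pool.Agent.Helper25.FA.Sym
import Pool.Agent.Helper61.FW.Ctx
import Pool.Agent.Helper82.FW.Dig

/-!
# The bad events of pairs of carriers of an array (row n3 of FW)

`sdG` : the side with the bodies of the node theorem. `BadQ` : the bad event of a pair of points at a level, relative to
the family of vectors of the spectators. `BadQ.tube`, `BadQ.close` : what holds off the bad event.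
`cls_AR` : the sum over the levels of its probability for two columns of an array (the other side by `mir`).
-/

set_option autoImplicit false

namespace Pool.Agent.Helper99.FW

open Finset Pool.Agent.Helper69.RK Pool.Agent.Helper61.GL Pool.Agent.Helper46.WF Pool.Agent.Helper58.VW
open Pool.Agent.Helper99.VW Pool.Agent.Helper58.TR Pool.Agent.Helper9.ND Pool.Agent.Helper92.FW Pool.Agent.Helper78.FW
open Pool.Agent.Helper61.FW Pool.Agent.Helper25.FA Pool.Agent.Helper18.FW Pool.Agent.Helper22.FW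
open Pool.Agent.Helper31.EC (amw amw_nonneg amw_supp ms)

/-! ### sides -/

/-- the side with the bodies of the node theorem -/
noncomputable def sdG {φ α : Type} [Fintype α] (N ρ D r : ℕ) (g κ : ℝ) (F : α → φ) (T : α → ℝ) (A : α → Fin N → ℝ)
    (P : ℕ) (o : ℕ → ℕ) (μ : α → ℝ) : Sd φ α (Rc N r) N where
  F := F
  T := T
  A := A
  E := EG N ρ D r g κ μ T A
  P := P
  o := o
  B := bG N ρ D r g κ F T P μ A o

section bad

variable {φ α R : Type} {N : ℕ}

/-- **the bad event of a pair of points at the level `J`**, relative to a family of vectors -/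
def BadQ (S : Sd φ α R N) (S' C₀ : ℕ) (r : ℝ) (Z : Multiset (Fin N → ℝ)) (J : ℕ) (q q' : α) : Prop :=
  ¬ J % S.P < S' ∨ r < ‖(S.bL J q).dev (S.T q) (S.A q)‖ ∨ r < ‖(S.bL J q').dev (S.T q') (S.A q')‖ ∨
    (¬ ∀ i, InB Z ((S.bL J q).fr i)) ∨ (¬ ∀ i, InB Z ((S.bL J q').fr i)) ∨
    ¬ InSum (S.bL J q).sn (S.bL J q').sn (2 ^ (J + C₀ + 3) * r) (2 ^ (J + C₀ + 2) * r)
      ((S.bL J q).a - (S.bL J q').a)

variable {S : Sd φ α R N} {S' C₀ : ℕ} {r : ℝ} {Z : Multiset (Fin N → ℝ)} {J : ℕ} {q q' : α}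

/-- the level of a pair which is not bad is not a gap level -/
theorem BadQ.gap (h : ¬ BadQ S S' C₀ r Z J q q') : J % S.P < S' := by
  unfold BadQ at h
  push Not at h
  exact h.1

/-- **off the bad event the points are in their tubes**, in units of the family -/
theorem BadQ.tube (h : ¬ BadQ S S' C₀ r Z J q q') (hq : FrOf (S.bL J q).sn (S.bL J q).fr)
    (hq' : FrOf (S.bL J q').sn (S.bL J q').fr) (P : Seminorm ℝ (Fin N → ℝ)) (hP : ∀ u ∈ Z, P u ≤ 1) :
    P (S.A q - S.T q • (S.bL J q).a - (S.bL J q).o) ≤ N ^ 2 * r ∧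
      P (S.A q' - S.T q' • (S.bL J q').a - (S.bL J q').o) ≤ N ^ 2 * r := by
  unfold BadQ at h
  push Not at h
  obtain ⟨-, h1, h2, h3, h4, -⟩ := h
  have e1 := hq.le_of P (fun i => inB_le (h3 i) P hP) (v := S.A q - S.T q • (S.bL J q).a - (S.bL J q).o) (c := r) (by
    rw [NB.sn_apply]
    exact h1)
  have e2 := hq'.le_of P (fun i => inB_le (h4 i) P hP) (v := S.A q' - S.T q' • (S.bL J q').a - (S.bL J q').o) (c := r)
    (by
      rw [NB.sn_apply]
      exact h2)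
  constructor
  · refine e1.trans (le_of_eq ?_)
    ring
  · refine e2.trans (le_of_eq ?_)
    ring

/-- **off the bad event the slopes are close**, in units of the family -/
theorem BadQ.close (h : ¬ BadQ S S' C₀ r Z J q q') (hq : FrOf (S.bL J q).sn (S.bL J q).fr)
    (hq' : FrOf (S.bL J q').sn (S.bL J q').fr) (P : Seminorm ℝ (Fin N → ℝ)) (hP : ∀ u ∈ Z, P u ≤ 1) :
    P ((S.bL J q).a - (S.bL J q').a) ≤ N ^ 2 * (2 ^ (J + C₀ + 3) * r + 2 ^ (J + C₀ + 2) * r) := by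
  unfold BadQ at h
  push Not at h
  obtain ⟨-, -, -, h3, h4, e₁, e₂, he, h5, h6⟩ := h
  have e1 := hq.le_of P (fun i => inB_le (h3 i) P hP) h5
  have e2 := hq'.le_of P (fun i => inB_le (h4 i) P hP) h6
  rw [he]
  refine (map_add_le_add P _ _).trans ((add_le_add e1 e2).trans (le_of_eq ?_))
  ring

/-- the family of the spectators at a level -/
noncomputable def fmL {B : ℕ} (S : Sd φ α R N) (g : ℝ) (s : Finset (Fin B)) (x : Fin B → α) (J : ℕ) :
    Multiset (Fin N → ℝ) := famS g (fun q => (S.bL J q).fr) x s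

theorem mem_fmL {B : ℕ} {g : ℝ} {s : Finset (Fin B)} {x : Fin B → α} {v : Fin N → ℝ} :
    v ∈ fmL S g s x J ↔ v ∈ fam (flr (N := N) g) ∨ ∃ b ∈ s, ∃ i, v = (S.bL J (x b)).fr i := by
  unfold fmL
  rw [mem_famS]
  constructor
  · rintro (h | ⟨b, hb, h⟩)
    · exact Or.inl h
    · obtain ⟨i, hi⟩ := (mem_fam_iff _ _).mp h
      exact Or.inr ⟨b, hb, i, hi.symm⟩
  · rintro (h | ⟨b, hb, i, hi⟩)
    · exact Or.inl h
    · exact Or.inr ⟨b, hb, (mem_fam_iff _ _).mpr ⟨i, hi.symm⟩⟩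

end bad

/-! ### the entropy of coarser digits -/

theorem ent_down {X γ : Type} [Fintype X] (ν : X → ℝ) (hν : ∀ x, 0 ≤ ν x) (hm : mass ν = 1) (T : X → ℝ) (G : X → γ)
    {m n : ℕ} (hmn : m ≤ n) {e : ℝ} (h : n - e ≤ CH ν (fun x => cl n (T x)) G) :
    m - e ≤ CH ν (fun x => cl m (T x)) G := by
  obtain ⟨d, rfl⟩ := Nat.exists_eq_add_of_le hmn
  have h1 := ch_tri ν hν (fun x => cl (m + d) (T x)) (fun x => cl m (T x)) G
  have h2 := ch_window_le ν hν T (fun x => (cl m (T x), G x)) m d (fun x y _ _ e => (Prod.ext_iff.1 e).1)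
  rw [hm, mul_one] at h2
  push_cast at h
  linarith

/-- the bound of `cls_AR`; `N` = dimension, `ek = η n` -/
noncomputable def clsN (N ρw r : ℕ) (κ : ℝ) (L P S' C₀ k : ℕ) (E ek εA : ℝ) : ℝ :=
  (8 / 2 ^ C₀ * (L * P) + 16 * 2 ^ C₀ * (C₀ * ((E + 2 * ek) + C₀))) +
  256 * (2 * (L * (2 * Real.logb 2 (Fintype.card (Rc N r))) + ((E + N + (ek + N)) + E + (E + 2 * ek) + 2))) +
  514 * (64 * 2 ^ ρw * (ρw * (L * Real.logb 2 (Fintype.card (Rc N r)) + ek)) + L * S' * (53248 * (((N : ℝ) + 1) * κ))) +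
  256 * (L * S' * εA) + 2 * (L * S' * (N / (k + 1)))

section ar

variable {Ω φ α β : Type} [Fintype Ω] [Fintype β] {N B : ℕ} {D : ED Ω φ α β (N + 1)} {ρ η εQ ηQ c : ℝ} {tp : α → ℝ}
  {tq : β → ℝ} {Ap : α → Fin (N + 1) → ℝ} {Cq : β → Fin (N + 1) → ℝ} {Λ ιr : Type} [Fintype Λ] [Fintype ιr]
  [DecidableEq ιr] {l : Λ → ℝ} {en : ιr → Fin B → Λ → Ω} {E : ℝ} {dd ρw r : ℕ} {g κ : ℝ}

/-- facts on the law of the right vertices -/
theorem lawQ (h : EdgD D ρ η εQ ηQ c tp tq Ap Cq) : (∀ x, 0 ≤ push D.Q D.μ x) ∧ ∑ x, push D.Q D.μ x = 1 ∧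
    (∀ x, push D.Q D.μ x ≠ 0 → 0 ≤ tq x ∧ tq x < 1) ∧ ∀ x, push D.Q D.μ x ≠ 0 → ‖Cq x‖ ≤ 1 := by
  classical
  have hex : ∀ x, push D.Q D.μ x ≠ 0 → ∃ ω, D.Q ω = x := by
    intro x hx
    by_contra hcon
    push Not at hcon
    apply hx
    unfold push
    refine Finset.sum_eq_zero fun ω _ => ?_
    rw [if_neg (hcon ω)]
  refine ⟨Helper31.EC.push_nn D.Q D.μ h.ed.nn, ?_, ?_, ?_⟩
  · have h1 := Helper6.VS.push_mass D.Q D.μ h.ed.nn
    rw [h.ed.ms] at h1
    exact h1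
  · intro x hx
    obtain ⟨ω, rfl⟩ := hex x hx
    exact h.ed.bT' ω
  · intro x hx
    obtain ⟨ω, rfl⟩ := hex x hx
    rw [pi_norm_le_iff_of_nonneg zero_le_one]
    intro i
    exact h.ed.bC ω i

omit [DecidableEq ιr] in
/-- **most right vertices are in the tubes of their nodes** -/
theorem out_AR (hc : Cst (N + 1) dd ρw r g κ) (h : EdgD D ρ η εQ ηQ c tp tq Ap Cq) (hr : AR D l en E) (F : β → φ)
    (hF : ∀ ω, D.μ ω ≠ 0 → F (D.Q ω) = D.F ω) (P : ℕ) (o : ℕ → ℕ) (a : ιr) (b : Fin B) {S' L : ℕ} (hSρ : S' + ρw ≤ P)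
    (hLn : L * P ≤ D.n) :
    ∑ i ∈ range L, ∑ s ∈ range S', Pw l (fun w => 270000 <
      ‖((sdG (N + 1) ρw dd r g κ F tq Cq P o (push D.Q D.μ)).B i s
        ((sdG (N + 1) ρw dd r g κ F tq Cq P o (push D.Q D.μ)).n i s (D.Q (en a b w)))).dev (tq (D.Q (en a b w)))
          (Cq (D.Q (en a b w)))‖) ≤
    64 * 2 ^ ρw * (ρw * (L * Real.logb 2 (Fintype.card (Rc (N + 1) r)) + η * D.n)) +
      L * S' * (53248 * ((((N + 1 : ℕ) : ℝ) + 1) * κ)) := by
  obtain ⟨h0, h1, h2, h3⟩ := lawQ h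
  have h4 := hc.out_tree (F := F) (T := tq) (P := P) (μ := push D.Q D.μ) (A := Cq) (o := o) h0 h1 h2 h3 hSρ L
  have h5 : ∀ i s, Pw l (fun w => 270000 <
      ‖((sdG (N + 1) ρw dd r g κ F tq Cq P o (push D.Q D.μ)).B i s
        ((sdG (N + 1) ρw dd r g κ F tq Cq P o (push D.Q D.μ)).n i s (D.Q (en a b w)))).dev (tq (D.Q (en a b w)))
          (Cq (D.Q (en a b w)))‖) = Pw (push D.Q D.μ) (fun x => 270000 <
      ‖(bG (N + 1) ρw dd r g κ F tq P (push D.Q D.μ) Cq o i s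
        (nd (EG (N + 1) ρw dd r g κ (push D.Q D.μ) tq Cq) F tq P o i s x)).dev (tq x) (Cq x)‖) := by
    intro i s
    rw [← Pw_push D.Q D.μ (fun x => 270000 < ‖(bG (N + 1) ρw dd r g κ F tq P (push D.Q D.μ) Cq o i s
        (nd (EG (N + 1) ρw dd r g κ (push D.Q D.μ) tq Cq) F tq P o i s x)).dev (tq x) (Cq x)‖), ← hr.pu a b,
      ← Pw_push (en a b) l]
    rfl
  simp only [h5]
  refine h4.trans ?_
  have h6 : (L * P : ℕ) - η * D.n ≤ CH (push D.Q D.μ) (fun x => cl (L * P) (tq x)) F := by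
    rw [push_CH]
    have e1 : CH D.μ (fun w => cl (L * P) (tq (D.Q w))) (fun w => F (D.Q w)) =
        CH D.μ (fun w => cl (L * P) (tq (D.Q w))) D.F := by
      apply ch_congr_right
      intro ω ω' hω hω'
      rw [hF ω hω, hF ω' hω']
    rw [e1]
    exact ent_down D.μ h.ed.nn h.ed.ms (fun ω => tq (D.Q ω)) D.F hLn h.mir.r1
  push_cast at h6
  have h7 : (0 : ℝ) ≤ 64 * 2 ^ ρw * ρw := by positivity
  have h8 := mul_le_mul_of_nonneg_left (show (L * P : ℝ) + L * Real.logb 2 (Fintype.card (Rc (N + 1) r)) -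
    CH (push D.Q D.μ) (fun x => cl (L * P) (tq x)) F ≤ L * Real.logb 2 (Fintype.card (Rc (N + 1) r)) + η * D.n by
      linarith) h7
  refine add_le_add ?_ le_rfl
  rw [← mul_assoc, ← mul_assoc (64 * 2 ^ ρw : ℝ)]
  exact h8

/-- **the sum over the levels of the probability of the bad event of two columns** -/
theorem cls_AR (hc : Cst (N + 1) dd ρw r g κ) (h : EdgD D ρ η εQ ηQ c tp tq Ap Cq) (hr : AR D l en E) (F : β → φ)
    (hF : ∀ ω, D.μ ω ≠ 0 → F (D.Q ω) = D.F ω) (P : ℕ) (o : ℕ → ℕ) (a : ιr)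
    (hinv : ∀ (b b' : Fin B) (W : (Fin B → β) → Prop), Pw l (fun w => W ((fun d => D.Q (en a d w)) ∘ Equiv.swap b b')) =
      Pw l (fun w => W (fun d => D.Q (en a d w))))
    {c₁ c₂ : Fin B} (hcc : c₁ ≠ c₂) {Sp : Finset (Fin B)} (hs₁ : c₁ ∉ Sp) (hs₂ : c₂ ∉ Sp)
    {C₀ S' L : ℕ} (hC : 1 ≤ C₀) (hSP : S' + C₀ + 2 ≤ P) (hSρ : S' + ρw ≤ P) (hn : L * P + C₀ ≤ D.n)
    (hsl : ((N + 1 : ℕ) : ℝ) / g * (Kas (N + 1) * 2 ^ (L * P)) ≤ 270000 * 2 ^ D.n)
    (hρ : ρ ≤ N + 1) (hη : 0 ≤ η) (hd : 7 * E + 4 * (η * D.n) + 18 * (N + 1) ≤ ηQ * D.n) {k : ℕ} (hk : k ≤ D.n)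
    (hkg : ((N + 1 : ℕ) : ℝ) / g * ((2 : ℝ) ^ k)⁻¹ ≤ 270000) (hpos : 0 < ρ * D.n - k - (21 * N + 28)) {εA : ℝ}
    (hεA : 6 * (η * D.n) + (N + 1) * (D.n + 5) * η + (N + 1) * εQ * D.n + 7 * E + 1 + (N + 1) * (5 * N + 25) ≤
      εA * (ρ * D.n - k - (21 * N + 28))) :
    ∑ J ∈ range (L * P), Pw l (fun w => BadQ (sdG (N + 1) ρw dd r g κ F tq Cq P o (push D.Q D.μ)) S' C₀ 270000
      (fmL (sdG (N + 1) ρw dd r g κ F tq Cq P o (push D.Q D.μ)) g Sp (fun b => D.Q (en a b w)) J) J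
      (D.Q (en a c₁ w)) (D.Q (en a c₂ w))) ≤
    L * (P - S') + clsN (N + 1) ρw r κ L P S' C₀ Sp.card E (η * D.n) εA := by
  classical
  set S := sdG (N + 1) ρw dd r g κ F tq Cq P o (push D.Q D.μ) with hS
  have hml : mass l = 1 := by
    rw [← h.ed.ms, ← hr.pu a c₁, Helper6.VS.push_mass (en a c₁) l hr.nn]
  have hml' : ∑ w, l w = 1 := hml
  have hsupp : ∀ (w : Λ) (b : Fin B), l w ≠ 0 → D.μ (en a b w) ≠ 0 := by
    intro w b hw
    rw [← hr.pu a b]
    exact Helper6.VS.push_supp (en a b) l hr.nn w hw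
  have hgpos := hc.hg
  have hNg : (0 : ℝ) < ((N + 1 : ℕ) : ℝ) / g := by positivity
  have hlP : L * P ≤ D.n := by omega
  -- the sum of the bad events of LEMMA B
  have key := cls_sum (N := N + 1) (EG (N + 1) ρw dd r g κ (push D.Q D.μ) tq Cq) F tq P o hr.nn hml'
    (fun w d => D.Q (en a d w)) hinv (fun w => D.F (en a c₁ w)) (fun w => D.P (en a c₁ w))
    (fun w => D.z3d (en a c₁ w)) hs₁ hs₂ (fun w w' hw hw' e => by
      have e1 : ∀ b, F (D.Q (en a b w)) = F (D.Q (en a b w')) := by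
        intro b
        rw [hF _ (hsupp w b hw), hF _ (hsupp w' b hw'), hr.sF w hw a b a c₁, hr.sF w' hw' a b a c₁]
        exact e
      exact ⟨e1 c₁, e1 c₂⟩)
    (fun w _ => ⟨h.ed.bT' _, h.ed.bT' _⟩) Cq (fun i s m => (S.B i s m).a) (fun i s m => (S.B i s m).o)
    (fun i s m => (S.B i s m).sn) (fun i s m => (S.B i s m).fr) (fun _ _ => 270000) hgpos
    (normSeminorm ℝ (Fin (N + 1) → ℝ)) (t := 270000 / (((N + 1 : ℕ) : ℝ) / g)) (ε := εA) hC hSP (n := D.n)
    (by omega) (L := L)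
    (fun i _ s _ m v hv => by
      have h1 : (S.B i s m).Reg g (Kas (N + 1) * 2 ^ (i * P + s)) (Bfr (N + 1)) := hc.reg_tree i s m
      refine (h1.floor hgpos v).trans ?_
      have hv' : ‖v‖ ≤ 270000 / (((N + 1 : ℕ) : ℝ) / g) := hv
      rw [le_div_iff₀ hNg] at hv'
      linarith)
    (fun i hi s hs m => by
      have h1 : (S.B i s m).Reg g (Kas (N + 1) * 2 ^ (i * P + s)) (Bfr (N + 1)) := hc.reg_tree i s m
      have h2 := (h1.floor hgpos (S.B i s m).a).trans (mul_le_mul_of_nonneg_left h1.slo hNg.le)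
      have h3 : i * P + s ≤ L * P := by
        have : (i + 1) * P ≤ L * P := Nat.mul_le_mul_right P hi
        rw [add_mul, one_mul] at this
        omega
      have h4 : (2 : ℝ) ^ (i * P + s) ≤ 2 ^ (L * P) := pow_le_pow_right₀ (by norm_num) h3
      have h5 : ((N + 1 : ℕ) : ℝ) / g * (Kas (N + 1) * 2 ^ (i * P + s)) ≤ 270000 * 2 ^ D.n :=
        (mul_le_mul_of_nonneg_left (mul_le_mul_of_nonneg_left h4 kas_nonneg) hNg.le).trans hsl
      have h6 := h2.trans h5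
      rw [one_div, inv_mul_le_iff₀ (by positivity), mul_comm]
      exact h6)
    (d₁ := E + ((N + 1 : ℕ) : ℝ) + (η * D.n + ((N + 1 : ℕ) : ℝ))) (d₂ := E) (d₃ := E + 2 * (η * D.n))
    (cls_h1 hr h.ed.ms h.e3 a c₁ c₁ c₂) (cls_h2 hr a c₁ hcc)
    (cls_h3 hr a c₁ hcc (fun q => cl D.n (tq q)) h.mir.r1)
    (fun δ g' => adE h hr a c₁ hcc hρ hη hd hk (normSeminorm ℝ (Fin (N + 1) → ℝ)) (fun v hv => by
      rw [le_div_iff₀ hNg, mul_comm]
      refine le_trans (mul_le_mul_of_nonneg_left ?_ hNg.le) hkg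
      show ‖v‖ ≤ _
      rw [pi_norm_le_iff_of_nonneg (by positivity)]
      intro i
      exact (hv i).le) hpos hεA δ g')
    (out_AR hc h hr F hF P o a c₁ hSρ hlP) (out_AR hc h hr F hF P o a c₂ hSρ hlP)
  set G : ℕ → ℕ → ℝ := fun i s => Pw l (fun w => BadP g ((fun i s m => (S.B i s m).fr) i s)
      ((fun i s m => (S.B i s m).sn) i s) ((fun _ _ => (270000 : ℝ)) i s)
      (2 ^ (i * P + s + C₀ + 3) * (fun _ _ => (270000 : ℝ)) i s) (2 ^ (i * P + s + C₀ + 2) * (fun _ _ => (270000 : ℝ)) i s)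
      Sp c₁ c₂ (fun d => nd (EG (N + 1) ρw dd r g κ (push D.Q D.μ) tq Cq) F tq P o i s ((fun w d => D.Q (en a d w)) w d))
      (fun d => Cq ((fun w d => D.Q (en a d w)) w d) - tq ((fun w d => D.Q (en a d w)) w d) •
        (fun i s m => (S.B i s m).a) i s (nd (EG (N + 1) ρw dd r g κ (push D.Q D.μ) tq Cq) F tq P o i s
          ((fun w d => D.Q (en a d w)) w d)) -
        (fun i s m => (S.B i s m).o) i s (nd (EG (N + 1) ρw dd r g κ (push D.Q D.μ) tq Cq) F tq P o i s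
          ((fun w d => D.Q (en a d w)) w d)))
      ((fun i s m => (S.B i s m).a) i s)) with hGdef
  have hS'P : S' ≤ P := by omega
  have hlev : ∀ J, Pw l (fun w => BadQ S S' C₀ 270000 (fmL S g Sp (fun b => D.Q (en a b w)) J) J
      (D.Q (en a c₁ w)) (D.Q (en a c₂ w))) ≤
      (if J % P < S' then G (J / P) (J % P) else 0) + (if J % P < S' then 0 else 1) := by
    intro J
    by_cases hJ : J % P < S'
    · rw [if_pos hJ, if_pos hJ, add_zero]
      refine Pw_mono l hr.nn ?_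
      intro w _ hw
      have e : J / P * P + J % P = J := Nat.div_add_mod' J P
      rcases hw with h1 | h1 | h1 | h1 | h1 | h1
      · exact absurd hJ h1
      · exact Or.inl h1
      · exact Or.inr (Or.inl h1)
      · exact Or.inr (Or.inr (Or.inl h1))
      · exact Or.inr (Or.inr (Or.inr (Or.inl h1)))
      · refine Or.inr (Or.inr (Or.inr (Or.inr ?_)))
        rw [e]
        exact h1
    · rw [if_neg hJ, if_neg hJ, zero_add]
      exact Pw_le_one l hr.nn hml' _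
  refine (Finset.sum_le_sum fun J _ => hlev J).trans ?_
  rw [Finset.sum_add_distrib, Helper82.FW.sum_blocks_lt L P S' hS'P G]
  have hgap : ∑ J ∈ range (L * P), (if J % P < S' then (0 : ℝ) else 1) = L * (P - S') := by
    have h1 := Helper82.FW.card_gap L P S' hS'P
    have h2 : ∑ J ∈ range (L * P), (if J % P < S' then (0 : ℝ) else 1) =
        ((range (L * P)).filter (fun m => ¬ m % P < S')).card := by
      rw [Finset.card_filter]
      push_cast
      refine Finset.sum_congr rfl fun J _ => ?_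
      by_cases hJ : J % P < S' <;> simp [hJ]
    rw [h2, h1, Nat.cast_mul, Nat.cast_sub hS'P]
  rw [hgap, add_comm]
  refine add_le_add le_rfl ?_
  exact key

end ar

section sym

variable {Ω φ α β : Type} [Fintype Ω] {N B : ℕ} (D : ED Ω φ α β N)

/-- exchange of two columns of the array (hypothesis `hinv` of `cls_AR`) -/
theorem arr_swap_col {ιr : Type} [Fintype ιr] [DecidableEq ιr] (b0 : Fin B) (a : ιr) (b b' : Fin B)
    (W : (Fin B → β) → Prop) :
    Pw (arr D ιr b0) (fun w => W ((fun d => D.Q (ent ιr (Fin B) Ω a d w)) ∘ Equiv.swap b b')) =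
      Pw (arr D ιr b0) (fun w => W (fun d => D.Q (ent ιr (Fin B) Ω a d w))) :=
  Pw_col D b0 (Equiv.swap b b') (fun A => W (fun d => D.Q (A a d)))

/-- exchange of two rows of the array (hypothesis `hinv` of `cls_AR` for `D.mir`) -/
theorem arr_swap_row {ιc : Type} [Fintype ιc] [DecidableEq ιc] (b0 a : ιc) (b b' : Fin B) (W : (Fin B → α) → Prop) :
    Pw (arr D (Fin B) b0) (fun w => W ((fun d => D.P (ent (Fin B) ιc Ω d a w)) ∘ Equiv.swap b b')) =
      Pw (arr D (Fin B) b0) (fun w => W (fun d => D.P (ent (Fin B) ιc Ω d a w))) :=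
  Pw_row D b0 (Equiv.swap b b') (fun A => W (fun d => D.P (A d a)))

end sym

end Pool.Agent.Helper99.FW
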