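import Pool.Agent.Helper99.FW.LemBT

/-!
# LEMMA B for the edges of the array: all entropies from three numbers

The law of two points `q₁`, `q₂` of the recorded tree, of another point (or several points) `Q`, of the digits `z` of a
centre and of a label `F`. Numbers: `I(z; q₁ q₂ Q | F) ≤ d₁`, `I(q₁ q₂; Q | F) ≤ d₂`,
`H(T q₁, T q₂ | F) ≥ 2 n - d₃`. Input: the conclusion of (ADD): two exact copies of the pair given
`(F, Q, z, a function of the pair which determines T q₁ - T q₂)` have the same `A q₁ - A q₂` up to `t`, except for the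
mass `ε`.
-/

set_option autoImplicit false

namespace Pool.Agent.Helper99.FW

open Finset Pool.Agent.Helper69.RK Pool.Agent.Helper61.GL Pool.Agent.Helper46.WF Pool.Agent.Helper58.VW
open Pool.Agent.Helper99.VW Pool.Agent.Helper58.TR
open Pool.Agent.Helper31.EC (amw amw_nonneg amw_supp ms)

variable {V : Type*} [AddCommGroup V] [Module ℝ V] {X γ γ' Λ Pt β R β₀ κP κQ ζ : Type} [Fintype X]

/-- the glued law depends on the fibres of the label only -/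
theorem amw_congr_lab (w : X → ℝ) (G : X → γ) (G' : X → γ')
    (h : ∀ x y, w x ≠ 0 → w y ≠ 0 → (G x = G y ↔ G' x = G' y)) : amw w w G G = amw w w G' G' := by
  classical
  funext x
  show e1_ind (G x.1 = G x.2) * (w x.1 * w x.2 / ms w G (G x.1)) =
    e1_ind (G' x.1 = G' x.2) * (w x.1 * w x.2 / ms w G' (G' x.1))
  by_cases h1 : w x.1 = 0
  · simp [h1]
  by_cases h2 : w x.2 = 0
  · simp [h2]
  have h3 : ms w G (G x.1) = ms w G' (G' x.1) := by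
    show ∑ y, e1_ind (G y = G x.1) * w y = ∑ y, e1_ind (G' y = G' x.1) * w y
    refine Finset.sum_congr rfl fun y _ => ?_
    by_cases hy : w y = 0
    · simp [hy]
    · by_cases h4 : G y = G x.1
      · rw [e1_ind_pos h4, e1_ind_pos ((h y x.1 hy h1).mp h4)]
      · rw [e1_ind_neg h4, e1_ind_neg (fun h5 => h4 ((h y x.1 hy h1).mpr h5))]
  rw [h3]
  by_cases h4 : G x.1 = G x.2
  · rw [e1_ind_pos h4, e1_ind_pos ((h x.1 x.2 h1 h2).mp h4)]
  · rw [e1_ind_neg h4, e1_ind_neg (fun h5 => h4 ((h x.1 x.2 h1 h2).mpr h5))]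

/-- the difference and one variable determine the other one up to one bit -/
theorem two_of_diff (w : X → ℝ) (hw : ∀ x, 0 ≤ w x) (hm : ∑ x, w x = 1) (F : X → β₀) (T₁ T₂ : X → ℝ) (n : ℕ)
    (hT : ∀ x, w x ≠ 0 → (0 ≤ T₁ x ∧ T₁ x < 1) ∧ 0 ≤ T₂ x ∧ T₂ x < 1) :
    CH w (fun x => (cl n (T₁ x), cl n (T₂ x))) F ≤
      n + 2 + CH w (fun x => cl n (T₂ x)) (fun x => (cl n (T₁ x - T₂ x), F x)) := by
  have hmass : mass w = 1 := hm
  have e1 := ch_tri w hw (fun x => (cl n (T₁ x), cl n (T₂ x))) (fun x => (cl n (T₁ x - T₂ x), cl n (T₂ x))) F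
  have e2 : CH w (fun x => (cl n (T₁ x), cl n (T₂ x))) (fun x => ((cl n (T₁ x - T₂ x), cl n (T₂ x)), F x)) ≤ 1 := by
    have e3 := ch_mono w hw (fun x => (cl n (T₁ x), cl n (T₂ x))) (fun x => cl n (T₁ x))
      (fun x => ((cl n (T₁ x - T₂ x), cl n (T₂ x)), F x)) (fun x y _ _ h h' => by
        simp only [Prod.mk.injEq] at h h' ⊢
        exact ⟨h, h'.1.2⟩)
    have e4 := ch_int w hw (fun x => cl n (T₁ x)) (fun x => ((cl n (T₁ x - T₂ x), cl n (T₂ x)), F x)) 1 (by norm_num) (by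
      intro x y _ _ h
      simp only [Prod.mk.injEq] at h
      obtain ⟨⟨h1, h2⟩, -⟩ := h
      have a1 := Int.floor_le ((2 : ℝ) ^ n * T₁ x)
      have a2 := Int.lt_floor_add_one ((2 : ℝ) ^ n * T₁ x)
      have a3 := Int.floor_le ((2 : ℝ) ^ n * T₁ y)
      have a4 := Int.lt_floor_add_one ((2 : ℝ) ^ n * T₁ y)
      have b1 := Int.floor_le ((2 : ℝ) ^ n * T₂ x)
      have b2 := Int.lt_floor_add_one ((2 : ℝ) ^ n * T₂ x)
      have b3 := Int.floor_le ((2 : ℝ) ^ n * T₂ y)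
      have b4 := Int.lt_floor_add_one ((2 : ℝ) ^ n * T₂ y)
      have c1 := Int.floor_le ((2 : ℝ) ^ n * (T₁ x - T₂ x))
      have c2 := Int.lt_floor_add_one ((2 : ℝ) ^ n * (T₁ x - T₂ x))
      have c3 := Int.floor_le ((2 : ℝ) ^ n * (T₁ y - T₂ y))
      have c4 := Int.lt_floor_add_one ((2 : ℝ) ^ n * (T₁ y - T₂ y))
      -- both floors belong to `{g + t, g + t + 1}`
      have f1 : (⌊(2 : ℝ) ^ n * (T₁ x - T₂ x)⌋ + ⌊(2 : ℝ) ^ n * T₂ x⌋ : ℤ) ≤ ⌊(2 : ℝ) ^ n * T₁ x⌋ := by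
        rw [Int.le_floor]
        push_cast
        linarith
      have f2 : ⌊(2 : ℝ) ^ n * T₁ x⌋ < (⌊(2 : ℝ) ^ n * (T₁ x - T₂ x)⌋ + ⌊(2 : ℝ) ^ n * T₂ x⌋ + 2 : ℤ) := by
        rw [Int.floor_lt]
        push_cast
        linarith
      have f3 : (⌊(2 : ℝ) ^ n * (T₁ y - T₂ y)⌋ + ⌊(2 : ℝ) ^ n * T₂ y⌋ : ℤ) ≤ ⌊(2 : ℝ) ^ n * T₁ y⌋ := by
        rw [Int.le_floor]
        push_cast
        linarith
      have f4 : ⌊(2 : ℝ) ^ n * T₁ y⌋ < (⌊(2 : ℝ) ^ n * (T₁ y - T₂ y)⌋ + ⌊(2 : ℝ) ^ n * T₂ y⌋ + 2 : ℤ) := by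
        rw [Int.floor_lt]
        push_cast
        linarith
      have h1'' : ⌊(2 : ℝ) ^ n * (T₁ x - T₂ x)⌋ = ⌊(2 : ℝ) ^ n * (T₁ y - T₂ y)⌋ := h1
      have h2'' : ⌊(2 : ℝ) ^ n * T₂ x⌋ = ⌊(2 : ℝ) ^ n * T₂ y⌋ := h2
      have g1 : ⌊(2 : ℝ) ^ n * T₁ x⌋ - ⌊(2 : ℝ) ^ n * T₁ y⌋ ≤ 1 := by omega
      have g2 : -1 ≤ ⌊(2 : ℝ) ^ n * T₁ x⌋ - ⌊(2 : ℝ) ^ n * T₁ y⌋ := by omega
      show |((⌊(2 : ℝ) ^ n * T₁ x⌋ : ℤ) : ℝ) - (⌊(2 : ℝ) ^ n * T₁ y⌋ : ℤ)| ≤ 1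
      rw [abs_le]
      constructor
      · exact_mod_cast g2
      · exact_mod_cast g1)
    have e5 : Real.logb 2 ((1 : ℝ) + 1) = 1 := by
      norm_num
    rw [e5, hmass] at e4
    linarith
  have e6 := ch_chain w (fun x => cl n (T₁ x - T₂ x)) (fun x => cl n (T₂ x)) F
  have e7 : CH w (fun x => cl n (T₁ x - T₂ x)) F ≤ n + 1 := by
    have e8 := ch_int w hw (fun x => cl n (T₁ x - T₂ x)) F (2 ^ (n + 1) - 1) (by
        have : (1 : ℝ) ≤ 2 ^ (n + 1) := one_le_pow₀ (by norm_num)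
        linarith) (by
      intro x y hx hy _
      have hp : (0 : ℝ) < 2 ^ n := by positivity
      have k1 : ∀ u, w u ≠ 0 → -(2 ^ n : ℤ) ≤ cl n (T₁ u - T₂ u) ∧ cl n (T₁ u - T₂ u) < 2 ^ n := by
        intro u hu
        obtain ⟨⟨t1, t2⟩, t3, t4⟩ := hT u hu
        constructor
        · unfold cl
          rw [Int.le_floor]
          push_cast
          nlinarith
        · unfold cl
          rw [Int.floor_lt]
          push_cast
          nlinarith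
      obtain ⟨x1, x2⟩ := k1 x hx
      obtain ⟨y1, y2⟩ := k1 y hy
      have z1 : ((cl n (T₁ x - T₂ x) : ℤ) : ℝ) + 1 ≤ 2 ^ n := by exact_mod_cast x2
      have z2 : ((cl n (T₁ y - T₂ y) : ℤ) : ℝ) + 1 ≤ 2 ^ n := by exact_mod_cast y2
      have z3 : -(2 ^ n : ℝ) ≤ (cl n (T₁ x - T₂ x) : ℤ) := by exact_mod_cast x1
      have z4 : -(2 ^ n : ℝ) ≤ (cl n (T₁ y - T₂ y) : ℤ) := by exact_mod_cast y1
      rw [abs_le, pow_succ]
      constructor <;> linarith)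
    rw [sub_add_cancel, Real.logb_pow, Real.logb_self_eq_one (by norm_num), mul_one, hmass] at e8
    push_cast at e8
    linarith
  linarith

/-- **entropy of `T₂` given the label of LEMMA B**, from the three numbers -/
theorem win_lab (w : X → ℝ) (hw : ∀ x, 0 ≤ w x) (hm : ∑ x, w x = 1) (F : X → β₀) (P : X → κP) (Q : X → κQ) (z : X → ζ)
    (T₁ T₂ : X → ℝ) {n m : ℕ} (hmn : m ≤ n) (hP : ∀ x y, w x ≠ 0 → w y ≠ 0 → P x = P y → T₁ x = T₁ y ∧ T₂ x = T₂ y)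
    (hT : ∀ x, w x ≠ 0 → (0 ≤ T₁ x ∧ T₁ x < 1) ∧ 0 ≤ T₂ x ∧ T₂ x < 1) {d₁ d₂ d₃ : ℝ}
    (h1 : CH w z F - CH w z (fun x => (P x, Q x, F x)) ≤ d₁) (h2 : CH w P F - CH w P (fun x => (Q x, F x)) ≤ d₂)
    (h3 : 2 * n - d₃ ≤ CH w (fun x => (cl n (T₁ x), cl n (T₂ x))) F) :
    m - (d₁ + d₂ + d₃ + 2) ≤ CH w (fun x => cl m (T₂ x)) (fun x => (F x, Q x, cl n (T₁ x - T₂ x), z x)) := by
  have hmass : mass w = 1 := hm
  have e1 := two_of_diff w hw hm F T₁ T₂ n hT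
  -- information
  have e2 := ch_symm w (fun x => cl n (T₂ x)) (fun x => (Q x, z x)) (fun x => (cl n (T₁ x - T₂ x), F x))
  have e3 : CH w (fun x => (Q x, z x)) (fun x => (cl n (T₁ x - T₂ x), F x)) ≤ CH w (fun x => (Q x, z x)) F :=
    ch_cond w hw _ _ _ (fun x y _ _ h => (Prod.ext_iff.1 h).2)
  have e4 : CH w (fun x => (Q x, z x)) (fun x => (P x, F x)) ≤
      CH w (fun x => (Q x, z x)) (fun x => (cl n (T₂ x), cl n (T₁ x - T₂ x), F x)) :=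
    ch_cond w hw _ _ _ (fun x y hx hy h => by
      simp only [Prod.mk.injEq] at h
      obtain ⟨h4, h5⟩ := hP x y hx hy h.1
      rw [h4, h5, h.2])
  have e5 := ch_chain w Q z F
  have e6 := ch_chain w Q z (fun x => (P x, F x))
  have e7 := ch_symm w P Q F
  have e8 : CH w z (fun x => (Q x, F x)) ≤ CH w z F := ch_cond w hw _ _ _ (fun x y _ _ h => (Prod.ext_iff.1 h).2)
  have e9 : CH w z (fun x => (P x, Q x, F x)) = CH w z (fun x => (Q x, P x, F x)) :=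
    ch_congr_right w _ _ _ (fun x y _ _ => by
      simp only [Prod.mk.injEq]
      constructor
      · rintro ⟨a, b, c⟩
        exact ⟨b, a, c⟩
      · rintro ⟨a, b, c⟩
        exact ⟨b, a, c⟩)
  have e10 : CH w (fun x => cl n (T₂ x)) (fun x => ((Q x, z x), cl n (T₁ x - T₂ x), F x)) =
      CH w (fun x => cl n (T₂ x)) (fun x => (F x, Q x, cl n (T₁ x - T₂ x), z x)) :=
    ch_congr_right w _ _ _ (fun x y _ _ => by
      simp only [Prod.mk.injEq]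
      constructor
      · rintro ⟨⟨a, b⟩, c, d⟩
        exact ⟨d, a, c, b⟩
      · rintro ⟨a, b, c, d⟩
        exact ⟨⟨b, d⟩, c, a⟩)
  have e11 := ch_tri w hw (fun x => cl n (T₂ x)) (fun x => cl m (T₂ x)) (fun x => (F x, Q x, cl n (T₁ x - T₂ x), z x))
  have e12 : CH w (fun x => cl n (T₂ x)) (fun x => (cl m (T₂ x), F x, Q x, cl n (T₁ x - T₂ x), z x)) ≤ n - m := by
    have h4 := ch_window_le w hw T₂ (fun x => (cl m (T₂ x), F x, Q x, cl n (T₁ x - T₂ x), z x)) m (n - m)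
      (fun x y _ _ h => (Prod.ext_iff.1 h).1)
    rw [Nat.add_sub_cancel' hmn, hmass, mul_one, Nat.cast_sub hmn] at h4
    exact h4
  linarith

/-- the first variable has full entropy -/
theorem ent_first (w : X → ℝ) (hw : ∀ x, 0 ≤ w x) (hm : ∑ x, w x = 1) (F : X → β₀) (T₁ T₂ : X → ℝ) {n : ℕ}
    (hT : ∀ x, w x ≠ 0 → (0 ≤ T₁ x ∧ T₁ x < 1) ∧ 0 ≤ T₂ x ∧ T₂ x < 1) {d₃ : ℝ}
    (h3 : 2 * n - d₃ ≤ CH w (fun x => (cl n (T₁ x), cl n (T₂ x))) F) : n - d₃ ≤ Hh w (fun x => cl n (T₁ x)) := by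
  have hmass : mass w = 1 := hm
  have e1 := ch_chain w (fun x => cl n (T₁ x)) (fun x => cl n (T₂ x)) F
  have e2 : CH w (fun x => cl n (T₂ x)) (fun x => (cl n (T₁ x), F x)) ≤ n := by
    have h4 := ch_window_le w hw T₂ (fun x => (cl n (T₁ x), F x)) 0 n (fun x y hx hy _ => by
      obtain ⟨-, t1, t2⟩ := hT x hx
      obtain ⟨-, t3, t4⟩ := hT y hy
      unfold cl
      rw [pow_zero, one_mul, one_mul, Int.floor_eq_zero_iff.mpr ⟨t1, t2⟩, Int.floor_eq_zero_iff.mpr ⟨t3, t4⟩])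
    rw [Nat.zero_add, hmass, mul_one] at h4
    exact h4
  have e3 : CH w (fun x => cl n (T₁ x)) F ≤ Hh w (fun x => cl n (T₁ x)) :=
    ch_cond w hw _ _ _ (fun _ _ _ _ _ => rfl)
  linarith

/-- **LEMMA B of ns_notes_58** from the three numbers and (ADD) -/
theorem lemB_array [Fintype R] [Nonempty R] (E : ℕ → (Pt → Lb β R) → Pt → R) (F : Pt → β) (T : Pt → ℝ) (P : ℕ)
    (o : ℕ → ℕ) {w : X → ℝ} (hw : ∀ x, 0 ≤ w x) (hm : ∑ x, w x = 1) (q₁ q₂ : X → Pt) (F₀ : X → β₀) (Q : X → κQ)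
    (z : X → ζ) (hF : ∀ x y, w x ≠ 0 → w y ≠ 0 → F₀ x = F₀ y → F (q₁ x) = F (q₁ y) ∧ F (q₂ x) = F (q₂ y))
    (hT : ∀ x, w x ≠ 0 → (0 ≤ T (q₁ x) ∧ T (q₁ x) < 1) ∧ 0 ≤ T (q₂ x) ∧ T (q₂ x) < 1)
    (A : Pt → V) (a b : ℕ → ℕ → Lb β R → V) (p : ℕ → ℕ → Lb β R → Seminorm ℝ V) (r : ℕ → ℕ → ℝ)
    (q : Seminorm ℝ V) {t ε : ℝ} {C₀ S L n : ℕ} (hC : 1 ≤ C₀) (hSP : S + C₀ + 2 ≤ P) (hn : L * P + C₀ ≤ n + 1)
    (hfl : ∀ i < L, ∀ s < S, ∀ c v, q v ≤ t → p i s c v ≤ r i s)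
    (ha : ∀ i < L, ∀ s < S, ∀ c, 1 / 2 ^ n * p i s c (a i s c) ≤ r i s) {d₁ d₂ d₃ : ℝ}
    (h1 : CH w z F₀ - CH w z (fun x => ((q₁ x, q₂ x), Q x, F₀ x)) ≤ d₁)
    (h2 : CH w (fun x => (q₁ x, q₂ x)) F₀ - CH w (fun x => (q₁ x, q₂ x)) (fun x => (Q x, F₀ x)) ≤ d₂)
    (h3 : 2 * n - d₃ ≤ CH w (fun x => (cl n (T (q₁ x)), cl n (T (q₂ x)))) F₀)
    (hAD : ∀ (δ : Type) (c : Pt × Pt → δ),
      Pw (amw w w (fun x => (F₀ x, Q x, (cl n (T (q₁ x) - T (q₂ x)), c (q₁ x, q₂ x)), z x))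
        (fun x => (F₀ x, Q x, (cl n (T (q₁ x) - T (q₂ x)), c (q₁ x, q₂ x)), z x)))
        (fun x => t < q ((A (q₁ x.1) - A (q₂ x.1)) - (A (q₁ x.2) - A (q₂ x.2)))) ≤ ε) :
    ∑ i ∈ range L, ∑ s ∈ range S, Pw w (fun x => ¬ InSum (p i s (nd E F T P o i s (q₁ x)))
      (p i s (nd E F T P o i s (q₂ x))) (2 ^ (i * P + s + C₀ + 3) * r i s) (2 ^ (i * P + s + C₀ + 2) * r i s)
      (a i s (nd E F T P o i s (q₁ x)) - a i s (nd E F T P o i s (q₂ x)))) ≤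
    (8 / 2 ^ C₀ * (L * P) + 16 * 2 ^ C₀ * (C₀ * (d₃ + C₀))) +
    256 * (2 * (L * (2 * Real.logb 2 (Fintype.card R)) + (d₁ + d₂ + d₃ + 2))) +
    256 * (∑ i ∈ range L, ∑ s ∈ range S, (Pw w (fun x => r i s < p i s (nd E F T P o i s (q₁ x))
        (A (q₁ x) - T (q₁ x) • a i s (nd E F T P o i s (q₁ x)) - b i s (nd E F T P o i s (q₁ x)))) +
      Pw w (fun x => r i s < p i s (nd E F T P o i s (q₂ x))
        (A (q₂ x) - T (q₂ x) • a i s (nd E F T P o i s (q₂ x)) - b i s (nd E F T P o i s (q₂ x)))))) +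
    256 * (L * S * ε) := by
  set lab : X → β₀ × κQ × ℤ × ζ := fun x => (F₀ x, Q x, cl n (T (q₁ x) - T (q₂ x)), z x) with hlab
  have hT1 := fun x hx => (hT x hx).1
  have hT2 := fun x hx => (hT x hx).2
  have hLP : L * P ≤ n := by omega
  have hd : ∀ x y, w x ≠ 0 → w y ≠ 0 → lab x = lab y →
      |(T (q₁ x) - T (q₂ x)) - (T (q₁ y) - T (q₂ y))| ≤ 1 / 2 ^ n := by
    intro x y _ _ h
    have h4 : cl n (T (q₁ x) - T (q₂ x)) = cl n (T (q₁ y) - T (q₂ y)) := congrArg (fun u => u.2.2.1) h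
    rw [cl_iff] at h4
    obtain ⟨h5, h6⟩ := (cl_iff (l := n) (x := T (q₁ y) - T (q₂ y)) (c := cl n (T (q₁ y) - T (q₂ y)))).mp rfl
    rw [le_div_iff₀ (by positivity), ← abs_of_pos (show (0 : ℝ) < 2 ^ n by positivity), ← abs_mul, abs_le]
    constructor <;> linarith [h4.1, h4.2]
  have hmain := lemB_tree E F T P o hw hm q₁ q₂ lab (fun x y hx hy h => hF x y hx hy (congrArg Prod.fst h)) hT1 hT2 A a b
    p r hd hC hSP (by positivity) (by
      rw [one_div, inv_mul_le_iff₀ (by positivity), mul_one]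
      exact pow_le_pow_right₀ (by norm_num) hLP) (fun i hi s hs x _ => ha i hi s hs _) n d₃
    (ent_first w hw hm F₀ (fun x => T (q₁ x)) (fun x => T (q₂ x)) hT h3) hn
  have hent := win_lab w hw hm F₀ (fun x => (q₁ x, q₂ x)) Q z (fun x => T (q₁ x)) (fun x => T (q₂ x)) hLP
    (by
      intro x y _ _ h
      simp only [Prod.mk.injEq] at h
      rw [h.1, h.2]
      exact ⟨rfl, rfl⟩) hT h1 h2 h3
  push_cast at hent
  have hbad : ∀ i ∈ range L, ∀ s ∈ range S, Pw (amw w w (lbG E F T P o C₀ i s q₁ q₂ lab)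
      (lbG E F T P o C₀ i s q₁ q₂ lab)) (fun x => r i s < p i s (nd E F T P o i s (q₁ x.1))
        ((A (q₁ x.1) - A (q₂ x.1)) - (A (q₁ x.2) - A (q₂ x.2)))) ≤ ε := by
    intro i hi s hs
    rw [mem_range] at hi hs
    have h4 : amw w w (lbG E F T P o C₀ i s q₁ q₂ lab) (lbG E F T P o C₀ i s q₁ q₂ lab) =
        amw w w (fun x => (F₀ x, Q x, (cl n (T (q₁ x) - T (q₂ x)), (fun u : Pt × Pt =>
          (nd E F T P o i (s + C₀) u.2, recs E F T P o i u.1)) (q₁ x, q₂ x)), z x))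
        (fun x => (F₀ x, Q x, (cl n (T (q₁ x) - T (q₂ x)), (fun u : Pt × Pt =>
          (nd E F T P o i (s + C₀) u.2, recs E F T P o i u.1)) (q₁ x, q₂ x)), z x)) := by
      apply amw_congr_lab
      intro x y _ _
      unfold lbG
      rw [hlab]
      simp only [Prod.mk.injEq]
      constructor
      · rintro ⟨a1, a2, a3, a4, a5, a6⟩
        exact ⟨a3, a4, ⟨a5, a1, a2⟩, a6⟩
      · rintro ⟨a3, a4, ⟨a5, a1, a2⟩, a6⟩
        exact ⟨a1, a2, a3, a4, a5, a6⟩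
    rw [h4]
    refine le_trans (Pw_mono _ (amw_nonneg w w _ _ hw hw) ?_) (hAD (Lb β R × (ℕ → Option R)) (fun u : Pt × Pt =>
          (nd E F T P o i (s + C₀) u.2, recs E F T P o i u.1)))
    intro x _ hx
    by_contra hcon
    push Not at hcon
    exact absurd (hfl i hi s hs (nd E F T P o i s (q₁ x.1)) _ hcon) (not_le.mpr hx)
  have hbad2 := Finset.sum_le_sum fun i hi => Finset.sum_le_sum fun s hs => hbad i hi s hs
  have hbad3 : ∑ i ∈ range L, ∑ s ∈ range S, ε = L * S * ε := by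
    simp only [Finset.sum_const, card_range, nsmul_eq_mul]
    ring
  rw [hbad3] at hbad2
  linarith

end Pool.Agent.Helper99.FW
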