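import Pool.Agent.Helper99.FW.Tnd

/-!
# The recorded tree with the bodies of the node theorem (row T2T of FW)

`Cst` : the constants; `bodG` : bodies by choice; `EG` : the recorder; `bG` : body of a node of the tree;
`good_tree` : the body is good at every node with uniform windows; `wf_eq`, `see_tree`, `spec_tree` : the windows are the
windows `wf` of `Helper58.TR`, their law is `lw`; `out_tree` : most points are in the tubes of their nodes.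
-/

set_option autoImplicit false

namespace Pool.Agent.Helper99.FW

open Finset Pool.Agent.Helper69.RK Pool.Agent.Helper61.GL Pool.Agent.Helper46.WF Pool.Agent.Helper58.VW
open Pool.Agent.Helper99.VW Pool.Agent.Helper58.TR Pool.Agent.Helper9.ND Pool.Agent.Helper92.FW
open Pool.Agent.Helper9.VB (tr)
open Matrix (mulVec)
open scoped Matrix

variable {N ρ D r : ℕ} {g κ : ℝ} {Pt β : Type} [Fintype Pt]

/-- the constants of the node theorem; `2 ^ ρ` = number of windows, `D ≤ ρ` -/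
structure Cst (N D ρ r : ℕ) (g κ : ℝ) : Prop where
  hN : 0 < N
  hD : 6 ≤ D
  hDρ : D ≤ ρ
  hg : 0 < g
  hg1 : g ≤ 1
  hκ : 0 < κ
  hκ1 : 2 ^ 74 * ((N : ℝ) + 1) ^ 3 * ((2 : ℝ) ^ D) ^ 4 * κ ≤ 1
  hr : 300000 * N ^ 2 ≤ r
  hQ : r ^ 3 ≤ 2 ^ (ρ - D)

/-- a law and its image -/
theorem push_ne' {Ω : Type} [Fintype Ω] (p : Ω → Pt) (μ' : Ω → ℝ) (hμ' : ∀ ω, 0 ≤ μ' ω) {ω : Ω} (h : μ' ω ≠ 0) :
    push p μ' (p ω) ≠ 0 := by
  classical
  have h1 := push_sum p μ' (fun x => if x = p ω then 1 else 0)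
  simp only [mul_ite, mul_one, mul_zero, Finset.sum_ite_eq', mem_univ, if_true] at h1
  rw [h1]
  have h2 : (if p ω = p ω then μ' ω else 0) ≤ ∑ ω', if p ω' = p ω then μ' ω' else 0 :=
    Finset.single_le_sum (f := fun ω' => if p ω' = p ω then μ' ω' else 0) (fun ω' _ => by
      split_ifs
      · exact hμ' ω'
      · exact le_rfl) (mem_univ ω)
  rw [if_pos rfl] at h2
  have h3 : 0 < μ' ω := lt_of_le_of_ne (hμ' ω) (Ne.symm h)
  exact (lt_of_lt_of_le h3 h2).ne'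

theorem Pw_cg {P Q : Pt → Prop} (w : Pt → ℝ) (h : ∀ x, w x ≠ 0 → (P x ↔ Q x)) : Pw w P = Pw w Q := by
  classical
  unfold Pw
  refine Finset.sum_congr rfl fun x _ => ?_
  by_cases hx : w x = 0
  · simp [hx]
  · simp [h x hx]

theorem bfr_one (hN : 0 < N) : 1 ≤ Bfr N := by
  unfold Bfr
  have h : (1 : ℝ) ≤ N := by exact_mod_cast hN
  nlinarith

theorem kas_nonneg : 0 ≤ Kas N := by
  unfold Kas Bfr
  positivity

variable (N ρ D r g κ) in
open Classical in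
/-- **bodies by choice** -/
noncomputable def bodG (T : Pt → ℝ) (A : Pt → Fin N → ℝ) (m : ℕ) (w : Pt → ℝ) (_c : ℤ) : NB N :=
  if h : ∃ b : NB N, GoodN ρ D r g κ (Kas N) (Bfr N) w T A m b then h.choose else NB.dflt N g

theorem Cst.bod_reg (hc : Cst N D ρ r g κ) (T : Pt → ℝ) (A : Pt → Fin N → ℝ) (m : ℕ) (w : Pt → ℝ) (c : ℤ) :
    (bodG N ρ D r g κ T A m w c).Reg g (Kas N * 2 ^ m) (Bfr N) := by
  unfold bodG
  split_ifs with h
  · exact h.choose_spec.reg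
  · exact NB.dflt_reg hc.hg (mul_nonneg kas_nonneg (by positivity)) (hc.hg1.trans (bfr_one hc.hN))

theorem Cst.bod_good (hc : Cst N D ρ r g κ) {T : Pt → ℝ} {A : Pt → Fin N → ℝ} {m : ℕ} {w : Pt → ℝ} {c₀ : ℤ}
    (hN : IsNd w T m D ρ c₀) (hA : ∀ x, w x ≠ 0 → ‖A x‖ ≤ 1) (c : ℤ) :
    GoodN ρ D r g κ (Kas N) (Bfr N) w T A m (bodG N ρ D r g κ T A m w c) := by
  have h := exists_good hc.hN hN hc.hD hc.hDρ hA hc.hg hc.hg1 hc.hκ hc.hκ1 hc.hr hc.hQ
  unfold bodG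
  rw [dif_pos h]
  exact h.choose_spec

variable (N ρ D r g κ) in
/-- **the recorder** -/
noncomputable def EG (μ : Pt → ℝ) (T : Pt → ℝ) (A : Pt → Fin N → ℝ) :
    ℕ → (Pt → Lb β (Rc N r)) → Pt → Rc N r := Erec μ T A (bodG N ρ D r g κ T A) (rc r)

variable (N ρ D r g κ) in
/-- **the body of a node of the tree** -/
noncomputable def bG (F : Pt → β) (T : Pt → ℝ) (P : ℕ) (μ : Pt → ℝ) (A : Pt → Fin N → ℝ) (o : ℕ → ℕ) (i s : ℕ)
    (n : Lb β (Rc N r)) : NB N := bN F T P μ A (bodG N ρ D r g κ T A) (rc r) o i s n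

variable {F : Pt → β} {T : Pt → ℝ} {P : ℕ} {μ : Pt → ℝ} {A : Pt → Fin N → ℝ} {o : ℕ → ℕ}

theorem Cst.reg_tree (hc : Cst N D ρ r g κ) (i s : ℕ) (n : Lb β (Rc N r)) :
    (bG N ρ D r g κ F T P μ A o i s n).Reg g (Kas N * 2 ^ (i * P + s)) (Bfr N) := hc.bod_reg T A _ _ 0

/-- **good nodes** -/
theorem Cst.good_tree (hc : Cst N D ρ r g κ) (hA : ∀ x, μ x ≠ 0 → ‖A x‖ ≤ 1) {i s : ℕ} {q : Pt} (hq : μ q ≠ 0)
    (hN : IsNd (cw μ (nd (EG N ρ D r g κ μ T A) F T P o i s) q) T (i * P + s) D ρ (cl (i * P + s) (T q))) :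
    GoodN ρ D r g κ (Kas N) (Bfr N) (cw μ (nd (EG N ρ D r g κ μ T A) F T P o i s) q) T A (i * P + s)
      (bG N ρ D r g κ F T P μ A o i s (nd (EG N ρ D r g κ μ T A) F T P o i s q)) := by
  have h : bG N ρ D r g κ F T P μ A o i s (nd (EG N ρ D r g κ μ T A) F T P o i s q) = _ :=
    bN_nd F T P μ A (bodG N ρ D r g κ T A) (rc r) o i s hq
  rw [h]
  exact hc.bod_good hN (fun x hx => hA x (cw_ne_zero μ _ hx).2) _

/-- the windows of `Helper58.TR` -/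
theorem wf_eq (i s : ℕ) {q : Pt} (hq : μ q ≠ 0) : wf (EG N ρ D r g κ μ T A) F T P ρ o i s q =
    wnV ρ (i * P + s) r (bG N ρ D r g κ F T P μ A o i s (nd (EG N ρ D r g κ μ T A) F T P o i s q)) T A q := by
  unfold wf wnV
  rw [EG, er_eq F T P μ A (bodG N ρ D r g κ T A) (rc r) o i s hq]
  rfl

/-- the law of the windows of a node -/
theorem lw_eq (i s : ℕ) (q : Pt) : lw μ (nd (EG N ρ D r g κ μ T A) F T P o i s)
      (wf (EG N ρ D r g κ μ T A) F T P ρ o i s) q =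
    fun v => Pw (cw μ (nd (EG N ρ D r g κ μ T A) F T P o i s) q) (fun x =>
      wnV ρ (i * P + s) r (bG N ρ D r g κ F T P μ A o i s (nd (EG N ρ D r g κ μ T A) F T P o i s q)) T A x = v) := by
  funext v
  unfold lw
  refine Pw_cg _ fun x hx => ?_
  obtain ⟨h1, h2⟩ := cw_ne_zero μ _ hx
  rw [wf_eq i s h2, h1]

/-- **the windows of a good node see every direction** -/
theorem Cst.see_tree (hc : Cst N D ρ r g κ) (hA : ∀ x, μ x ≠ 0 → ‖A x‖ ≤ 1) {i s : ℕ} {q : Pt} (hq : μ q ≠ 0)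
    (hN : IsNd (cw μ (nd (EG N ρ D r g κ μ T A) F T P o i s) q) T (i * P + s) D ρ (cl (i * P + s) (T q))) :
    See (ThV ρ D r) (fun k => (bG N ρ D r g κ F T P μ A o i s
        (nd (EG N ρ D r g κ μ T A) F T P o i s q)).M *ᵥ Pi.single k g)
      (wK (lw μ (nd (EG N ρ D r g κ μ T A) F T P o i s) (wf (EG N ρ D r g κ μ T A) F T P ρ o i s) q) 8)
      (1 / (8 * N)) (κ / (2 ^ 25 * ((N : ℝ) + 1) * ((2 : ℝ) ^ D) ^ 2)) := by
  rw [lw_eq]
  exact (hc.good_tree hA hq hN).see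

/-- the same with the labels of the points of a space `Ω` -/
theorem Cst.see_tree' {Ω : Type} [Fintype Ω] (hc : Cst N D ρ r g κ) (μ' : Ω → ℝ) (hμ' : ∀ ω, 0 ≤ μ' ω) (p : Ω → Pt)
    (hp : push p μ' = μ) (hA : ∀ x, μ x ≠ 0 → ‖A x‖ ≤ 1) {i s : ℕ} {ω : Ω} (hω : μ' ω ≠ 0)
    (hN : IsNd (cw μ (nd (EG N ρ D r g κ μ T A) F T P o i s) (p ω)) T (i * P + s) D ρ (cl (i * P + s) (T (p ω)))) :
    See (ThV ρ D r) (fun k => (bG N ρ D r g κ F T P μ A o i s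
        (nd (EG N ρ D r g κ μ T A) F T P o i s (p ω))).M *ᵥ Pi.single k g)
      (wK (lw μ' (fun ω => nd (EG N ρ D r g κ μ T A) F T P o i s (p ω))
        (fun ω => wf (EG N ρ D r g κ μ T A) F T P ρ o i s (p ω)) ω) 8)
      (1 / (8 * N)) (κ / (2 ^ 25 * ((N : ℝ) + 1) * ((2 : ℝ) ^ D) ^ 2)) := by
  have hq : μ (p ω) ≠ 0 := by
    rw [← hp]
    exact push_ne' p μ' hμ' hω
  rw [lw_push, hp]
  exact hc.see_tree hA hq hN

theorem cw_ne' (hμ : ∀ x, 0 ≤ μ x) {γ : Type} (lam : Pt → γ) {q x : Pt} (hq : μ q ≠ 0) (hx : μ x ≠ 0)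
    (h : lam x = lam q) : cw μ lam q x ≠ 0 := by
  unfold cw
  rw [if_pos h]
  exact div_ne_zero hx (Helper69.RK.e1_pr_pos μ lam hμ q hq).ne'

/-- **the window function approximates the truncated difference of the slopes**, at the good nodes; bounds for the
denominators of the slopes; hypothesis `Gdw` = the block is valid (it holds if `ThV` is not `0`, `gdw_of_ne`) -/
theorem Cst.spec_tree (hc : Cst N D ρ r g κ) (hμ : ∀ x, 0 ≤ μ x) (hA : ∀ x, μ x ≠ 0 → ‖A x‖ ≤ 1) {i s : ℕ} {q : Pt}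
    (hq : μ q ≠ 0)
    (hN : IsNd (cw μ (nd (EG N ρ D r g κ μ T A) F T P o i s) q) T (i * P + s) D ρ (cl (i * P + s) (T q)))
    (y : Fin 8 → Pt) (hy : ∀ k, μ (y k) ≠ 0)
    (hn : ∀ k, nd (EG N ρ D r g κ μ T A) F T P o i s (y k) = nd (EG N ρ D r g κ μ T A) F T P o i s q)
    (hgd : Gdw (2 ^ (ρ - D)) r (cstV (fun k => wf (EG N ρ D r g κ μ T A) F T P ρ o i s (y k)))) :
    ((|1 / 2 ^ (i * P + s + D) / al4 (fun k => T (lft y k))| ≤ 4 ∧
      1 / 13 ≤ |1 / 2 ^ (i * P + s + D) / al4 (fun k => T (lft y k))| ∧ al4 (fun k => T (lft y k)) ≠ 0) ∧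
     (|1 / 2 ^ (i * P + s + D) / al4 (fun k => T (rgt y k))| ≤ 4 ∧
      1 / 13 ≤ |1 / 2 ^ (i * P + s + D) / al4 (fun k => T (rgt y k))| ∧ al4 (fun k => T (rgt y k)) ≠ 0)) ∧
    ‖tr ((bG N ρ D r g κ F T P μ A o i s (nd (EG N ρ D r g κ μ T A) F T P o i s q)).M *ᵥ
        Dl (1 / 2 ^ (i * P + s + D)) T A y) -
      ThV ρ D r (fun k => wf (EG N ρ D r g κ μ T A) F T P ρ o i s (y k))‖ ≤ 1 / (8 * N * (4 * N + 2)) := by
  have hG := hc.good_tree hA hq hN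
  have hw : ∀ k, cw μ (nd (EG N ρ D r g κ μ T A) F T P o i s) q (y k) ≠ 0 := fun k => cw_ne' hμ _ hq (hy k) (hn k)
  have e : (fun k => wf (EG N ρ D r g κ μ T A) F T P ρ o i s (y k)) = fun k => wnV ρ (i * P + s) r
      (bG N ρ D r g κ F T P μ A o i s (nd (EG N ρ D r g κ μ T A) F T P o i s q)) T A (y k) := by
    funext k
    rw [wf_eq i s (hy k), hn k]
  rw [e] at hgd ⊢
  have hQ8 : 8 ≤ 2 ^ (ρ - D) := by
    have h1 := hc.hr
    have h2 : 1 ≤ N ^ 2 := Nat.one_le_pow _ _ hc.hN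
    have h3 : 8 ≤ r := by nlinarith
    exact (h3.trans (Nat.le_self_pow (by norm_num) r)).trans hc.hQ
  have h0 : (0 : ℝ) < 1 / 2 ^ (i * P + s + D) := by positivity
  refine ⟨⟨?_, ?_⟩, hG.spec y hw hgd⟩
  · exact sm_coef (T := T) (c := fun x => ((fwn ρ (i * P + s) (T x) : ℕ) : ℤ)) h0 hQ8 (lft y)
      (fun k => hN.cell _ (hw _)) hgd.1
  · exact sm_coef (T := T) (c := fun x => ((fwn ρ (i * P + s) (T x) : ℕ) : ℤ)) h0 hQ8 (rgt y)
      (fun k => hN.cell _ (hw _)) hgd.2.1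

/-- **most points are in the tubes of their nodes** -/
theorem Cst.out_tree (hc : Cst N D ρ r g κ) (hμ : ∀ x, 0 ≤ μ x) (hm : ∑ x, μ x = 1)
    (hT : ∀ x, μ x ≠ 0 → 0 ≤ T x ∧ T x < 1) (hA : ∀ x, μ x ≠ 0 → ‖A x‖ ≤ 1) {S : ℕ} (hSP : S + ρ ≤ P) (L : ℕ) :
    ∑ i ∈ range L, ∑ s ∈ range S, Pw μ (fun x => 270000 <
      ‖(bG N ρ D r g κ F T P μ A o i s (nd (EG N ρ D r g κ μ T A) F T P o i s x)).dev (T x) (A x)‖) ≤
    64 * 2 ^ ρ * (ρ * (L * P + L * Real.logb 2 (Fintype.card (Rc N r)) - CH μ (fun x => cl (L * P) (T x)) F)) +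
      L * S * (53248 * (((N : ℝ) + 1) * κ)) := by
  have hκ := hc.hκ
  exact sum_out F T P μ A (bodG N ρ D r g κ T A) (rc r) o hμ hm hT hc.hDρ hSP L (by positivity)
    (fun m w c hw hN => (hc.bod_good hN (fun x hx => hA x (hw x hx)) c).tub)

/-- most nodes are good -/
theorem not_nd_tree (hμ : ∀ x, 0 ≤ μ x) (hm : ∑ x, μ x = 1)
    (hT : ∀ x, μ x ≠ 0 → 0 ≤ T x ∧ T x < 1) {S : ℕ} (hD : D ≤ ρ) (hSP : S + ρ ≤ P) (L : ℕ) :
    ∑ i ∈ range L, ∑ s ∈ range S, Pw μ (fun x => ¬ IsNd (cw μ (nd (EG N ρ D r g κ μ T A) F T P o i s) x) T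
      (i * P + s) D ρ (cl (i * P + s) (T x))) ≤
    64 * 2 ^ ρ * (ρ * (L * P + L * Real.logb 2 (Fintype.card (Rc N r)) - CH μ (fun x => cl (L * P) (T x)) F)) :=
  sum_not_nd (EG N ρ D r g κ μ T A) F T P μ hμ hm hT hD hSP o L

/-- **valid blocks have positive probability** at the good nodes -/
theorem Cst.val_tree (hc : Cst N D ρ r g κ) (hA : ∀ x, μ x ≠ 0 → ‖A x‖ ≤ 1) {i s : ℕ} {q : Pt} (hq : μ q ≠ 0)
    (hN : IsNd (cw μ (nd (EG N ρ D r g κ μ T A) F T P o i s) q) T (i * P + s) D ρ (cl (i * P + s) (T q))) :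
    (1 / (2048 * (2 : ℝ) ^ D)) ^ 2 ≤ Pw (wK (lw μ (nd (EG N ρ D r g κ μ T A) F T P o i s)
      (wf (EG N ρ D r g κ μ T A) F T P ρ o i s) q) 8) (fun v => Gdw (2 ^ (ρ - D)) r (cstV v)) := by
  rw [lw_eq]
  have h1 : 600 ≤ r := by
    have h1 := hc.hr
    have h2 : 1 ≤ N ^ 2 := Nat.one_le_pow _ _ hc.hN
    nlinarith
  exact gdw_low hN hc.hD h1 _ ((hc.good_tree hA hq hN).tub.trans (kap_small hc.hκ hc.hκ1))

/-- **the offsets of the tubes are bounded**, at every node -/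
theorem Cst.off_tree (hc : Cst N D ρ r g κ) (hμ : ∀ x, 0 ≤ μ x) (hT : ∀ x, μ x ≠ 0 → |T x| ≤ 1)
    (hA : ∀ x, μ x ≠ 0 → ‖A x‖ ≤ 1) (i s : ℕ) {q : Pt} (hq : μ q ≠ 0) :
    ‖(bG N ρ D r g κ F T P μ A o i s (nd (EG N ρ D r g κ μ T A) F T P o i s q)).o‖ ≤
      2 * (Kas N * 2 ^ (i * P + s)) := by
  classical
  set b := bG N ρ D r g κ F T P μ A o i s (nd (EG N ρ D r g κ μ T A) F T P o i s q) with hb
  have hreg : b.Reg g (Kas N * 2 ^ (i * P + s)) (Bfr N) := hc.reg_tree i s _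
  have hK0 : 0 ≤ Kas N * 2 ^ (i * P + s) := mul_nonneg kas_nonneg (by positivity)
  set w := cw μ (nd (EG N ρ D r g κ μ T A) F T P o i s) q with hw
  have hbd : b = bodG N ρ D r g κ T A (i * P + s) w (cl (i * P + s) (T q)) :=
    bN_nd F T P μ A (bodG N ρ D r g κ T A) (rc r) o i s hq
  by_cases hex : ∃ b : NB N, GoodN ρ D r g κ (Kas N) (Bfr N) w T A (i * P + s) b
  · have hG : GoodN ρ D r g κ (Kas N) (Bfr N) w T A (i * P + s) b := by
      rw [hbd]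
      unfold bodG
      rw [dif_pos hex]
      exact hex.choose_spec
    have hw0 : ∀ x, 0 ≤ w x := fun x => cw_nonneg μ _ hμ q x
    have hw1 : ∑ x, w x = 1 := cw_sum μ _ hμ q hq
    have h1 := hG.tub.trans (kap_small hc.hκ hc.hκ1)
    have h2 := Pw_compl w hw1 (fun x => 270000 < ‖b.dev (T x) (A x)‖)
    have h3 : 0 < Pw w (fun x => ¬ 270000 < ‖b.dev (T x) (A x)‖) := by
      rw [h2]
      have : (1 : ℝ) / 159744 < 1 := by norm_num
      linarith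
    obtain ⟨x, hx, hx2⟩ := Pw_exists _ h3
    have hx3 := not_lt.mp hx2
    have hμx : μ x ≠ 0 := (cw_ne_zero μ _ hx).2
    have hdev : b.M⁻¹ *ᵥ (b.dev (T x) (A x)) = A x - T x • b.a - b.o := by
      unfold NB.dev
      rw [Matrix.mulVec_mulVec, Matrix.nonsing_inv_mul _ (isUnit_iff_ne_zero.mpr hreg.det), Matrix.one_mulVec]
    have h4 : ‖A x - T x • b.a - b.o‖ ≤ N * (270000 * Bfr N) := by
      rw [← hdev]
      refine (inv_le_fr b hreg.bnd _).trans ?_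
      refine mul_le_mul_of_nonneg_left ?_ (Nat.cast_nonneg N)
      exact mul_le_mul_of_nonneg_right hx3 (le_trans zero_le_one (bfr_one hc.hN))
    have h5 : b.o = A x - T x • b.a - (A x - T x • b.a - b.o) := by abel
    have h6 : ‖T x • b.a‖ ≤ Kas N * 2 ^ (i * P + s) := by
      rw [norm_smul, Real.norm_eq_abs]
      calc |T x| * ‖b.a‖ ≤ 1 * (Kas N * 2 ^ (i * P + s)) := mul_le_mul (hT x hμx) hreg.slo (norm_nonneg _) zero_le_one
        _ = _ := one_mul _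
    have h7 : 1 + N * (270000 * Bfr N) ≤ Kas N * 2 ^ (i * P + s) := by
      have a1 : (1 : ℝ) ≤ 2 ^ (i * P + s) := one_le_pow₀ (by norm_num)
      have a2 : 0 ≤ Bfr N := le_trans zero_le_one (bfr_one hc.hN)
      have a3 : 1 + N * (270000 * Bfr N) ≤ Kas N := by
        unfold Kas
        nlinarith [mul_nonneg (Nat.cast_nonneg (α := ℝ) N) (mul_nonneg (show (0 : ℝ) ≤ 270000 by norm_num) a2)]
      exact a3.trans (le_mul_of_one_le_right kas_nonneg a1)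
    rw [h5]
    have q1 := norm_sub_le (A x - T x • b.a) (A x - T x • b.a - b.o)
    have q2 := norm_sub_le (A x) (T x • b.a)
    have q3 := hA x hμx
    linarith
  · have h0 : b.o = 0 := by
      rw [hbd]
      unfold bodG
      rw [dif_neg hex]
      rfl
    rw [h0, norm_zero]
    linarith

end Pool.Agent.Helper99.FW
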