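import Pool.Agent.Helper99.FW.Rec
import Pool.Agent.Helper9.ND.Node
import Pool.Agent.Helper92.FW.Spn

/-!
# The tree instance of the node theorem (row T2T of FW)

`GoodN` : what `Helper9.ND.exists_node` gives for one law, with windows in the finite type `Fin (2 ^ ρ) × Rc N r`, the
condition `See` of Helper92 for the law of a block, bounded frame and bounded slope; `exists_good`; `bodG` : bodies by
choice; `good_node` : nearly all nodes of the recorded tree with these bodies are good.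
-/

set_option autoImplicit false

namespace Pool.Agent.Helper99.FW

open Finset Pool.Agent.Helper69.RK Pool.Agent.Helper61.GL Pool.Agent.Helper46.WF Pool.Agent.Helper58.VW
open Pool.Agent.Helper99.VW Pool.Agent.Helper58.TR Pool.Agent.Helper9.ND Pool.Agent.Helper92.FW
open Pool.Agent.Helper9.VB (tr Sph span_of_seen)
open Matrix (mulVec)
open scoped Matrix

variable {N : ℕ} {Pt β R γ V : Type} [Fintype Pt]

/-! ### product laws of windows -/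

theorem wK_law [Fintype V] (w : Pt → ℝ) (W : Pt → V) (K : ℕ) (P : (Fin K → V) → Prop) :
    Pw (wK (fun v => Pw w (fun x => W x = v)) K) P = Pw (wK w K) (fun y => P (fun k => W (y k))) := by
  classical
  have h1 : ∀ v : Fin K → V, wK (fun v => Pw w (fun x => W x = v)) K v =
      ∑ y : Fin K → Pt, if (fun k => W (y k)) = v then wK w K y else 0 := by
    intro v
    unfold wK Pw
    rw [Finset.prod_univ_sum, Fintype.piFinset_univ]
    refine Finset.sum_congr rfl fun y _ => ?_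
    by_cases h : (fun k => W (y k)) = v
    · rw [if_pos h]
      refine Finset.prod_congr rfl fun k _ => ?_
      rw [if_pos (congrFun h k)]
    · rw [if_neg h]
      obtain ⟨k, hk⟩ := Function.ne_iff.mp h
      exact Finset.prod_eq_zero (mem_univ k) (if_neg hk)
  unfold Pw
  simp only [Pw] at h1
  have h2 : ∀ v : Fin K → V, (if P v then wK (fun v => ∑ ω, if W ω = v then w ω else 0) K v else 0) =
      ∑ y : Fin K → Pt, if (fun k => W (y k)) = v then (if P v then wK w K y else 0) else 0 := by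
    intro v
    rw [h1 v]
    by_cases hP : P v
    · simp only [hP, if_true]
    · simp [hP]
  rw [Finset.sum_congr rfl fun v _ => h2 v, Finset.sum_comm]
  refine Finset.sum_congr rfl fun y _ => ?_
  rw [Finset.sum_eq_single (fun k => W (y k))]
  · rw [if_pos rfl]
  · intro v _ hv
    rw [if_neg (fun h => hv h.symm)]
  · intro h
    exact absurd (mem_univ _) h

/-! ### bounded frames -/

theorem fr_of_seen {ι : Type} [Finite ι] (b : NB N) (x : ι → Fin N → ℝ) {c Bd : ℝ} (hc : 0 < c)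
    (hx : ∀ k, ‖b.M⁻¹ *ᵥ x k‖ ≤ Bd) (h : ∀ ν : Fin N → ℝ, ∑ i, |ν i| = 1 → ∃ k, c ≤ |ν ⬝ᵥ x k|) (i : Fin N) :
    ‖b.fr i‖ ≤ N * (1 / c * Bd) := by
  classical
  obtain ⟨s, -, -, h3⟩ := span_of_seen x hc h
  obtain ⟨t, ht, htv⟩ := h3 (Pi.single i 1)
  have hfr : b.fr i = b.M⁻¹ *ᵥ (Pi.single i 1) := by
    funext j
    rw [Matrix.mulVec_single_one]
    rfl
  rw [hfr, htv, Matrix.mulVec_sum]
  refine (norm_sum_le _ _).trans ?_
  have h4 : ∀ k ∈ (univ : Finset (Fin N)), ‖b.M⁻¹ *ᵥ (t k • x (s k))‖ ≤ 1 / c * Bd := by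
    intro k _
    rw [Matrix.mulVec_smul, norm_smul, Real.norm_eq_abs]
    have h5 := ht k
    rw [Pi.norm_single, norm_one] at h5
    exact mul_le_mul h5 (hx _) (norm_nonneg _) (by positivity)
  refine (Finset.sum_le_sum h4).trans (le_of_eq ?_)
  rw [Finset.sum_const, Finset.card_fin, nsmul_eq_mul]

/-- the inverse matrix is bounded by the frame -/
theorem inv_le_fr (b : NB N) {B : ℝ} (hB : ∀ i, ‖b.fr i‖ ≤ B) (v : Fin N → ℝ) : ‖b.M⁻¹ *ᵥ v‖ ≤ N * (‖v‖ * B) := by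
  have h1 : b.M⁻¹ *ᵥ v = ∑ i, v i • b.fr i := by
    funext j
    rw [Finset.sum_apply]
    show ∑ i, b.M⁻¹ j i * v i = _
    refine Finset.sum_congr rfl fun i _ => ?_
    show b.M⁻¹ j i * v i = v i * b.M⁻¹ j i
    ring
  rw [h1]
  refine (norm_sum_le _ _).trans ?_
  have h2 : ∀ i ∈ (univ : Finset (Fin N)), ‖v i • b.fr i‖ ≤ ‖v‖ * B := by
    intro i _
    rw [norm_smul]
    exact mul_le_mul (norm_le_pi_norm v i) (hB i) (norm_nonneg _) (norm_nonneg _)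
  refine (Finset.sum_le_sum h2).trans (le_of_eq ?_)
  rw [Finset.sum_const, Finset.card_fin, nsmul_eq_mul]

/-! ### windows -/

/-- the window of a point -/
noncomputable def wnV (ρ m r : ℕ) (b : NB N) (T : Pt → ℝ) (A : Pt → Fin N → ℝ) (x : Pt) : Fin (2 ^ ρ) × Rc N r :=
  (fwn ρ m (T x), rc r (b.dev (T x) (A x)))

/-- finite windows as windows of Helper9 -/
def cstV {ρ r K : ℕ} (v : Fin K → Fin (2 ^ ρ) × Rc N r) : Fin K → ℤ × Rc N r := fun i => ((((v i).1 : ℕ) : ℤ), (v i).2)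

/-- **the window function** of a block of eight points -/
noncomputable def ThV (ρ D r : ℕ) (v : Fin 8 → Fin (2 ^ ρ) × Rc N r) : Fin N → ℝ := Tht (2 ^ (ρ - D)) r (cstV v)

theorem thV_norm (ρ D r : ℕ) (v : Fin 8 → Fin (2 ^ ρ) × Rc N r) : ‖ThV ρ D r v‖ ≤ 1 := tht_norm _ _ _

/-- off the good windows the window function is zero -/
theorem gdw_of_ne {ρ D r : ℕ} {v : Fin 8 → Fin (2 ^ ρ) × Rc N r} (h : ThV ρ D r v ≠ 0) :
    Gdw (2 ^ (ρ - D)) r (cstV v) := by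
  classical
  by_contra hcon
  apply h
  unfold ThV Tht
  rw [if_neg hcon]

/-- **good bodies** for a law -/
structure GoodN (ρ D r : ℕ) (g κ Ka B : ℝ) (w : Pt → ℝ) (T : Pt → ℝ) (A : Pt → Fin N → ℝ) (m : ℕ) (b : NB N) : Prop where
  reg : b.Reg g (Ka * 2 ^ m) B
  tub : Pw w (fun x => 270000 < ‖b.dev (T x) (A x)‖) ≤ 53248 * (((N : ℝ) + 1) * κ)
  spec : ∀ y : Fin 8 → Pt, (∀ i, w (y i) ≠ 0) → Gdw (2 ^ (ρ - D)) r (cstV fun i => wnV ρ m r b T A (y i)) →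
    ‖tr (b.M *ᵥ Dl (1 / 2 ^ (m + D)) T A y) - ThV ρ D r (fun i => wnV ρ m r b T A (y i))‖ ≤ 1 / (8 * N * (4 * N + 2))
  see : See (ThV ρ D r) (fun i => b.M *ᵥ Pi.single i g) (wK (fun v => Pw w (fun x => wnV ρ m r b T A x = v)) 8)
    (1 / (8 * N)) (κ / (2 ^ 25 * ((N : ℝ) + 1) * ((2 : ℝ) ^ D) ^ 2))

/-- the difference of slopes of two small quadruples is bounded -/
theorem dl_le {w : Pt → ℝ} {T : Pt → ℝ} {m D ρ r : ℕ} {c₀ : ℤ} (hN : IsNd w T m D ρ c₀) (hQ : 8 ≤ 2 ^ (ρ - D))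
    {A : Pt → Fin N → ℝ} (hA : ∀ x, w x ≠ 0 → ‖A x‖ ≤ 1) (b : NB N) (y : Fin 8 → Pt) (hy : ∀ i, w (y i) ≠ 0)
    (hG : Gdw (2 ^ (ρ - D)) r (cstV fun i => wnV ρ m r b T A (y i))) : ‖Dl (1 / 2 ^ (m + D)) T A y‖ ≤ 32 := by
  have h0 : (0 : ℝ) < 1 / 2 ^ (m + D) := by positivity
  have key : ∀ x : Fin 4 → Pt, (∀ i, w (x i) ≠ 0) → Sm (fun x => ((fwn ρ m (T x) : ℕ) : ℤ)) (2 ^ (ρ - D)) x →
      ‖Sl (1 / 2 ^ (m + D)) T A x‖ ≤ 16 := by
    intro x hx hS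
    obtain ⟨b1, -, -⟩ := sm_coef (T := T) (c := fun x => ((fwn ρ m (T x) : ℕ) : ℤ)) (x0 := (c₀ : ℝ) / 2 ^ m) h0 hQ x
      (fun i => hN.cell _ (hx i)) hS
    have h1 := al4_norm (fun i => A (x i)) (fun j => hA _ (hx j))
    unfold Sl Yq
    rw [norm_smul, Real.norm_eq_abs]
    calc |1 / 2 ^ (m + D) / al4 (fun i => T (x i))| * ‖al4 (fun i => A (x i))‖ ≤ 4 * (4 * 1) :=
          mul_le_mul b1 h1 (norm_nonneg _) (by norm_num)
      _ = 16 := by norm_num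
  unfold Dl
  refine (norm_sub_le _ _).trans ?_
  have h1 := key (lft y) (fun i => hy _) hG.1
  have h2 := key (rgt y) (fun i => hy _) hG.2.1
  linarith

/-- the slope of a tube is bounded -/
theorem slope_le {w : Pt → ℝ} {T : Pt → ℝ} {m D ρ : ℕ} {c₀ : ℤ} (hN : IsNd w T m D ρ c₀) (hD2 : 2 ≤ D) (hDρ : D ≤ ρ)
    {A : Pt → Fin N → ℝ} (hA : ∀ x, w x ≠ 0 → ‖A x‖ ≤ 1) (b : NB N) (hdet : b.M.det ≠ 0) {B C : ℝ}
    (hB : ∀ i, ‖b.fr i‖ ≤ B) (hB0 : 0 ≤ B) (ht : Pw w (fun x => C < ‖b.dev (T x) (A x)‖) ≤ 1 / 16) :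
    ‖b.a‖ ≤ 4 * (1 + N * (C * B)) * 2 ^ m := by
  classical
  set c : Pt → ℤ := fun x => ((fwn ρ m (T x) : ℕ) : ℤ) with hc
  have hQ0 : (0 : ℤ) < ((2 ^ (ρ - D) : ℕ) : ℤ) := by positivity
  have hpow : ((2 : ℤ) ^ (D - 2)) * ((2 ^ (ρ - D) : ℕ) : ℤ) = 2 ^ (ρ - 2) := by
    push_cast
    rw [← pow_add]
    congr 1
    omega
  -- the mass of the quarters
  have hmass : ∀ s : Finset ℕ, (∀ i ∈ s, i < 2 ^ D) → s.card = 2 ^ (D - 2) →
      1 / 8 ≤ Pw w (fun x => ∃ i ∈ s, c x / ((2 ^ (ρ - D) : ℕ) : ℤ) = (i : ℤ)) := by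
    intro s hs hcard
    have e3 := Pw_sum_le w hN.hw s (fun i x => c x / ((2 ^ (ρ - D) : ℕ) : ℤ) = (i : ℤ))
      (fun x => ∃ i ∈ s, c x / ((2 ^ (ρ - D) : ℕ) : ℤ) = (i : ℤ)) (by
      intro x i j _ _ h1 h2
      have : (i : ℤ) = j := h1.symm.trans h2
      exact_mod_cast this) (fun x i _ hi h => ⟨i, hi, h⟩)
    refine le_trans ?_ e3
    refine le_trans ?_ (Finset.sum_le_sum (fun i hi => hN.lo (i : ℤ) (Int.natCast_nonneg i) (by exact_mod_cast hs i hi)))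
    rw [sum_const, hcard, nsmul_eq_mul]
    have e4 : (2 : ℝ) ^ D = 2 ^ (D - 2) * 4 := by
      rw [show (4 : ℝ) = 2 ^ 2 by norm_num, ← pow_add]
      congr 1
      omega
    push_cast
    rw [e4]
    apply le_of_eq
    field_simp
    norm_num
  have hpt : ∀ s : Finset ℕ, (∀ i ∈ s, i < 2 ^ D) → s.card = 2 ^ (D - 2) →
      ∃ x, w x ≠ 0 ∧ (∃ i ∈ s, c x / ((2 ^ (ρ - D) : ℕ) : ℤ) = (i : ℤ)) ∧ ¬ C < ‖b.dev (T x) (A x)‖ := by
    intro s hs hcard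
    apply exists_good w hN.hw (fun x => ∃ i ∈ s, c x / ((2 ^ (ρ - D) : ℕ) : ℤ) = (i : ℤ))
    have := hmass s hs hcard
    linarith
  have hD4 : 2 ^ D = 2 ^ (D - 2) * 4 := by
    rw [show 4 = 2 ^ 2 by norm_num, ← pow_add]
    congr 1
    omega
  obtain ⟨x, hx0, ⟨i, hi, hxi⟩, hx⟩ := hpt (range (2 ^ (D - 2))) (fun i hi => by
    rw [mem_range] at hi
    omega) (card_range _)
  obtain ⟨y, hy0, ⟨j, hj, hyj⟩, hy⟩ := hpt (Finset.Ico (3 * 2 ^ (D - 2)) (2 ^ D)) (fun i hi => (mem_Ico.mp hi).2) (by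
    rw [Nat.card_Ico]
    omega)
  rw [mem_range] at hi
  rw [mem_Ico] at hj
  push Not at hx hy
  have cx : c x + 1 ≤ 2 ^ (ρ - 2) := by
    have h1 := Int.lt_mul_of_ediv_lt hQ0 (show c x / ((2 ^ (ρ - D) : ℕ) : ℤ) < 2 ^ (D - 2) by
      rw [hxi]
      exact_mod_cast hi)
    rw [hpow] at h1
    linarith
  have cy : 3 * 2 ^ (ρ - 2) ≤ c y := by
    have h1 : (3 * 2 ^ (D - 2) : ℤ) ≤ c y / ((2 ^ (ρ - D) : ℕ) : ℤ) := by
      rw [hyj]
      exact_mod_cast hj.1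
    rw [Int.le_ediv_iff_mul_le hQ0, mul_assoc, hpow] at h1
    exact h1
  obtain ⟨x1, x2⟩ := hN.cell x hx0
  obtain ⟨y1, y2⟩ := hN.cell y hy0
  have hd : (1 : ℝ) / 2 ^ (m + D) / ((2 ^ (ρ - D) : ℕ) : ℝ) = 1 / 2 ^ (m + ρ) := by
    have hQr : (2 : ℝ) ^ D * 2 ^ (ρ - D) = 2 ^ ρ := by rw [← pow_add, Nat.add_sub_cancel' hDρ]
    push_cast
    rw [div_div, pow_add, mul_assoc, hQr, ← pow_add]
  rw [hd] at x2 y1
  have cx' : ((c x : ℤ) : ℝ) + 1 ≤ 2 ^ (ρ - 2) := by exact_mod_cast cx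
  have cy' : 3 * (2 : ℝ) ^ (ρ - 2) ≤ ((c y : ℤ) : ℝ) := by exact_mod_cast cy
  have hT : 1 / (2 * 2 ^ m) ≤ T y - T x := by
    have h1 : 3 * (2 : ℝ) ^ (ρ - 2) * (1 / 2 ^ (m + ρ)) ≤ ((c y : ℤ) : ℝ) * (1 / 2 ^ (m + ρ)) :=
      mul_le_mul_of_nonneg_right cy' (by positivity)
    have h2 : (((c x : ℤ) : ℝ) + 1) * (1 / 2 ^ (m + ρ)) ≤ (2 : ℝ) ^ (ρ - 2) * (1 / 2 ^ (m + ρ)) :=
      mul_le_mul_of_nonneg_right cx' (by positivity)
    have h3 : (2 : ℝ) ^ (ρ - 2) * (1 / 2 ^ (m + ρ)) = 1 / (4 * 2 ^ m) := by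
      have e : (2 : ℝ) ^ ρ = 2 ^ (ρ - 2) * 4 := by
        rw [show (4 : ℝ) = 2 ^ 2 by norm_num, ← pow_add]
        congr 1
        omega
      rw [pow_add, e]
      field_simp
    have h4 : 3 * (2 : ℝ) ^ (ρ - 2) * (1 / 2 ^ (m + ρ)) = 3 * (1 / (4 * 2 ^ m)) := by
      rw [mul_assoc, h3]
    have h5 : (1 : ℝ) / (2 * 2 ^ m) = 2 * (1 / (4 * 2 ^ m)) := by
      field_simp
      norm_num
    rw [h3] at h2
    rw [h4] at h1
    rw [h5]
    have y1' : (c₀ : ℝ) / 2 ^ m + ((c y : ℤ) : ℝ) * (1 / 2 ^ (m + ρ)) ≤ T y := y1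
    have x2' : T x < (c₀ : ℝ) / 2 ^ m + (((c x : ℤ) : ℝ) + 1) * (1 / 2 ^ (m + ρ)) := x2
    linarith
  -- the slope
  have hdev : ∀ u, b.M⁻¹ *ᵥ (b.dev (T u) (A u)) = A u - T u • b.a - b.o := by
    intro u
    unfold NB.dev
    rw [Matrix.mulVec_mulVec, Matrix.nonsing_inv_mul _ (isUnit_iff_ne_zero.mpr hdet), Matrix.one_mulVec]
  have hle : ∀ u, w u ≠ 0 → ‖b.dev (T u) (A u)‖ ≤ C → ‖A u - T u • b.a - b.o‖ ≤ N * (C * B) := by
    intro u _ hu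
    rw [← hdev u]
    refine (inv_le_fr b hB _).trans ?_
    refine mul_le_mul_of_nonneg_left ?_ (Nat.cast_nonneg N)
    exact mul_le_mul_of_nonneg_right hu hB0
  have h1 := hle x hx0 hx
  have h2 := hle y hy0 hy
  have e : (T y - T x) • b.a = A y - A x - (A y - T y • b.a - b.o) + (A x - T x • b.a - b.o) := by
    rw [sub_smul]
    abel
  have h3 : ‖(T y - T x) • b.a‖ ≤ 2 + 2 * (N * (C * B)) := by
    rw [e]
    have q1 := norm_add_le (A y - A x - (A y - T y • b.a - b.o)) (A x - T x • b.a - b.o)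
    have q2 := norm_sub_le (A y - A x) (A y - T y • b.a - b.o)
    have q3 := norm_sub_le (A y) (A x)
    have q4 := hA x hx0
    have q5 := hA y hy0
    linarith
  have hpos : 0 < T y - T x := lt_of_lt_of_le (by positivity) hT
  rw [norm_smul, Real.norm_eq_abs, abs_of_pos hpos] at h3
  have h4 : 1 / (2 * 2 ^ m) * ‖b.a‖ ≤ 2 + 2 * (N * (C * B)) :=
    (mul_le_mul_of_nonneg_right hT (norm_nonneg _)).trans h3
  have h5 : 1 / (2 * 2 ^ m) * ‖b.a‖ = ‖b.a‖ / (2 * 2 ^ m) := by ring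
  rw [h5, div_le_iff₀ (by positivity)] at h4
  refine h4.trans (le_of_eq ?_)
  ring

/-- the constant of the frames -/
noncomputable def Bfr (N : ℕ) : ℝ := 512 * (N : ℝ) ^ 2

/-- the constant of the slopes -/
noncomputable def Kas (N : ℕ) : ℝ := 4 * (1 + N * (270000 * Bfr N))

/-- **every node has a good body** -/
theorem exists_good (hN0 : 0 < N) {w : Pt → ℝ} {T : Pt → ℝ} {m D ρ r : ℕ} {c₀ : ℤ} (hN : IsNd w T m D ρ c₀)
    (hD : 6 ≤ D) (hDρ : D ≤ ρ) {A : Pt → Fin N → ℝ} (hA : ∀ x, w x ≠ 0 → ‖A x‖ ≤ 1) {g κ : ℝ} (hg : 0 < g) (hg1 : g ≤ 1)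
    (hκ : 0 < κ) (hκ1 : 2 ^ 74 * ((N : ℝ) + 1) ^ 3 * ((2 : ℝ) ^ D) ^ 4 * κ ≤ 1) (hr : 300000 * N ^ 2 ≤ r)
    (hQ : r ^ 3 ≤ 2 ^ (ρ - D)) : ∃ b : NB N, GoodN ρ D r g κ (Kas N) (Bfr N) w T A m b := by
  classical
  have hNr : (1 : ℝ) ≤ N := by exact_mod_cast hN0
  -- the time relative to the cell
  set c0 : ℝ := (c₀ : ℝ) / 2 ^ m with hc0
  have hN' : Nd w (fun x => T x - c0) (fun x => ((fwn ρ m (T x) : ℕ) : ℤ)) 0 (1 / 2 ^ (m + D)) (2 ^ D) (2 ^ (ρ - D)) := by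
    refine ⟨hN.hw, hN.hm, hN.hh, hN.hQ, hN.hn, ?_, hN.rg, hN.lo, hN.up⟩
    intro ω hω
    obtain ⟨a1, a2⟩ := hN.cell ω hω
    constructor
    · linarith
    · linarith
  have hT1 : ∀ ω, w ω ≠ 0 → |T ω - c0| ≤ 1 := by
    intro ω hω
    obtain ⟨a1, a2⟩ := hN'.cell ω hω
    obtain ⟨a3, a4⟩ := hN'.rg ω hω
    have a5 : (0 : ℝ) ≤ ((fwn ρ m (T ω) : ℕ) : ℤ) := by exact_mod_cast a3
    have a6 : ((((fwn ρ m (T ω) : ℕ) : ℤ)) : ℝ) + 1 ≤ (2 ^ D : ℕ) * (2 ^ (ρ - D) : ℕ) := by exact_mod_cast a4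
    have a7 : (0 : ℝ) < 1 / 2 ^ (m + D) / ((2 ^ (ρ - D) : ℕ) : ℝ) := by positivity
    have a8 := mul_le_mul_of_nonneg_right a6 a7.le
    have a9 : (2 ^ D : ℕ) * (2 ^ (ρ - D) : ℕ) * (1 / 2 ^ (m + D) / ((2 ^ (ρ - D) : ℕ) : ℝ)) = 1 / 2 ^ m := by
      push_cast
      rw [pow_add]
      field_simp
    have a10 : (1 : ℝ) / 2 ^ m ≤ 1 := by
      rw [div_le_one (by positivity)]
      exact one_le_pow₀ (by norm_num)
    have a11 := mul_nonneg a5 a7.le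
    rw [abs_le]
    rw [a9] at a8
    constructor
    · linarith
    · linarith
  obtain ⟨F, a, o', h1, h2, -, -, -, -, h3', h4', h5'⟩ := exists_node hN0 hN' (k := 2 ^ (D - 2)) (by
      calc 16 = 2 ^ 4 := by norm_num
        _ ≤ 2 ^ (D - 2) := Nat.pow_le_pow_right (by norm_num) (by omega)) (by
      rw [show 4 = 2 ^ 2 by norm_num, ← pow_add]
      congr 1
      omega) A hg hκ (by push_cast; exact hκ1) hr hQ hg1 (by
      rw [div_le_one (by positivity)]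
      exact one_le_pow₀ (by norm_num)) hA hT1
  set o : Fin N → ℝ := o' - c0 • a with ho
  have hdev : ∀ x, dev F a o' (T x - c0) (A x) = dev F a o (T x) (A x) := by
    intro x
    unfold dev
    congr 1
    rw [ho, sub_smul]
    abel
  have hwd : wd r F a o' (fun x => T x - c0) (fun x => ((fwn ρ m (T x) : ℕ) : ℤ)) A =
      wd r F a o T (fun x => ((fwn ρ m (T x) : ℕ) : ℤ)) A := by
    funext x
    unfold wd
    rw [hdev]
  have hDl : ∀ y, Dl (1 / 2 ^ (m + D)) (fun x => T x - c0) A y = Dl (1 / 2 ^ (m + D)) T A y := by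
    intro y
    have e : ∀ x : Fin 4 → Pt, Sl (1 / 2 ^ (m + D)) (fun x => T x - c0) A x = Sl (1 / 2 ^ (m + D)) T A x := by
      intro x
      unfold Sl Yq
      congr 2
      unfold al4
      ring
    unfold Dl
    rw [e, e]
  have h3 : Pw w (fun ω => 270000 < ‖dev F a o (T ω) (A ω)‖) ≤ 53248 * (((N : ℝ) + 1) * κ) := by
    simp only [hdev] at h3'
    exact h3'
  have h4 : ∀ y : Fin 8 → Pt, wK w 8 y ≠ 0 →
      Gdw (2 ^ (ρ - D)) r (fun i => wd r F a o T (fun x => ((fwn ρ m (T x) : ℕ) : ℤ)) A (y i)) →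
        ‖tr (F *ᵥ Dl (1 / 2 ^ (m + D)) T A y) -
          Tht (2 ^ (ρ - D)) r (fun i => wd r F a o T (fun x => ((fwn ρ m (T x) : ℕ) : ℤ)) A (y i))‖ ≤
            1 / (8 * N * (4 * N + 2)) := by
    intro y hy hG
    have q := h4' y hy
    rw [hwd, hDl] at q
    exact q hG
  have h5 : ∀ ν ∈ Helper9.VB.Sph N, (∃ i, 1 / (8 * (N : ℝ)) ≤ |ν ⬝ᵥ (F *ᵥ (Pi.single i g : Fin N → ℝ))|) ∨
        κ / (2 ^ 25 * ((N : ℝ) + 1) * ((2 ^ D : ℕ) : ℝ) ^ 2) ≤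
          Pw (wK w 8) (fun y => 1 / (8 * (N : ℝ)) ≤ |ν ⬝ᵥ Tht (2 ^ (ρ - D)) r
            (fun i => wd r F a o T (fun x => ((fwn ρ m (T x) : ℕ) : ℤ)) A (y i))|) := by
    rw [hwd] at h5'
    exact h5'
  have hr1 : 8 ≤ r := by
    have : 1 ≤ N ^ 2 := Nat.one_le_pow _ _ hN0
    nlinarith
  have hQ8 : 8 ≤ 2 ^ (ρ - D) := (hr1.trans (Nat.le_self_pow (by norm_num) r)).trans hQ
  set b : NB N := ⟨F, a, o⟩ with hb
  have hbM : b.M = F := rfl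
  -- the window function of Helper9
  have hwin : ∀ y : Fin 8 → Pt, (fun i => wd r F a o T (fun x => ((fwn ρ m (T x) : ℕ) : ℤ)) A (y i)) =
      cstV (fun i => wnV ρ m r b T A (y i)) := fun y => rfl
  have hsupp : ∀ y : Fin 8 → Pt, (∀ i, w (y i) ≠ 0) → wK w 8 y ≠ 0 := by
    intro y hy
    unfold wK
    exact Finset.prod_ne_zero_iff.mpr fun i _ => hy i
  have hsupp2 : ∀ y : Fin 8 → Pt, wK w 8 y ≠ 0 → ∀ i, w (y i) ≠ 0 := by
    intro y hy i h0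
    apply hy
    unfold wK
    exact Finset.prod_eq_zero (mem_univ i) h0
  have hspec : ∀ y : Fin 8 → Pt, (∀ i, w (y i) ≠ 0) → Gdw (2 ^ (ρ - D)) r (cstV fun i => wnV ρ m r b T A (y i)) →
      ‖tr (b.M *ᵥ Dl (1 / 2 ^ (m + D)) T A y) - ThV ρ D r (fun i => wnV ρ m r b T A (y i))‖ ≤
        1 / (8 * N * (4 * N + 2)) := fun y hy hG => h4 y (hsupp y hy) hG
  have hε : 1 / (8 * (N : ℝ) * (4 * N + 2)) ≤ 1 / (16 * N) := by
    rw [div_le_div_iff₀ (by positivity) (by positivity)]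
    nlinarith
  have hhalf : (1 : ℝ) / (8 * N) = 1 / (16 * N) + 1 / (16 * N) := by
    field_simp
    norm_num
  -- the frame
  have hfr : ∀ i, ‖b.fr i‖ ≤ Bfr N := by
    intro i
    set x : (Fin 8 → Pt) ⊕ Fin N → Fin N → ℝ := Sum.elim (fun y => if (∀ i, w (y i) ≠ 0) ∧
      Gdw (2 ^ (ρ - D)) r (cstV fun i => wnV ρ m r b T A (y i)) then tr (b.M *ᵥ Dl (1 / 2 ^ (m + D)) T A y) else 0)
      (fun i => b.M *ᵥ Pi.single i g) with hx
    have hinv : ∀ v, b.M⁻¹ *ᵥ (b.M *ᵥ v) = v := by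
      intro v
      rw [Matrix.mulVec_mulVec, Matrix.nonsing_inv_mul _ (isUnit_iff_ne_zero.mpr h1), Matrix.one_mulVec]
    refine (fr_of_seen b x (c := 1 / (16 * N)) (Bd := 32) (by positivity) ?_ ?_ i).trans (le_of_eq ?_)
    · rintro (y | k)
      · rw [hx]
        simp only [Sum.elim_inl]
        split_ifs with hy
        · unfold tr
          rw [Matrix.mulVec_smul, hinv, norm_smul, Real.norm_eq_abs]
          have e1 : 1 ≤ max 1 ‖b.M *ᵥ Dl (1 / 2 ^ (m + D)) T A y‖ := le_max_left _ _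
          have e2 : |1 / max 1 ‖b.M *ᵥ Dl (1 / 2 ^ (m + D)) T A y‖| ≤ 1 := by
            rw [abs_of_pos (by positivity), div_le_one (by positivity)]
            exact e1
          calc |1 / max 1 ‖b.M *ᵥ Dl (1 / 2 ^ (m + D)) T A y‖| * ‖Dl (1 / 2 ^ (m + D)) T A y‖ ≤ 1 * 32 :=
                mul_le_mul e2 (dl_le hN hQ8 hA b y hy.1 hy.2) (norm_nonneg _) zero_le_one
            _ = 32 := one_mul _
        · rw [Matrix.mulVec_zero, norm_zero]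
          norm_num
      · rw [hx]
        simp only [Sum.elim_inr]
        rw [hinv, Pi.norm_single, Real.norm_eq_abs, abs_of_pos hg]
        linarith
    · intro ν hν
      rcases h5 ν hν with ⟨k, hk⟩ | h
      · refine ⟨Sum.inr k, le_trans ?_ hk⟩
        rw [hhalf]
        have : (0 : ℝ) < 1 / (16 * N) := by positivity
        linarith
      · obtain ⟨y, hy0, hy1⟩ := Pw_exists _ (lt_of_lt_of_le (by positivity) h)
        have hy2 := hsupp2 y hy0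
        have hy3 : 1 / (8 * (N : ℝ)) ≤ |ν ⬝ᵥ ThV ρ D r (fun i => wnV ρ m r b T A (y i))| := hy1
        have hne : ThV ρ D r (fun i => wnV ρ m r b T A (y i)) ≠ 0 := by
          intro h0
          rw [h0, dotProduct_zero, abs_zero] at hy3
          exact absurd hy3 (not_le.mpr (by positivity))
        have hG := gdw_of_ne hne
        refine ⟨Sum.inl y, ?_⟩
        rw [hx]
        simp only [Sum.elim_inl]
        rw [if_pos ⟨hy2, hG⟩]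
        have e1 := hspec y hy2 hG
        have e2 := Helper9.VB.dot_le (y := tr (b.M *ᵥ Dl (1 / 2 ^ (m + D)) T A y) -
          ThV ρ D r (fun i => wnV ρ m r b T A (y i))) hν
        rw [dotProduct_sub] at e2
        have e3 := abs_sub_abs_le_abs_sub (ν ⬝ᵥ ThV ρ D r (fun i => wnV ρ m r b T A (y i)))
          (ν ⬝ᵥ tr (b.M *ᵥ Dl (1 / 2 ^ (m + D)) T A y))
        rw [abs_sub_comm] at e3
        linarith
    · unfold Bfr
      field_simp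
      norm_num
  have hκs : 53248 * (((N : ℝ) + 1) * κ) ≤ 1 / 16 := by
    have a1 : (1 : ℝ) ≤ ((N : ℝ) + 1) ^ 2 := one_le_pow₀ (by linarith)
    have a2 : (1 : ℝ) ≤ ((2 : ℝ) ^ D) ^ 4 := one_le_pow₀ (one_le_pow₀ (by norm_num))
    have a3 : ((N : ℝ) + 1) * κ ≤ ((N : ℝ) + 1) ^ 3 * ((2 : ℝ) ^ D) ^ 4 * κ := by
      have b1 : ((N : ℝ) + 1) * 1 ≤ ((N : ℝ) + 1) * (((N : ℝ) + 1) ^ 2 * ((2 : ℝ) ^ D) ^ 4) := by
        refine mul_le_mul_of_nonneg_left ?_ (by positivity)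
        nlinarith
      have b2 := mul_le_mul_of_nonneg_right b1 hκ.le
      have b3 : ((N : ℝ) + 1) * (((N : ℝ) + 1) ^ 2 * ((2 : ℝ) ^ D) ^ 4) * κ =
          ((N : ℝ) + 1) ^ 3 * ((2 : ℝ) ^ D) ^ 4 * κ := by ring
      rw [b3, mul_one] at b2
      exact b2
    have a4 : 2 ^ 74 * (((N : ℝ) + 1) * κ) ≤ 1 := by
      calc 2 ^ 74 * (((N : ℝ) + 1) * κ) ≤ 2 ^ 74 * (((N : ℝ) + 1) ^ 3 * ((2 : ℝ) ^ D) ^ 4 * κ) :=
            mul_le_mul_of_nonneg_left a3 (by norm_num)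
        _ = 2 ^ 74 * ((N : ℝ) + 1) ^ 3 * ((2 : ℝ) ^ D) ^ 4 * κ := by ring
        _ ≤ 1 := hκ1
    have a5 : ((N : ℝ) + 1) * κ ≤ 1 / 2 ^ 74 := by
      rw [le_div_iff₀ (by norm_num)]
      linarith
    calc 53248 * (((N : ℝ) + 1) * κ) ≤ 53248 * (1 / 2 ^ 74) := mul_le_mul_of_nonneg_left a5 (by norm_num)
      _ ≤ 1 / 16 := by norm_num
  refine ⟨b, ⟨h1, h2, ?_, hfr⟩, h3, hspec, ?_⟩
  · have hB0 : 0 ≤ Bfr N := by
      unfold Bfr
      positivity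
    exact slope_le hN (by omega) hDρ hA b h1 hfr hB0 (le_trans h3 hκs)
  · intro ν hν
    rcases h5 ν hν with ⟨i, hi⟩ | h
    · exact Or.inl ⟨i, hi⟩
    · refine Or.inr ?_
      rw [wK_law]
      push_cast at h
      exact h

/-- **valid blocks** (both quadruples small, at most one flag) have positive probability -/
theorem gdw_low {w : Pt → ℝ} {T : Pt → ℝ} {m D ρ r : ℕ} {c₀ : ℤ} (hN : IsNd w T m D ρ c₀) (hD : 6 ≤ D)
    (hr : 600 ≤ r) {A : Pt → Fin N → ℝ} (b : NB N)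
    (ht : Pw w (fun x => 270000 < ‖b.dev (T x) (A x)‖) ≤ 1 / 159744) :
    (1 / (2048 * (2 : ℝ) ^ D)) ^ 2 ≤ Pw (wK (fun v => Pw w (fun x => wnV ρ m r b T A x = v)) 8)
      (fun v => Gdw (2 ^ (ρ - D)) r (cstV v)) := by
  classical
  have h1 := hN.sm_low (k := 2 ^ (D - 2)) (by
      calc 8 ≤ 2 ^ 4 := by norm_num
        _ ≤ 2 ^ (D - 2) := Nat.pow_le_pow_right (by norm_num) (by omega)) (by
      rw [show 4 = 2 ^ 2 by norm_num, ← pow_add]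
      congr 1
      omega) (fun x => 270000 < ‖b.dev (T x) (A x)‖) ht
  push_cast at h1
  rw [wK_law]
  have h2 := Pw_w2 (wK w 4)
    (fun x => Sm (fun x => ((fwn ρ m (T x) : ℕ) : ℤ)) (2 ^ (ρ - D)) x ∧ ∀ i, ¬ 270000 < ‖b.dev (T (x i)) (A (x i))‖)
    (fun x => Sm (fun x => ((fwn ρ m (T x) : ℕ) : ℤ)) (2 ^ (ρ - D)) x ∧ ∀ i, ¬ 270000 < ‖b.dev (T (x i)) (A (x i))‖)
  have h3 := Pw_eight w (fun x x' =>
    (Sm (fun x => ((fwn ρ m (T x) : ℕ) : ℤ)) (2 ^ (ρ - D)) x ∧ ∀ i, ¬ 270000 < ‖b.dev (T (x i)) (A (x i))‖) ∧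
    (Sm (fun x => ((fwn ρ m (T x) : ℕ) : ℤ)) (2 ^ (ρ - D)) x' ∧ ∀ i, ¬ 270000 < ‖b.dev (T (x' i)) (A (x' i))‖))
  have h4 : (1 / (2048 * (2 : ℝ) ^ D)) ^ 2 ≤ Pw (wK w 8) (fun y =>
    (Sm (fun x => ((fwn ρ m (T x) : ℕ) : ℤ)) (2 ^ (ρ - D)) (lft y) ∧ ∀ i, ¬ 270000 < ‖b.dev (T (lft y i)) (A (lft y i))‖) ∧
    (Sm (fun x => ((fwn ρ m (T x) : ℕ) : ℤ)) (2 ^ (ρ - D)) (rgt y) ∧
      ∀ i, ¬ 270000 < ‖b.dev (T (rgt y i)) (A (rgt y i))‖)) := by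
    rw [h3, h2, sq]
    exact mul_le_mul h1 h1 (by positivity) (Pw_nonneg _ (wK_nonneg hN.hw 4) _)
  refine h4.trans (Pw_mono _ (wK_nonneg hN.hw 8) ?_)
  rintro y - ⟨⟨a1, a2⟩, a3, a4⟩
  refine ⟨a1, a3, Or.inl ?_⟩
  have hr0 : (270000 : ℝ) ≤ (r : ℝ) ^ 2 := by
    have : (600 : ℝ) ≤ r := by exact_mod_cast hr
    nlinarith
  have key : ∀ x : Pt, ¬ 270000 < ‖b.dev (T x) (A x)‖ → (rc r (b.dev (T x) (A x))).1 = false := by
    intro x hx
    exact (rc_small (by omega) ((not_lt.mp hx).trans hr0)).1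
  intro i
  show (rc r (b.dev (T (y i)) (A (y i)))).1 = false
  apply key
  rcases eight_cases i with ⟨i, rfl⟩ | ⟨i, rfl⟩
  · exact a2 i
  · exact a4 i

/-- the constant of the tubes is small -/
theorem kap_small {D : ℕ} {κ : ℝ} (hκ : 0 < κ)
    (hκ1 : 2 ^ 74 * ((N : ℝ) + 1) ^ 3 * ((2 : ℝ) ^ D) ^ 4 * κ ≤ 1) : 53248 * (((N : ℝ) + 1) * κ) ≤ 1 / 159744 := by
  have hNr : (0 : ℝ) ≤ N := Nat.cast_nonneg N
  have a1 : (1 : ℝ) ≤ ((N : ℝ) + 1) ^ 2 := one_le_pow₀ (by linarith)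
  have a2 : (1 : ℝ) ≤ ((2 : ℝ) ^ D) ^ 4 := one_le_pow₀ (one_le_pow₀ (by norm_num))
  have a3 : ((N : ℝ) + 1) * κ ≤ ((N : ℝ) + 1) ^ 3 * ((2 : ℝ) ^ D) ^ 4 * κ := by
    have b1 : ((N : ℝ) + 1) * 1 ≤ ((N : ℝ) + 1) * (((N : ℝ) + 1) ^ 2 * ((2 : ℝ) ^ D) ^ 4) := by
      refine mul_le_mul_of_nonneg_left ?_ (by positivity)
      nlinarith
    have b2 := mul_le_mul_of_nonneg_right b1 hκ.le
    have b3 : ((N : ℝ) + 1) * (((N : ℝ) + 1) ^ 2 * ((2 : ℝ) ^ D) ^ 4) * κ =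
        ((N : ℝ) + 1) ^ 3 * ((2 : ℝ) ^ D) ^ 4 * κ := by ring
    rw [b3, mul_one] at b2
    exact b2
  have a4 : 2 ^ 74 * (((N : ℝ) + 1) * κ) ≤ 1 := by
    calc 2 ^ 74 * (((N : ℝ) + 1) * κ) ≤ 2 ^ 74 * (((N : ℝ) + 1) ^ 3 * ((2 : ℝ) ^ D) ^ 4 * κ) :=
          mul_le_mul_of_nonneg_left a3 (by norm_num)
      _ = 2 ^ 74 * ((N : ℝ) + 1) ^ 3 * ((2 : ℝ) ^ D) ^ 4 * κ := by ring
      _ ≤ 1 := hκ1
  have a5 : ((N : ℝ) + 1) * κ ≤ 1 / 2 ^ 74 := by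
    rw [le_div_iff₀ (by norm_num)]
    linarith
  calc 53248 * (((N : ℝ) + 1) * κ) ≤ 53248 * (1 / 2 ^ 74) := mul_le_mul_of_nonneg_left a5 (by norm_num)
    _ ≤ 1 / 159744 := by norm_num

end Pool.Agent.Helper99.FW
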