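import Pool.Agent.Helper99.VW.Tub

/-!
# LEMMA B ((2.3) of ns_notes_58) in finite form: two tubes which are seen through one label have the same slope

A finite law `w`, real variables `T₁`, `T₂`, vectors `A₁`, `A₂`, a label `G` which contains the cell of level `l` of
`T₂` and which determines `T₁ - T₂` up to `θ₀`; the label `G` and the cell of level `j` of `T₁` determine the tube
`(a₁, o₁, p₁)`, the label `G` determines the tube `(a₂, o₂, p₂)`. If `T₂` still has two full digits after the level `l`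
given `G`, and for most pairs of points with the same label `G` the difference `A₁ - A₂` is the same up to `r₁`, then
`a₁ - a₂` belongs to `2 ^ (l + 3)` times the sum of the bodies of the two tubes.
-/

set_option autoImplicit false

namespace Pool.Agent.Helper99.FW

open Finset Pool.Agent.Helper69.RK Pool.Agent.Helper61.GL Pool.Agent.Helper46.WF Pool.Agent.Helper58.VW
open Pool.Agent.Helper99.VW
open Pool.Agent.Helper31.EC (amw amw_nonneg amw_supp)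

variable {E : Type*} [AddCommGroup E] [Module ℝ E] {X γ : Type} [Fintype X]

/-- `t` is near the boundary of its cell of level `j` -/
def Mg (c : ℝ) (j : ℕ) (t : ℝ) : Prop := ¬ (c ≤ Int.fract ((2 : ℝ) ^ j * t) ∧ Int.fract ((2 : ℝ) ^ j * t) < 1 - c)

theorem cl_of_not_mg {c t t' : ℝ} {j : ℕ} (h : ¬ Mg c j t) (h' : |2 ^ j * (t' - t)| ≤ c) : cl j t' = cl j t := by
  obtain ⟨h1, h2⟩ := not_not.mp h
  have h3 : (2 : ℝ) ^ j * t = (cl j t : ℝ) + Int.fract ((2 : ℝ) ^ j * t) := by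
    unfold cl
    exact (Int.floor_add_fract _).symm
  rw [abs_le] at h'
  rw [cl_iff]
  have h4 : (2 : ℝ) ^ j * t' = 2 ^ j * t + 2 ^ j * (t' - t) := by ring
  rw [h4, h3]
  constructor <;> linarith [h'.1, h'.2]

/-- near uniform windows have small margins -/
theorem mg_cell (μ : X → ℝ) (hμ : ∀ x, 0 ≤ μ x) (T : X → ℝ) {C₀ j : ℕ} (hC : 1 ≤ C₀) (x : X) (hU : UnT μ T C₀ j 1 x) :
    Pw (cw μ (fun y => cl j (T y)) x) (fun y => Mg (2 / 2 ^ C₀) j (T y)) ≤ 8 / 2 ^ C₀ := by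
  classical
  set w := cw μ (fun y => cl j (T y)) x with hw
  have hw0 : ∀ y, 0 ≤ w y := fun y => cw_nonneg μ _ hμ _ _
  set N : ℕ := 2 ^ C₀ with hN
  have hN2 : 2 ≤ N := by
    calc 2 = 2 ^ 1 := by norm_num
      _ ≤ 2 ^ C₀ := Nat.pow_le_pow_right (by norm_num) hC
  have hNr : (0 : ℝ) < 2 ^ C₀ := by positivity
  have hNc : ((N : ℕ) : ℝ) = 2 ^ C₀ := by rw [hN]; push_cast; rfl
  have h1 : ∀ k < N, Pw w (fun y => cl (j + C₀) (T y) = cl j (T x) * 2 ^ C₀ + (k : ℤ)) ≤ 2 / 2 ^ C₀ := by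
    intro k hk
    have h2 := hU k hk
    rw [abs_le] at h2
    rw [le_div_iff₀ hNr]
    have h3 := h2.2
    linarith
  have h2 : Pw w (fun y => Mg (2 / 2 ^ C₀) j (T y)) ≤
      Pw w (fun y => ∃ k ∈ ({0, 1, N - 2, N - 1} : Finset ℕ), cl (j + C₀) (T y) = cl j (T x) * 2 ^ C₀ + (k : ℤ)) := by
    refine Pw_mono w hw0 ?_
    intro y hy hM
    obtain ⟨h3, -⟩ := cw_ne_zero μ _ hy
    have h4 : cl j (T y) = cl j (T x) := h3
    have h5 := cl_window j C₀ (T y)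
    rw [mem_image] at h5
    obtain ⟨k, hk, hk2⟩ := h5
    rw [mem_range] at hk
    refine ⟨k, ?_, by rw [← hk2, h4]⟩
    have h6 : cl (j + C₀) (T y) = cl j (T y) * 2 ^ C₀ + (k : ℤ) := hk2.symm
    rw [cl_iff] at h6
    push_cast at h6
    have h7 : (2 : ℝ) ^ j * T y = (cl j (T y) : ℝ) + Int.fract ((2 : ℝ) ^ j * T y) := by
      unfold cl
      exact (Int.floor_add_fract _).symm
    have h8 : (2 : ℝ) ^ (j + C₀) * T y = 2 ^ C₀ * (cl j (T y) : ℝ) + 2 ^ C₀ * Int.fract ((2 : ℝ) ^ j * T y) := by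
      rw [← mul_add, ← h7, pow_add]
      ring
    rw [h8] at h6
    obtain ⟨f, hf⟩ : ∃ f, f = Int.fract ((2 : ℝ) ^ j * T y) := ⟨_, rfl⟩
    rw [← hf] at h6
    unfold Mg at hM
    rw [← hf] at hM
    have h9 : (k : ℝ) ≤ 2 ^ C₀ * f := by linarith [h6.1]
    have h10 : 2 ^ C₀ * f < k + 1 := by linarith [h6.2]
    simp only [mem_insert, mem_singleton]
    by_contra hcon
    push Not at hcon
    apply hM
    have hk2' : 2 ≤ k := by omega
    have hk3 : k + 3 ≤ N := by omega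
    have hk2r : (2 : ℝ) ≤ k := by exact_mod_cast hk2'
    have hk3r : (k : ℝ) + 3 ≤ 2 ^ C₀ := by rw [← hNc]; exact_mod_cast hk3
    constructor
    · rw [div_le_iff₀ hNr]
      linarith
    · rw [lt_sub_iff_add_lt, ← lt_sub_iff_add_lt', div_lt_iff₀ hNr]
      nlinarith
  refine h2.trans ((Pw_ex w hw0 _ _).trans ?_)
  have h3 : ∑ k ∈ ({0, 1, N - 2, N - 1} : Finset ℕ), Pw w (fun y => cl (j + C₀) (T y) = cl j (T x) * 2 ^ C₀ + (k : ℤ))
      ≤ ∑ k ∈ ({0, 1, N - 2, N - 1} : Finset ℕ), (2 : ℝ) / 2 ^ C₀ := by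
    refine Finset.sum_le_sum fun k hk => h1 k ?_
    simp only [mem_insert, mem_singleton] at hk
    omega
  refine h3.trans ?_
  rw [Finset.sum_const, nsmul_eq_mul]
  have h4 : (({0, 1, N - 2, N - 1} : Finset ℕ).card : ℝ) ≤ 4 := by
    have : ({0, 1, N - 2, N - 1} : Finset ℕ).card ≤ 4 := Finset.card_le_four
    exact_mod_cast this
  have h5 : (0 : ℝ) ≤ 2 / 2 ^ C₀ := by positivity
  calc (({0, 1, N - 2, N - 1} : Finset ℕ).card : ℝ) * (2 / 2 ^ C₀) ≤ 4 * (2 / 2 ^ C₀) :=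
        mul_le_mul_of_nonneg_right h4 h5
    _ = 8 / 2 ^ C₀ := by ring

/-- the margins of a variable with full entropy -/
theorem sum_mg (μ : X → ℝ) (hμ : ∀ x, 0 ≤ μ x) (hm : ∑ x, μ x = 1) (T : X → ℝ)
    (hT : ∀ x, μ x ≠ 0 → 0 ≤ T x ∧ T x < 1) (n : ℕ) (A : ℝ) (hH : n - A ≤ Hh μ (fun x => cl n (T x))) {C₀ M : ℕ}
    (hC : 1 ≤ C₀) (hM : M + C₀ ≤ n + 1) :
    ∑ j ∈ range M, Pw μ (fun x => Mg (2 / 2 ^ C₀) j (T x)) ≤ 8 / 2 ^ C₀ * M + 16 * 2 ^ C₀ * (C₀ * (A + C₀)) := by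
  classical
  have h1 := sum_winT μ hμ hm T hT n A hH C₀ M hM (τ := 1) (by norm_num) le_rfl
  have h2 : ∀ j ∈ range M, Pw μ (fun x => Mg (2 / 2 ^ C₀) j (T x)) ≤ 8 / 2 ^ C₀ + Pw μ (fun x => ¬ UnT μ T C₀ j 1 x) := by
    intro j _
    rw [Pw_tower μ hμ (fun y => cl j (T y))]
    have key : ∀ x ∈ (univ : Finset X), μ x * Pw (cw μ (fun y => cl j (T y)) x) (fun y => Mg (2 / 2 ^ C₀) j (T y)) ≤
        8 / 2 ^ C₀ * μ x + (if ¬ UnT μ T C₀ j 1 x then μ x else 0) := by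
      intro x _
      by_cases h0 : μ x = 0
      · simp [h0]
      by_cases hU : UnT μ T C₀ j 1 x
      · have h3 := mul_le_mul_of_nonneg_left (mg_cell μ hμ T hC x hU) (hμ x)
        rw [if_neg (not_not.mpr hU)]
        linarith
      · rw [if_pos hU]
        have h3 : Pw (cw μ (fun y => cl j (T y)) x) (fun y => Mg (2 / 2 ^ C₀) j (T y)) ≤ 1 :=
          Pw_le_one _ (fun y => cw_nonneg μ _ hμ _ _) (cw_sum μ _ hμ x h0) _
        have h4 := mul_le_mul_of_nonneg_left h3 (hμ x)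
        have h5 : 0 ≤ 8 / 2 ^ C₀ * μ x := mul_nonneg (by positivity) (hμ x)
        linarith
    refine (Finset.sum_le_sum key).trans (le_of_eq ?_)
    rw [Finset.sum_add_distrib, ← Finset.mul_sum, hm, mul_one]
    congr 1
    unfold Pw
    refine Finset.sum_congr rfl fun x _ => ?_
    by_cases hU : UnT μ T C₀ j 1 x
    · rw [if_neg (not_not.mpr hU), if_neg (not_not.mpr hU)]
    · rw [if_pos hU, if_pos hU]
  refine (Finset.sum_le_sum h2).trans ?_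
  rw [Finset.sum_add_distrib, Finset.sum_const, card_range, nsmul_eq_mul]
  have h3 : 16 * (2 : ℝ) ^ C₀ / 1 ^ 2 * (C₀ * (A + C₀)) = 16 * 2 ^ C₀ * (C₀ * (A + C₀)) := by ring
  rw [h3] at h1
  linarith

/-- two good points of one fibre in the first and in the last quarter of the cell -/
theorem exists_two (u : X → ℝ) (hu : ∀ x, 0 ≤ u x) (Q₁ Q₂ O : X → Prop) (B : X × X → Prop) (h1 : 1 / 8 ≤ Pw u Q₁)
    (h2 : 1 / 8 ≤ Pw u Q₂) (hm : ∑ x, u x = 1) (hO : Pw u O ≤ 1 / 256) (hB : Pw (wp u u) B ≤ 1 / 256) :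
    ∃ y z, u y ≠ 0 ∧ u z ≠ 0 ∧ Q₁ y ∧ Q₂ z ∧ ¬ O y ∧ ¬ O z ∧ ¬ B (y, z) := by
  have hw := wp_nonneg hu hu
  have e1 : 1 / 64 ≤ Pw (wp u u) (fun x => Q₁ x.1 ∧ Q₂ x.2) := by
    rw [Pw_wp]
    calc (1 : ℝ) / 64 = 1 / 8 * (1 / 8) := by norm_num
      _ ≤ _ := mul_le_mul h1 h2 (by norm_num) (Pw_nonneg _ hu _)
  have hT : Pw u (fun _ => True) = 1 := by
    unfold Pw
    simpa using hm
  have e2 : Pw (wp u u) (fun x => O x.1) ≤ 1 / 256 := by
    have e3 := Pw_wp u u O (fun _ => True)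
    simp only [and_true] at e3
    rw [e3, hT, mul_one]
    exact hO
  have e3 : Pw (wp u u) (fun x => O x.2) ≤ 1 / 256 := by
    have e4 := Pw_wp u u (fun _ => True) O
    simp only [true_and] at e4
    rw [e4, hT, one_mul]
    exact hO
  have e4 : Pw (wp u u) (fun x => O x.1 ∨ O x.2 ∨ B x) ≤ 3 / 256 := by
    refine (Pw_or _ hw _ _).trans ?_
    have := Pw_or _ hw (fun x => O x.2) B
    linarith
  obtain ⟨x, hx0, hx1, hx2⟩ := exists_good (wp u u) hw (fun x => Q₁ x.1 ∧ Q₂ x.2) (fun x => O x.1 ∨ O x.2 ∨ B x)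
    (by linarith)
  push Not at hx2
  have h0 : u x.1 * u x.2 ≠ 0 := hx0
  exact ⟨x.1, x.2, left_ne_zero_of_mul h0, right_ne_zero_of_mul h0, hx1.1, hx1.2, hx2.1, hx2.2.1, hx2.2.2⟩

/-- the pair law of the fibres -/
theorem pair_tower (w : X → ℝ) (hw : ∀ x, 0 ≤ w x) (G : X → γ) (B : X × X → Prop) :
    ∑ x, w x * Pw (wp (cw w G x) (cw w G x)) B = Pw (amw w w G G) B := by
  classical
  rw [amw_disint]
  have h1 : ∀ x, Pw (wp (cw w G x) (cw w G x)) B = ∑ y, cw w G x y * Pw (cw w G y) (fun z => B (z, y)) := by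
    intro x
    unfold Pw
    rw [Fintype.sum_prod_type_right]
    refine Finset.sum_congr rfl fun y _ => ?_
    rw [Finset.mul_sum]
    refine Finset.sum_congr rfl fun z _ => ?_
    by_cases h0 : cw w G x y = 0
    · have : wp (cw w G x) (cw w G x) (z, y) = 0 := by
        show cw w G x z * cw w G x y = 0
        rw [h0, mul_zero]
      rw [this, h0]
      simp
    · obtain ⟨h2, -⟩ := cw_ne_zero w G h0
      rw [cw_congr' w G h2]
      show (if B (z, y) then cw w G x z * cw w G x y else 0) = _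
      by_cases hB : B (z, y)
      · rw [if_pos hB, if_pos hB, mul_comm]
      · rw [if_neg hB, if_neg hB, mul_zero]
  simp only [h1]
  exact cw_expect w hw G (fun y => Pw (cw w G y) (fun z => B (z, y)))

/-- `v` is the sum of a vector of the first body and of a vector of the second body -/
def InSum (p₁ p₂ : Seminorm ℝ E) (c₁ c₂ : ℝ) (v : E) : Prop := ∃ e₁ e₂ : E, v = e₁ + e₂ ∧ p₁ e₁ ≤ c₁ ∧ p₂ e₂ ≤ c₂

/-- **LEMMA B**, one level -/
theorem lemB_one {w : X → ℝ} (hw : ∀ x, 0 ≤ w x) (hm : ∑ x, w x = 1) (G : X → γ) {j l : ℕ} (T₁ T₂ : X → ℝ)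
    (A₁ A₂ a₁ a₂ o₁ o₂ : X → E) (p₁ p₂ : X → Seminorm ℝ E) {r₁ r₂ θ₀ : ℝ}
    (hG₂ : ∀ x y, w x ≠ 0 → w y ≠ 0 → G x = G y → cl l (T₂ x) = cl l (T₂ y) ∧ a₂ x = a₂ y ∧ o₂ x = o₂ y ∧ p₂ x = p₂ y)
    (hG₁ : ∀ x y, w x ≠ 0 → w y ≠ 0 → G x = G y → cl j (T₁ x) = cl j (T₁ y) →
      a₁ x = a₁ y ∧ o₁ x = o₁ y ∧ p₁ x = p₁ y)
    (hT : ∀ x y, w x ≠ 0 → w y ≠ 0 → G x = G y → |(T₁ x - T₂ x) - (T₁ y - T₂ y)| ≤ θ₀)
    (hθ : θ₀ * 2 ^ l ≤ 1) (hθa : ∀ x, w x ≠ 0 → θ₀ * p₁ x (a₁ x) ≤ r₁) :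
    Pw w (fun x => ¬ InSum (p₁ x) (p₂ x) (2 ^ (l + 3) * r₁) (2 ^ (l + 2) * r₂) (a₁ x - a₂ x)) ≤
      Pw w (fun x => Mg (2 * 2 ^ j / 2 ^ l) j (T₁ x)) + 256 * (2 - CH w (fun x => cl (l + 2) (T₂ x)) G) +
      256 * (Pw w (fun x => r₁ < p₁ x (A₁ x - T₁ x • a₁ x - o₁ x)) +
        Pw w (fun x => r₂ < p₂ x (A₂ x - T₂ x • a₂ x - o₂ x))) +
      256 * Pw (amw w w G G) (fun x => r₁ < p₁ x.1 ((A₁ x.1 - A₂ x.1) - (A₁ x.2 - A₂ x.2))) := by
  classical
  set O : X → Prop := fun x => r₁ < p₁ x (A₁ x - T₁ x • a₁ x - o₁ x) ∨ r₂ < p₂ x (A₂ x - T₂ x • a₂ x - o₂ x) with hO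
  set B : X × X → Prop := fun x => r₁ < p₁ x.1 ((A₁ x.1 - A₂ x.1) - (A₁ x.2 - A₂ x.2)) with hB
  set H : X → ℝ := fun x => Hh (cw w G x) (fun y => cl (l + 2) (T₂ y)) with hH
  -- the defects of the windows
  have hHle : ∀ x, w x ≠ 0 → H x ≤ 2 := by
    intro x h0
    have h1 := Hh_le_card (cw w G x) (fun y => cw_nonneg w _ hw _ _) (cw_sum w _ hw x h0) (fun y => cl (l + 2) (T₂ y))
      ((Finset.range (2 ^ 2)).image (fun k : ℕ => cl l (T₂ x) * 2 ^ 2 + (k : ℤ))) (by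
        intro y hy
        obtain ⟨h2, h3⟩ := cw_ne_zero w G hy
        have h4 := cl_window l 2 (T₂ y)
        rw [(hG₂ y x h3 h0 h2).1] at h4
        exact h4) (2 ^ 2) (card_window _ _).le (by norm_num)
    rw [logb_two_pow] at h1
    exact_mod_cast h1
  have e1 : Pw w (fun x => 1 / 256 < 2 - H x) ≤ 256 * (2 - CH w (fun x => cl (l + 2) (T₂ x)) G) := by
    have h1 : ∑ x, w x * (2 - H x) = 2 - CH w (fun x => cl (l + 2) (T₂ x)) G := by
      rw [CH_disint w hw (fun x => cl (l + 2) (T₂ x)) G]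
      simp only [mul_sub]
      rw [Finset.sum_sub_distrib, ← Finset.sum_mul, hm, one_mul]
    refine (Pw_markov w hw (fun x => 2 - H x) (fun x h0 => by have := hHle x h0; linarith) (by norm_num) h1.le).trans
      (le_of_eq ?_)
    ring
  -- the outliers in the fibres
  have e2 : Pw w (fun x => 1 / 256 < Pw (cw w G x) O) ≤
      256 * (Pw w (fun x => r₁ < p₁ x (A₁ x - T₁ x • a₁ x - o₁ x)) +
        Pw w (fun x => r₂ < p₂ x (A₂ x - T₂ x • a₂ x - o₂ x))) := by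
    refine (Pw_markov w hw (fun x => Pw (cw w G x) O) (fun x _ => Pw_nonneg _ (fun y => cw_nonneg w _ hw _ _) _)
      (by norm_num) (Pw_tower w hw G O).symm.le).trans ?_
    have := Pw_or w hw (fun x => r₁ < p₁ x (A₁ x - T₁ x • a₁ x - o₁ x)) (fun x => r₂ < p₂ x (A₂ x - T₂ x • a₂ x - o₂ x))
    rw [div_le_iff₀ (by norm_num)]
    linarith
  -- the bad pairs in the fibres
  have e3 : Pw w (fun x => 1 / 256 < Pw (wp (cw w G x) (cw w G x)) B) ≤ 256 * Pw (amw w w G G) B := by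
    refine (Pw_markov w hw (fun x => Pw (wp (cw w G x) (cw w G x)) B) (fun x _ => Pw_nonneg _
      (wp_nonneg (fun y => cw_nonneg w _ hw _ _) (fun y => cw_nonneg w _ hw _ _)) _) (by norm_num)
      (pair_tower w hw G B).le).trans (le_of_eq ?_)
    ring
  have key : ∀ x, w x ≠ 0 → ¬ InSum (p₁ x) (p₂ x) (2 ^ (l + 3) * r₁) (2 ^ (l + 2) * r₂) (a₁ x - a₂ x) →
      Mg (2 * 2 ^ j / 2 ^ l) j (T₁ x) ∨ 1 / 256 < 2 - H x ∨ 1 / 256 < Pw (cw w G x) O ∨
        1 / 256 < Pw (wp (cw w G x) (cw w G x)) B := by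
    intro x hx hbad
    by_contra hcon
    push Not at hcon
    obtain ⟨c1, c2, c3, c4⟩ := hcon
    apply hbad
    set u := cw w G x with hu
    have hu0 : ∀ y, 0 ≤ u y := fun y => cw_nonneg w _ hw _ _
    have hu1 : ∑ y, u y = 1 := cw_sum w _ hw x hx
    -- all points of the fibre have the same first cell
    have hsupp : ∀ y, u y ≠ 0 → w y ≠ 0 ∧ G y = G x := fun y hy => ⟨(cw_ne_zero w G hy).2, (cw_ne_zero w G hy).1⟩
    have hp2 : (0 : ℝ) < 2 ^ l := by positivity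
    have hpj : (0 : ℝ) < 2 ^ j := by positivity
    have hfib : ∀ y, u y ≠ 0 → a₁ y = a₁ x ∧ o₁ y = o₁ x ∧ p₁ y = p₁ x := by
      intro y hy
      obtain ⟨y1, y2⟩ := hsupp y hy
      refine hG₁ y x y1 hx y2 (cl_of_not_mg c1 ?_)
      have h1 := hT y x y1 hx y2
      have h2 := (hG₂ y x y1 hx y2).1
      obtain ⟨h3, h4⟩ := (cl_iff (l := l) (x := T₂ y) (c := cl l (T₂ x))).mp h2
      obtain ⟨h5, h6⟩ := (cl_iff (l := l) (x := T₂ x) (c := cl l (T₂ x))).mp rfl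
      have h7 : |2 ^ l * (T₂ y - T₂ x)| ≤ 1 := by
        rw [abs_le]
        constructor <;> linarith
      have h8 : |2 ^ l * ((T₁ y - T₂ y) - (T₁ x - T₂ x))| ≤ 1 := by
        rw [abs_mul, abs_of_pos hp2]
        calc 2 ^ l * |(T₁ y - T₂ y) - (T₁ x - T₂ x)| ≤ 2 ^ l * θ₀ := mul_le_mul_of_nonneg_left h1 hp2.le
          _ ≤ 1 := by linarith
      have h9 : |2 ^ l * (T₁ y - T₁ x)| ≤ 2 := by
        have : 2 ^ l * (T₁ y - T₁ x) = 2 ^ l * (T₂ y - T₂ x) + 2 ^ l * ((T₁ y - T₂ y) - (T₁ x - T₂ x)) := by ring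
        rw [this]
        refine (abs_add_le _ _).trans ?_
        linarith
      rw [le_div_iff₀ hp2]
      have h10 : |2 ^ j * (T₁ y - T₁ x)| * 2 ^ l = 2 ^ j * |2 ^ l * (T₁ y - T₁ x)| := by
        rw [abs_mul, abs_mul, abs_of_pos hpj, abs_of_pos hp2]
        ring
      rw [h10]
      have := mul_le_mul_of_nonneg_left h9 hpj.le
      linarith
    have hfib2 : ∀ y, u y ≠ 0 → cl l (T₂ y) = cl l (T₂ x) ∧ a₂ y = a₂ x ∧ o₂ y = o₂ x ∧ p₂ y = p₂ x := by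
      intro y hy
      obtain ⟨y1, y2⟩ := hsupp y hy
      exact hG₂ y x y1 hx y2
    -- quarters
    have hwin := near_of_ent u hu0 hu1 (fun y => cl (l + 2) (T₂ y))
      ((Finset.range (2 ^ 2)).image (fun k : ℕ => cl l (T₂ x) * 2 ^ 2 + (k : ℤ))) (by
        intro y hy
        have h4 := cl_window l 2 (T₂ y)
        rw [(hfib2 y hy).1] at h4
        exact h4) (2 ^ 2) (card_window _ _) (by norm_num) (τ := 1 / 2) (by norm_num) (by norm_num) (by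
        rw [logb_two_pow]
        have h1 : 2 - H x ≤ 1 / 256 := c2
        have h2 : Hh u (fun y => cl (l + 2) (T₂ y)) = H x := rfl
        rw [h2]
        push_cast
        norm_num at h1 ⊢
        linarith)
    have hq : ∀ k : ℕ, k < 4 → 1 / 8 ≤ Pw u (fun y => cl (l + 2) (T₂ y) = cl l (T₂ x) * 2 ^ 2 + (k : ℤ)) := by
      intro k hk
      have h1 := hwin (cl l (T₂ x) * 2 ^ 2 + (k : ℤ)) (mem_image.mpr ⟨k, mem_range.mpr (by omega), rfl⟩)
      rw [abs_le] at h1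
      have h2 := h1.1
      push_cast at h2
      linarith
    obtain ⟨y, z, hy, hz, hy1, hz1, hyO, hzO, hyz⟩ := exists_two u hu0 _ _ O B (hq 0 (by norm_num)) (hq 3 (by norm_num))
      hu1 c3 c4
    obtain ⟨ya, yo, yp⟩ := hfib y hy
    obtain ⟨za, zo, zp⟩ := hfib z hz
    obtain ⟨-, ya2, yo2, yp2⟩ := hfib2 y hy
    obtain ⟨-, za2, zo2, zp2⟩ := hfib2 z hz
    obtain ⟨y1, y2⟩ := hsupp y hy
    obtain ⟨z1, z2⟩ := hsupp z hz
    rw [cl_iff] at hy1 hz1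
    push_cast at hy1 hz1
    set d := T₂ z - T₂ y with hd
    have hd1 : 1 / 2 ≤ 2 ^ l * d := by
      have h1 : (2 : ℝ) ^ (l + 2) * T₂ y = 4 * (2 ^ l * T₂ y) := by rw [pow_add]; ring
      have h2 : (2 : ℝ) ^ (l + 2) * T₂ z = 4 * (2 ^ l * T₂ z) := by rw [pow_add]; ring
      rw [h1] at hy1
      rw [h2] at hz1
      have h3 : 2 ^ l * d = 2 ^ l * T₂ z - 2 ^ l * T₂ y := by rw [hd]; ring
      rw [h3]
      linarith [hy1.2, hz1.1]
    have hd0 : 0 < d := by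
      by_contra h
      push Not at h
      nlinarith
    have hdi : d⁻¹ ≤ 2 ^ (l + 1) := by
      rw [inv_le_comm₀ hd0 (by positivity)]
      rw [inv_eq_one_div, div_le_iff₀ (by positivity), pow_succ]
      linarith
    rw [hO] at hyO hzO
    push Not at hyO hzO
    obtain ⟨oy1, oy2⟩ := hyO
    obtain ⟨oz1, oz2⟩ := hzO
    rw [ya, yo, yp] at oy1
    rw [za, zo, zp] at oz1
    rw [ya2, yo2, yp2] at oy2
    rw [za2, zo2, zp2] at oz2
    have hψ : p₁ x ((A₁ z - A₂ z) - (A₁ y - A₂ y)) ≤ r₁ := by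
      have h1 : ¬ (r₁ < p₁ y ((A₁ y - A₂ y) - (A₁ z - A₂ z))) := hyz
      push Not at h1
      rw [yp, map_sub_rev] at h1
      exact h1
    set t := (T₁ z - T₂ z) - (T₁ y - T₂ y) with ht
    have ht1 : |t| ≤ θ₀ := hT z y z1 y1 (z2.trans y2.symm)
    have hta : p₁ x (t • a₁ x) ≤ r₁ := by
      rw [map_smul_eq_mul, Real.norm_eq_abs]
      exact (mul_le_mul_of_nonneg_right ht1 (apply_nonneg _ _)).trans (hθa x hx)
    set ε₁y := A₁ y - T₁ y • a₁ x - o₁ x with hε₁y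
    set ε₁z := A₁ z - T₁ z • a₁ x - o₁ x with hε₁z
    set ε₂y := A₂ y - T₂ y • a₂ x - o₂ x with hε₂y
    set ε₂z := A₂ z - T₂ z • a₂ x - o₂ x with hε₂z
    refine ⟨d⁻¹ • (((A₁ z - A₂ z) - (A₁ y - A₂ y)) - t • a₁ x - ε₁z + ε₁y), d⁻¹ • (ε₂z - ε₂y), ?_, ?_, ?_⟩
    · rw [← smul_add]
      have h1 : ((A₁ z - A₂ z) - (A₁ y - A₂ y)) - t • a₁ x - ε₁z + ε₁y + (ε₂z - ε₂y) = d • (a₁ x - a₂ x) := by
        rw [hε₁y, hε₁z, hε₂y, hε₂z, ht, hd, smul_sub, sub_smul, sub_smul, sub_smul, sub_smul, sub_smul]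
        abel
      rw [h1, smul_smul, inv_mul_cancel₀ hd0.ne', one_smul]
    · rw [map_smul_eq_mul, Real.norm_eq_abs, abs_of_pos (by positivity)]
      have h1 : p₁ x (((A₁ z - A₂ z) - (A₁ y - A₂ y)) - t • a₁ x - ε₁z + ε₁y) ≤ 4 * r₁ := by
        have q1 := map_add_le_add (p₁ x) (((A₁ z - A₂ z) - (A₁ y - A₂ y)) - t • a₁ x - ε₁z) ε₁y
        have q2 := map_sub_le_add (p₁ x) (((A₁ z - A₂ z) - (A₁ y - A₂ y)) - t • a₁ x) ε₁z
        have q3 := map_sub_le_add (p₁ x) ((A₁ z - A₂ z) - (A₁ y - A₂ y)) (t • a₁ x)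
        linarith
      calc d⁻¹ * p₁ x (((A₁ z - A₂ z) - (A₁ y - A₂ y)) - t • a₁ x - ε₁z + ε₁y) ≤ 2 ^ (l + 1) * (4 * r₁) :=
            mul_le_mul hdi h1 (apply_nonneg _ _) (by positivity)
        _ = 2 ^ (l + 3) * r₁ := by rw [pow_add, pow_add]; ring
    · rw [map_smul_eq_mul, Real.norm_eq_abs, abs_of_pos (by positivity)]
      have h1 : p₂ x (ε₂z - ε₂y) ≤ 2 * r₂ := by
        have q1 := map_sub_le_add (p₂ x) ε₂z ε₂y
        linarith
      calc d⁻¹ * p₂ x (ε₂z - ε₂y) ≤ 2 ^ (l + 1) * (2 * r₂) :=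
            mul_le_mul hdi h1 (apply_nonneg _ _) (by positivity)
        _ = 2 ^ (l + 2) * r₂ := by rw [pow_add, pow_add]; ring
  have e4 : Pw w (fun x => ¬ InSum (p₁ x) (p₂ x) (2 ^ (l + 3) * r₁) (2 ^ (l + 2) * r₂) (a₁ x - a₂ x)) ≤
      Pw w (fun x => Mg (2 * 2 ^ j / 2 ^ l) j (T₁ x)) + (Pw w (fun x => 1 / 256 < 2 - H x) +
        (Pw w (fun x => 1 / 256 < Pw (cw w G x) O) + Pw w (fun x => 1 / 256 < Pw (wp (cw w G x) (cw w G x)) B))) := by
    refine (Pw_mono w hw key).trans ((Pw_or w hw _ _).trans (add_le_add le_rfl ((Pw_or w hw _ _).trans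
      (add_le_add le_rfl (Pw_or w hw _ _)))))
  linarith

end Pool.Agent.Helper99.FW
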