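import Pool.Agent.Helper99.FW.LemB
import Pool.Agent.Helper58.TR.Def

/-!
# LEMMA B for two points of the recorded tree, summed over the levels

`lemB_tree` : two points `q₁`, `q₂` of one recorded tree, seen through a label `lab` which determines the difference of
the variables `T`: for most levels the slopes of their nodes differ by a vector of `C 2 ^ level` times the sum of the
two bodies.
-/

set_option autoImplicit false

namespace Pool.Agent.Helper99.FW

open Finset Pool.Agent.Helper69.RK Pool.Agent.Helper61.GL Pool.Agent.Helper46.WF Pool.Agent.Helper58.VW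
open Pool.Agent.Helper99.VW Pool.Agent.Helper58.TR
open Pool.Agent.Helper31.EC (amw amw_nonneg amw_supp)

variable {V : Type*} [AddCommGroup V] [Module ℝ V] {X γ Λ Pt β R : Type} [Fintype X]

theorem sum_blocks_eq (f : ℕ → ℝ) (L P : ℕ) : ∑ i ∈ range L, ∑ s ∈ range P, f (i * P + s) = ∑ j ∈ range (L * P), f j := by
  induction L with
  | zero => simp
  | succ L ih =>
    rw [Finset.sum_range_succ, ih, Nat.succ_mul, Finset.sum_range_add]

theorem sum_blocks_le (f : ℕ → ℝ) (hf : ∀ j, 0 ≤ f j) (L P S : ℕ) (hS : S ≤ P) :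
    ∑ i ∈ range L, ∑ s ∈ range S, f (i * P + s) ≤ ∑ j ∈ range (L * P), f j := by
  rw [← sum_blocks_eq]
  refine Finset.sum_le_sum fun i _ => ?_
  refine Finset.sum_le_sum_of_subset_of_nonneg ?_ (fun t _ _ => hf _)
  intro t ht
  rw [mem_range] at ht ⊢
  omega

/-- **windows of `T (q₂)` given the node of `q₂`, the records of `q₁` and a label** -/
theorem two_windows [Fintype R] [Nonempty R] (E : ℕ → (Pt → Lb β R) → Pt → R) (F : Pt → β) (T : Pt → ℝ) (P : ℕ)
    (w : X → ℝ) (hw : ∀ x, 0 ≤ w x) (hm : ∑ x, w x = 1) (q₁ q₂ : X → Pt) (lab : X → Λ)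
    (hF : ∀ x y, w x ≠ 0 → w y ≠ 0 → lab x = lab y → F (q₂ x) = F (q₂ y))
    (hT2 : ∀ x, w x ≠ 0 → 0 ≤ T (q₂ x) ∧ T (q₂ x) < 1) (ρ C₀ S : ℕ) (hSP : S + C₀ + ρ ≤ P) (o : ℕ → ℕ) (L : ℕ) :
    ∑ i ∈ range L, ∑ s ∈ range S, (ρ - CH w (fun x => cl (i * P + s + C₀ + ρ) (T (q₂ x)))
        (fun x => (nd E F T P o i (s + C₀) (q₂ x), recs E F T P o i (q₁ x), lab x))) ≤
      ρ * (L * P + L * (2 * Real.logb 2 (Fintype.card R)) - CH w (fun x => cl (L * P) (T (q₂ x))) lab) := by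
  have hmass : mass w = 1 := hm
  have h1 : ∀ i ∈ range L, ∑ s ∈ range S, (ρ - CH w (fun x => cl (i * P + s + C₀ + ρ) (T (q₂ x)))
        (fun x => (nd E F T P o i (s + C₀) (q₂ x), recs E F T P o i (q₁ x), lab x))) ≤
      ρ * (P - CH w (fun x => cl ((i + 1) * P) (T (q₂ x)))
        (fun x => ((nd E F T P o i 0 (q₂ x), recs E F T P o i (q₁ x)), lab x))) := by
    intro i _
    have h2 := sum_window w hw (fun x => T (q₂ x)) (fun x => ((nd E F T P o i 0 (q₂ x), recs E F T P o i (q₁ x)), lab x))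
      (i * P) P (S + C₀) ρ hSP
      (by
        intro x y _ _ e
        simp only [nd, Prod.mk.injEq] at e
        exact e.1.1.2.1)
    rw [hmass, mul_one, mul_one] at h2
    rw [show (i + 1) * P = i * P + P by ring]
    refine le_trans ?_ h2
    set f : ℕ → ℝ := fun s => ρ - CH w (fun x => cl (i * P + s + ρ) (T (q₂ x))) (fun x => (cl (i * P + s) (T (q₂ x)),
      ((nd E F T P o i 0 (q₂ x), recs E F T P o i (q₁ x)), lab x))) with hf
    have hf0 : ∀ s, 0 ≤ f s := by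
      intro s
      have h3 := ch_window_le w hw (fun x => T (q₂ x)) (fun x => (cl (i * P + s) (T (q₂ x)),
        ((nd E F T P o i 0 (q₂ x), recs E F T P o i (q₁ x)), lab x))) (i * P + s) ρ
        (fun x y _ _ e => (Prod.ext_iff.1 e).1)
      rw [hmass, mul_one] at h3
      rw [hf]
      simp only
      linarith
    have h3 : ∑ s ∈ range S, (ρ - CH w (fun x => cl (i * P + s + C₀ + ρ) (T (q₂ x)))
        (fun x => (nd E F T P o i (s + C₀) (q₂ x), recs E F T P o i (q₁ x), lab x))) = ∑ s ∈ range S, f (s + C₀) := by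
      refine Finset.sum_congr rfl fun s _ => ?_
      rw [hf]
      simp only
      rw [show i * P + (s + C₀) + ρ = i * P + s + C₀ + ρ by ring]
      congr 1
      apply ch_congr_right
      intro x y _ _
      simp only [nd, Prod.mk.injEq, Nat.add_zero]
      constructor
      · rintro ⟨⟨e1, e2, e3⟩, e4, e5⟩
        exact ⟨e2, ⟨⟨e1, cl_of_le (Nat.le_add_right _ _) e2, e3⟩, e4⟩, e5⟩
      · rintro ⟨e2, ⟨⟨e1, _, e3⟩, e4⟩, e5⟩
        exact ⟨⟨e1, e2, e3⟩, e4, e5⟩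
    rw [h3]
    have h4 : ∑ s ∈ range S, f (s + C₀) = ∑ t ∈ (range S).image (fun s => s + C₀), f t := by
      rw [Finset.sum_image]
      intro a _ b _ e
      simpa using e
    rw [h4]
    refine Finset.sum_le_sum_of_subset_of_nonneg ?_ (fun t _ _ => hf0 t)
    intro t ht
    rw [Finset.mem_image] at ht
    obtain ⟨s, hs, rfl⟩ := ht
    rw [Finset.mem_range] at hs ⊢
    omega
  refine le_trans (Finset.sum_le_sum h1) ?_
  rw [← Finset.mul_sum]
  refine mul_le_mul_of_nonneg_left ?_ (Nat.cast_nonneg _)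
  have hcard : Real.logb 2 (Fintype.card (R × R)) = 2 * Real.logb 2 (Fintype.card R) := by
    rw [Fintype.card_prod]
    push_cast
    have h0 : (Fintype.card R : ℝ) ≠ 0 := by
      have : 0 < Fintype.card R := Fintype.card_pos
      positivity
    rw [Real.logb_mul h0 h0]
    ring
  have h3 := sum_block w hw (fun x => T (q₂ x)) (fun i x => (nd E F T P o i 0 (q₂ x), recs E F T P o i (q₁ x))) lab P L
    (2 * Real.logb 2 (Fintype.card R))
    (by
      intro i _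
      have e1 : CH w (fun x => (nd E F T P o (i + 1) 0 (q₂ x), recs E F T P o (i + 1) (q₁ x)))
          (fun x => (cl ((i + 1) * P) (T (q₂ x)), (nd E F T P o i 0 (q₂ x), recs E F T P o i (q₁ x)), lab x)) ≤
          CH w (fun x => (er E F T P o i (o i) (q₂ x), er E F T P o i (o i) (q₁ x)))
          (fun x => (cl ((i + 1) * P) (T (q₂ x)), (nd E F T P o i 0 (q₂ x), recs E F T P o i (q₁ x)), lab x)) := by
        refine ch_mono w hw _ _ _ ?_
        intro x y _ _ e e'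
        simp only [nd, Prod.mk.injEq] at e e' ⊢
        refine ⟨⟨e'.2.1.1.1, by simpa using e'.1, ?_⟩, ?_⟩
        · rw [recs_succ_eq_iff]
          exact ⟨e'.2.1.1.2.2, e.1⟩
        · rw [recs_succ_eq_iff]
          exact ⟨e'.2.1.2, e.2⟩
      refine le_trans e1 ?_
      have e2 := st_card w hw (fun x => (er E F T P o i (o i) (q₂ x), er E F T P o i (o i) (q₁ x)))
        (fun x => (cl ((i + 1) * P) (T (q₂ x)), (nd E F T P o i 0 (q₂ x), recs E F T P o i (q₁ x)), lab x))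
      rw [hmass, mul_one, hcard] at e2
      exact e2)
    (by
      intro x y _ _ e _
      simp only [nd, Prod.mk.injEq, Nat.add_zero] at e
      exact e.1.2.1)
  have h4 : CH w (fun x => (nd E F T P o 0 0 (q₂ x), recs E F T P o 0 (q₁ x))) lab = 0 := by
    apply ch_zero
    intro x y a b e
    simp only [nd, Prod.mk.injEq, recs]
    refine ⟨⟨hF x y a b e, ?_, trivial⟩, trivial⟩
    have c1 := hT2 x a
    have c2 := hT2 y b
    unfold cl
    rw [Nat.zero_mul, Nat.add_zero, pow_zero, one_mul, one_mul, Int.floor_eq_zero_iff.mpr ⟨c1.1, c1.2⟩,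
      Int.floor_eq_zero_iff.mpr ⟨c2.1, c2.2⟩]
  rw [h4, hmass] at h3
  simp only [mul_one] at h3
  linarith

/-- the label of the level `i P + s` -/
noncomputable def lbG (E : ℕ → (Pt → Lb β R) → Pt → R) (F : Pt → β) (T : Pt → ℝ) (P : ℕ) (o : ℕ → ℕ) (C₀ i s : ℕ)
    (q₁ q₂ : X → Pt) (lab : X → Λ) (x : X) : Lb β R × (ℕ → Option R) × Λ :=
  (nd E F T P o i (s + C₀) (q₂ x), recs E F T P o i (q₁ x), lab x)

/-- **LEMMA B for two points of the recorded tree** -/
theorem lemB_tree [Fintype R] [Nonempty R] (E : ℕ → (Pt → Lb β R) → Pt → R) (F : Pt → β) (T : Pt → ℝ) (P : ℕ)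
    (o : ℕ → ℕ) {w : X → ℝ} (hw : ∀ x, 0 ≤ w x) (hm : ∑ x, w x = 1) (q₁ q₂ : X → Pt) (lab : X → Λ)
    (hF : ∀ x y, w x ≠ 0 → w y ≠ 0 → lab x = lab y → F (q₁ x) = F (q₁ y) ∧ F (q₂ x) = F (q₂ y))
    (hT1 : ∀ x, w x ≠ 0 → 0 ≤ T (q₁ x) ∧ T (q₁ x) < 1) (hT2 : ∀ x, w x ≠ 0 → 0 ≤ T (q₂ x) ∧ T (q₂ x) < 1)
    (A : Pt → V) (a b : ℕ → ℕ → Lb β R → V) (p : ℕ → ℕ → Lb β R → Seminorm ℝ V) (r : ℕ → ℕ → ℝ) {θ₀ : ℝ}
    (hT : ∀ x y, w x ≠ 0 → w y ≠ 0 → lab x = lab y →
      |(T (q₁ x) - T (q₂ x)) - (T (q₁ y) - T (q₂ y))| ≤ θ₀)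
    {C₀ S L : ℕ} (hC : 1 ≤ C₀) (hSP : S + C₀ + 2 ≤ P) (hθ0 : 0 ≤ θ₀) (hθ : θ₀ * 2 ^ (L * P) ≤ 1)
    (hθa : ∀ i < L, ∀ s < S, ∀ x, w x ≠ 0 → θ₀ * p i s (nd E F T P o i s (q₁ x)) (a i s (nd E F T P o i s (q₁ x))) ≤
      r i s) (n : ℕ) (A₁ : ℝ) (hH : n - A₁ ≤ Hh w (fun x => cl n (T (q₁ x)))) (hn : L * P + C₀ ≤ n + 1) :
    ∑ i ∈ range L, ∑ s ∈ range S, Pw w (fun x => ¬ InSum (p i s (nd E F T P o i s (q₁ x)))
      (p i s (nd E F T P o i s (q₂ x))) (2 ^ (i * P + s + C₀ + 3) * r i s) (2 ^ (i * P + s + C₀ + 2) * r i s)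
      (a i s (nd E F T P o i s (q₁ x)) - a i s (nd E F T P o i s (q₂ x)))) ≤
    (8 / 2 ^ C₀ * (L * P) + 16 * 2 ^ C₀ * (C₀ * (A₁ + C₀))) +
    256 * (2 * (L * P + L * (2 * Real.logb 2 (Fintype.card R)) - CH w (fun x => cl (L * P) (T (q₂ x))) lab)) +
    256 * (∑ i ∈ range L, ∑ s ∈ range S, (Pw w (fun x => r i s < p i s (nd E F T P o i s (q₁ x))
        (A (q₁ x) - T (q₁ x) • a i s (nd E F T P o i s (q₁ x)) - b i s (nd E F T P o i s (q₁ x)))) +
      Pw w (fun x => r i s < p i s (nd E F T P o i s (q₂ x))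
        (A (q₂ x) - T (q₂ x) • a i s (nd E F T P o i s (q₂ x)) - b i s (nd E F T P o i s (q₂ x)))))) +
    256 * ∑ i ∈ range L, ∑ s ∈ range S, Pw (amw w w (lbG E F T P o C₀ i s q₁ q₂ lab) (lbG E F T P o C₀ i s q₁ q₂ lab))
      (fun x => r i s < p i s (nd E F T P o i s (q₁ x.1)) ((A (q₁ x.1) - A (q₂ x.1)) - (A (q₁ x.2) - A (q₂ x.2)))) := by
  have hP : ∀ i s : ℕ, i < L → s < S → i * P + s + C₀ ≤ L * P := by
    intro i s hi hs
    have h1 : (i + 1) * P ≤ L * P := Nat.mul_le_mul_right P hi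
    rw [Nat.succ_mul] at h1
    omega
  have key : ∀ i ∈ range L, ∀ s ∈ range S, Pw w (fun x => ¬ InSum (p i s (nd E F T P o i s (q₁ x)))
      (p i s (nd E F T P o i s (q₂ x))) (2 ^ (i * P + s + C₀ + 3) * r i s) (2 ^ (i * P + s + C₀ + 2) * r i s)
      (a i s (nd E F T P o i s (q₁ x)) - a i s (nd E F T P o i s (q₂ x)))) ≤
      Pw w (fun x => Mg (2 / 2 ^ C₀) (i * P + s) (T (q₁ x))) +
      256 * (2 - CH w (fun x => cl (i * P + s + C₀ + 2) (T (q₂ x))) (lbG E F T P o C₀ i s q₁ q₂ lab)) +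
      256 * (Pw w (fun x => r i s < p i s (nd E F T P o i s (q₁ x))
        (A (q₁ x) - T (q₁ x) • a i s (nd E F T P o i s (q₁ x)) - b i s (nd E F T P o i s (q₁ x)))) +
        Pw w (fun x => r i s < p i s (nd E F T P o i s (q₂ x))
        (A (q₂ x) - T (q₂ x) • a i s (nd E F T P o i s (q₂ x)) - b i s (nd E F T P o i s (q₂ x))))) +
      256 * Pw (amw w w (lbG E F T P o C₀ i s q₁ q₂ lab) (lbG E F T P o C₀ i s q₁ q₂ lab))
      (fun x => r i s < p i s (nd E F T P o i s (q₁ x.1)) ((A (q₁ x.1) - A (q₂ x.1)) - (A (q₁ x.2) - A (q₂ x.2)))) := by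
    intro i hi s hs
    rw [mem_range] at hi hs
    have hlab : ∀ x y, lbG E F T P o C₀ i s q₁ q₂ lab x = lbG E F T P o C₀ i s q₁ q₂ lab y →
        nd E F T P o i (s + C₀) (q₂ x) = nd E F T P o i (s + C₀) (q₂ y) ∧
        recs E F T P o i (q₁ x) = recs E F T P o i (q₁ y) ∧ lab x = lab y := by
      intro x y e
      exact ⟨congrArg Prod.fst e, congrArg (fun z => z.2.1) e, congrArg (fun z => z.2.2) e⟩
    have h1 := lemB_one (X := X) hw hm (lbG E F T P o C₀ i s q₁ q₂ lab) (j := i * P + s) (l := i * P + s + C₀)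
      (fun x => T (q₁ x)) (fun x => T (q₂ x)) (fun x => A (q₁ x)) (fun x => A (q₂ x))
      (fun x => a i s (nd E F T P o i s (q₁ x))) (fun x => a i s (nd E F T P o i s (q₂ x)))
      (fun x => b i s (nd E F T P o i s (q₁ x))) (fun x => b i s (nd E F T P o i s (q₂ x)))
      (fun x => p i s (nd E F T P o i s (q₁ x))) (fun x => p i s (nd E F T P o i s (q₂ x))) (r₁ := r i s) (r₂ := r i s)
      (θ₀ := θ₀) (by
        intro x y _ _ e
        obtain ⟨e1, e2, e3⟩ := hlab x y e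
        have e4 := nd_of_le E F T P o (Nat.le_add_right s C₀) e1
        have e5 : cl (i * P + s + C₀) (T (q₂ x)) = cl (i * P + s + C₀) (T (q₂ y)) := by
          simp only [nd, Prod.mk.injEq] at e1
          rw [add_assoc]
          exact e1.2.1
        exact ⟨e5, by rw [e4], by rw [e4], by rw [e4]⟩) (by
        intro x y hx hy e e0
        obtain ⟨e1, e2, e3⟩ := hlab x y e
        have e4 : nd E F T P o i s (q₁ x) = nd E F T P o i s (q₁ y) := by
          simp only [nd, Prod.mk.injEq]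
          exact ⟨(hF x y hx hy e3).1, e0, e2⟩
        exact ⟨by rw [e4], by rw [e4], by rw [e4]⟩) (by
        intro x y hx hy e
        exact hT x y hx hy (hlab x y e).2.2) (by
        refine le_trans (mul_le_mul_of_nonneg_left ?_ hθ0) hθ
        exact pow_le_pow_right₀ (by norm_num) (hP i s hi hs)) (fun x hx => hθa i hi s hs x hx)
    have h2 : (2 : ℝ) * 2 ^ (i * P + s) / 2 ^ (i * P + s + C₀) = 2 / 2 ^ C₀ := by
      rw [pow_add _ (i * P + s) C₀]
      field_simp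
    rw [h2] at h1
    exact h1
  refine (Finset.sum_le_sum fun i hi => Finset.sum_le_sum fun s hs => key i hi s hs).trans ?_
  have s1 : ∑ i ∈ range L, ∑ s ∈ range S, Pw w (fun x => Mg (2 / 2 ^ C₀) (i * P + s) (T (q₁ x))) ≤
      8 / 2 ^ C₀ * (L * P) + 16 * 2 ^ C₀ * (C₀ * (A₁ + C₀)) := by
    refine (sum_blocks_le (fun j => Pw w (fun x => Mg (2 / 2 ^ C₀) j (T (q₁ x)))) (fun j => Pw_nonneg _ hw _) L P S
      (by omega)).trans ?_
    have h1 := sum_mg w hw hm (fun x => T (q₁ x)) hT1 n A₁ hH hC hn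
    push_cast at h1
    exact h1
  have s2 := two_windows E F T P w hw hm q₁ q₂ lab (fun x y hx hy e => (hF x y hx hy e).2) hT2 2 C₀ S hSP o L
  push_cast at s2
  simp only [Finset.sum_add_distrib, ← Finset.mul_sum] at s2 ⊢
  have s3 : ∑ i ∈ range L, ∑ s ∈ range S, (2 - CH w (fun x => cl (i * P + s + C₀ + 2) (T (q₂ x)))
      (lbG E F T P o C₀ i s q₁ q₂ lab)) = ∑ i ∈ range L, ∑ s ∈ range S, (2 - CH w (fun x =>
      cl (i * P + s + C₀ + 2) (T (q₂ x))) (fun x => (nd E F T P o i (s + C₀) (q₂ x), recs E F T P o i (q₁ x), lab x))) :=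
    rfl
  rw [s3]
  linarith

end Pool.Agent.Helper99.FW
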