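import Pool.Agent.Helper9.ND.Low
import Pool.Agent.Helper58.TR.Tvd
import Pool.Agent.Helper99.VW.Pee

/-!
# The nodes of the recorded tree are nodes in the sense of `Helper9.ND`

`nd_of_ent` : if the window of `ρ` digits of `T` given the label has nearly full entropy then the conditional law is an
`Nd` with fine cells = windows of `ρ` digits, blocks = windows of `D` digits.
`sum_not_nd` : in the recorded tree this holds for most points at most levels.
-/

set_option autoImplicit false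

namespace Pool.Agent.Helper99.FW

open Finset Pool.Agent.Helper69.RK Pool.Agent.Helper61.GL Pool.Agent.Helper46.WF Pool.Agent.Helper58.VW
open Pool.Agent.Helper99.VW Pool.Agent.Helper58.TR Pool.Agent.Helper9.ND

variable {Pt β R γ : Type} [Fintype Pt]

/-- the law `w` is a node of level `m`: fine cells of level `m + ρ`, blocks of level `m + D` -/
def IsNd (w : Pt → ℝ) (T : Pt → ℝ) (m D ρ : ℕ) (c₀ : ℤ) : Prop :=
  Nd w T (fun x => ((fwn ρ m (T x) : ℕ) : ℤ)) ((c₀ : ℝ) / 2 ^ m) (1 / 2 ^ (m + D)) (2 ^ D) (2 ^ (ρ - D))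

theorem nd_of_ent (w : Pt → ℝ) (hw : ∀ x, 0 ≤ w x) (hm : ∑ x, w x = 1) (T : Pt → ℝ) {m D ρ : ℕ} (hD : D ≤ ρ) {c₀ : ℤ}
    (hc : ∀ x, w x ≠ 0 → cl m (T x) = c₀) (hH : (ρ : ℝ) - 1 / (64 * 2 ^ ρ) ≤ Hh w (fun x => cl (m + ρ) (T x))) :
    IsNd w T m D ρ c₀ := by
  classical
  set c : Pt → ℤ := fun x => ((fwn ρ m (T x) : ℕ) : ℤ) with hcdef
  have hcl : ∀ x, w x ≠ 0 → cl (m + ρ) (T x) = c₀ * 2 ^ ρ + c x := by
    intro x hx
    rw [fwn_spec, hc x hx]
  have hrg : ∀ x, 0 ≤ c x ∧ c x < 2 ^ ρ := by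
    intro x
    refine ⟨Int.natCast_nonneg _, ?_⟩
    have h := (fwn ρ m (T x)).isLt
    show (((fwn ρ m (T x) : ℕ)) : ℤ) < 2 ^ ρ
    calc (((fwn ρ m (T x) : ℕ)) : ℤ) < ((2 ^ ρ : ℕ) : ℤ) := by exact_mod_cast h
      _ = 2 ^ ρ := by push_cast; rfl
  have hQ : ((2 ^ D : ℕ) : ℤ) * ((2 ^ (ρ - D) : ℕ) : ℤ) = 2 ^ ρ := by
    push_cast
    rw [← pow_add, Nat.add_sub_cancel' hD]
  have hQr : (2 : ℝ) ^ D * 2 ^ (ρ - D) = 2 ^ ρ := by
    rw [← pow_add, Nat.add_sub_cancel' hD]
  -- fine cells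
  have hfine : ∀ k : ℕ, k < 2 ^ ρ → |(2 : ℝ) ^ ρ * Pw w (fun x => c x = (k : ℤ)) - 1| ≤ 1 / 2 := by
    intro k hk
    have h1 := near_of_ent w hw hm (fun x => cl (m + ρ) (T x))
      ((Finset.range (2 ^ ρ)).image (fun k : ℕ => c₀ * 2 ^ ρ + (k : ℤ))) (by
        intro x hx
        have h4 := cl_window m ρ (T x)
        rw [hc x hx] at h4
        exact h4) (2 ^ ρ) (card_window _ _) (by positivity) (τ := 1 / 2) (by norm_num) (by norm_num) (by
        rw [logb_two_pow]
        refine le_trans (le_of_eq ?_) hH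
        push_cast
        congr 1
        field_simp
        norm_num) (c₀ * 2 ^ ρ + (k : ℤ)) (mem_image.mpr ⟨k, mem_range.mpr hk, rfl⟩)
    push_cast at h1
    have h2 : Pw w (fun x => cl (m + ρ) (T x) = c₀ * 2 ^ ρ + (k : ℤ)) = Pw w (fun x => c x = (k : ℤ)) := by
      unfold Pw
      refine Finset.sum_congr rfl fun x _ => ?_
      by_cases hx : w x = 0
      · simp [hx]
      · have h3 : (cl (m + ρ) (T x) = c₀ * 2 ^ ρ + (k : ℤ)) ↔ c x = (k : ℤ) := by
          rw [hcl x hx]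
          constructor
          · intro h
            linarith
          · intro h
            rw [h]
        by_cases h4 : c x = (k : ℤ)
        · rw [if_pos h4, if_pos (h3.mpr h4)]
        · rw [if_neg h4, if_neg (fun h => h4 (h3.mp h))]
    rw [h2] at h1
    exact h1
  -- blocks
  have hblk : ∀ i : ℕ, i < 2 ^ D → Pw w (fun x => c x / ((2 ^ (ρ - D) : ℕ) : ℤ) = (i : ℤ)) =
      ∑ k ∈ range (2 ^ (ρ - D)), Pw w (fun x => c x = ((i * 2 ^ (ρ - D) + k : ℕ) : ℤ)) := by
    intro i _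
    unfold Pw
    rw [Finset.sum_comm]
    refine Finset.sum_congr rfl fun x _ => ?_
    have hq0 : (0 : ℤ) < ((2 ^ (ρ - D) : ℕ) : ℤ) := by positivity
    by_cases h : c x / ((2 ^ (ρ - D) : ℕ) : ℤ) = (i : ℤ)
    · rw [if_pos h]
      have h1 := Int.emod_add_mul_ediv (c x) ((2 ^ (ρ - D) : ℕ) : ℤ)
      have h2 := Int.emod_nonneg (c x) hq0.ne'
      have h3 := Int.emod_lt_of_pos (c x) hq0
      obtain ⟨k, hk⟩ := Int.eq_ofNat_of_zero_le h2
      rw [hk] at h1 h3
      rw [h] at h1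
      have h4 : k < 2 ^ (ρ - D) := by exact_mod_cast h3
      rw [Finset.sum_eq_single k]
      · rw [if_pos]
        push_cast
        push_cast at h1
        linarith
      · intro j _ hj
        rw [if_neg]
        intro h5
        apply hj
        push_cast at h5 h1
        have : (j : ℤ) = k := by linarith
        exact_mod_cast this
      · intro h5
        exact absurd (mem_range.mpr h4) h5
    · rw [if_neg h]
      symm
      apply Finset.sum_eq_zero
      intro k hk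
      rw [mem_range] at hk
      rw [if_neg]
      intro h5
      apply h
      rw [h5]
      push_cast
      have hk' : (k : ℤ) < 2 ^ (ρ - D) := by exact_mod_cast hk
      rw [Int.mul_comm, Int.add_comm, Int.add_mul_ediv_left _ _ (by positivity), Int.ediv_eq_zero_of_lt (by positivity) hk',
        zero_add]
  have hidx : ∀ i k : ℕ, i < 2 ^ D → k < 2 ^ (ρ - D) → i * 2 ^ (ρ - D) + k < 2 ^ ρ := by
    intro i k hi hk
    have h1 : 2 ^ D * 2 ^ (ρ - D) = 2 ^ ρ := by
      rw [← pow_add, Nat.add_sub_cancel' hD]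
    calc i * 2 ^ (ρ - D) + k < i * 2 ^ (ρ - D) + 2 ^ (ρ - D) := by omega
      _ = (i + 1) * 2 ^ (ρ - D) := by ring
      _ ≤ 2 ^ D * 2 ^ (ρ - D) := Nat.mul_le_mul_right _ hi
      _ = 2 ^ ρ := h1
  have hρ0 : (0 : ℝ) < 2 ^ ρ := by positivity
  refine ⟨hw, hm, by positivity, by positivity, by positivity, ?_, ?_, ?_, ?_⟩
  · intro x hx
    have h1 := hcl x hx
    rw [cl_iff] at h1
    obtain ⟨h1, h2⟩ := h1
    push_cast at h1 h2
    have hd : (1 : ℝ) / 2 ^ (m + D) / ((2 ^ (ρ - D) : ℕ) : ℝ) = 1 / 2 ^ (m + ρ) := by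
      push_cast
      rw [div_div, pow_add, mul_assoc, hQr, ← pow_add]
    have hm0 : (0 : ℝ) < 2 ^ (m + ρ) := by positivity
    rw [hd]
    have e1 : (c₀ : ℝ) / 2 ^ m + ((c x : ℤ) : ℝ) * (1 / 2 ^ (m + ρ)) = ((c₀ : ℝ) * 2 ^ ρ + (c x : ℤ)) / 2 ^ (m + ρ) := by
      rw [pow_add]
      field_simp
    have e2 : (c₀ : ℝ) / 2 ^ m + (((c x : ℤ) : ℝ) + 1) * (1 / 2 ^ (m + ρ)) =
        ((c₀ : ℝ) * 2 ^ ρ + (c x : ℤ) + 1) / 2 ^ (m + ρ) := by
      rw [pow_add]
      field_simp
      ring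
    constructor
    · show (c₀ : ℝ) / 2 ^ m + ((c x : ℤ) : ℝ) * (1 / 2 ^ (m + ρ)) ≤ T x
      rw [e1, div_le_iff₀ hm0]
      linarith
    · show T x < (c₀ : ℝ) / 2 ^ m + (((c x : ℤ) : ℝ) + 1) * (1 / 2 ^ (m + ρ))
      rw [e2, lt_div_iff₀ hm0]
      linarith
  · intro x _
    refine ⟨(hrg x).1, ?_⟩
    rw [hQ]
    exact (hrg x).2
  · intro i hi hi2
    obtain ⟨j, rfl⟩ := Int.eq_ofNat_of_zero_le hi
    have hj : j < 2 ^ D := by exact_mod_cast hi2
    rw [hblk j hj]
    have h1 : ∑ k ∈ range (2 ^ (ρ - D)), (1 / 2 * (1 / (2 : ℝ) ^ ρ)) ≤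
        ∑ k ∈ range (2 ^ (ρ - D)), Pw w (fun x => c x = ((j * 2 ^ (ρ - D) + k : ℕ) : ℤ)) := by
      refine Finset.sum_le_sum fun k hk => ?_
      rw [mem_range] at hk
      have h2 := hfine _ (hidx j k hj hk)
      rw [abs_le] at h2
      have h3 := h2.1
      rw [← mul_div_assoc, mul_one, div_le_iff₀ hρ0]
      linarith
    refine le_trans (le_of_eq ?_) h1
    rw [Finset.sum_const, card_range, nsmul_eq_mul, ← hQr]
    push_cast
    field_simp
  · intro i
    by_cases hi : 0 ≤ i ∧ i < ((2 ^ D : ℕ) : ℤ)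
    · obtain ⟨j, rfl⟩ := Int.eq_ofNat_of_zero_le hi.1
      have hj : j < 2 ^ D := by exact_mod_cast hi.2
      rw [hblk j hj]
      have h1 : ∑ k ∈ range (2 ^ (ρ - D)), Pw w (fun x => c x = ((j * 2 ^ (ρ - D) + k : ℕ) : ℤ)) ≤
          ∑ k ∈ range (2 ^ (ρ - D)), (2 * (1 / (2 : ℝ) ^ ρ)) := by
        refine Finset.sum_le_sum fun k hk => ?_
        rw [mem_range] at hk
        have h2 := hfine _ (hidx j k hj hk)
        rw [abs_le] at h2
        have h3 := h2.2
        rw [← mul_div_assoc, mul_one, le_div_iff₀ hρ0]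
        linarith
      refine le_trans h1 (le_of_eq ?_)
      rw [Finset.sum_const, card_range, nsmul_eq_mul, ← hQr]
      push_cast
      field_simp
    · have h1 : Pw w (fun x => c x / ((2 ^ (ρ - D) : ℕ) : ℤ) = i) = 0 := by
        unfold Pw
        refine Finset.sum_eq_zero fun x _ => ?_
        rw [if_neg]
        intro h
        apply hi
        have hq0 : (0 : ℤ) < ((2 ^ (ρ - D) : ℕ) : ℤ) := by positivity
        rw [← h]
        refine ⟨Int.ediv_nonneg (hrg x).1 hq0.le, ?_⟩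
        rw [Int.ediv_lt_iff_lt_mul hq0, hQ]
        exact (hrg x).2
      rw [h1]
      positivity

/-- **most nodes of the recorded tree are nodes** -/
theorem sum_not_nd [Fintype R] [Nonempty R] (E : ℕ → (Pt → Lb β R) → Pt → R) (F : Pt → β) (T : Pt → ℝ) (P : ℕ)
    (μ : Pt → ℝ) (hμ : ∀ x, 0 ≤ μ x) (hm : ∑ x, μ x = 1) (hT : ∀ x, μ x ≠ 0 → 0 ≤ T x ∧ T x < 1) {D ρ S : ℕ} (hD : D ≤ ρ)
    (hSP : S + ρ ≤ P) (o : ℕ → ℕ) (L : ℕ) :
    ∑ i ∈ range L, ∑ s ∈ range S, Pw μ (fun x => ¬ IsNd (cw μ (nd E F T P o i s) x) T (i * P + s) D ρ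
      (cl (i * P + s) (T x))) ≤
    64 * 2 ^ ρ * (ρ * (L * P + L * Real.logb 2 (Fintype.card R) - CH μ (fun x => cl (L * P) (T x)) F)) := by
  classical
  have hmass : mass μ = 1 := hm
  have h1 := tree_windows E F T P μ hμ (fun x => x) hT F (fun _ _ _ _ h => h) ρ S hSP o L
  rw [hmass] at h1
  simp only [mul_one] at h1
  have key : ∀ i s, Pw μ (fun x => ¬ IsNd (cw μ (nd E F T P o i s) x) T (i * P + s) D ρ (cl (i * P + s) (T x))) ≤
      64 * 2 ^ ρ * (ρ - CH μ (fun x => cl (i * P + s + ρ) (T x)) (fun x => (nd E F T P o i s x, F x))) := by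
    intro i s
    have e0 : CH μ (fun x => cl (i * P + s + ρ) (T x)) (fun x => (nd E F T P o i s x, F x)) =
        CH μ (fun x => cl (i * P + s + ρ) (T x)) (nd E F T P o i s) := by
      apply ch_congr_right
      intro x y _ _
      rw [Prod.mk.injEq]
      constructor
      · exact fun h => h.1
      · intro h
        refine ⟨h, ?_⟩
        simp only [nd, Prod.mk.injEq] at h
        exact h.1
    rw [e0]
    set H : Pt → ℝ := fun x => Hh (cw μ (nd E F T P o i s) x) (fun y => cl (i * P + s + ρ) (T y)) with hHdef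
    have hcell : ∀ x y, nd E F T P o i s y = nd E F T P o i s x → cl (i * P + s) (T y) = cl (i * P + s) (T x) := by
      intro x y h
      simp only [nd, Prod.mk.injEq] at h
      exact h.2.1
    have hle : ∀ x, μ x ≠ 0 → H x ≤ ρ := by
      intro x hx
      have h2 := Hh_le_card (cw μ (nd E F T P o i s) x) (fun y => cw_nonneg μ _ hμ _ _) (cw_sum μ _ hμ x hx)
        (fun y => cl (i * P + s + ρ) (T y))
        ((Finset.range (2 ^ ρ)).image (fun k : ℕ => cl (i * P + s) (T x) * 2 ^ ρ + (k : ℤ))) (by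
          intro y hy
          obtain ⟨h2, -⟩ := cw_ne_zero μ _ hy
          have h4 := cl_window (i * P + s) ρ (T y)
          rw [hcell x y h2] at h4
          exact h4) (2 ^ ρ) (card_window _ _).le (by positivity)
      rw [logb_two_pow] at h2
      exact h2
    have hmean : ∑ x, μ x * (ρ - H x) = ρ - CH μ (fun x => cl (i * P + s + ρ) (T x)) (nd E F T P o i s) := by
      rw [CH_disint μ hμ (fun x => cl (i * P + s + ρ) (T x)) (nd E F T P o i s)]
      simp only [mul_sub]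
      rw [Finset.sum_sub_distrib, ← Finset.sum_mul, hm, one_mul]
    have h2 := Pw_markov μ hμ (fun x => ρ - H x) (fun x hx => by have := hle x hx; linarith)
      (show (0 : ℝ) < 1 / (64 * 2 ^ ρ) by positivity) hmean.le
    refine le_trans (Pw_mono μ hμ ?_) (h2.trans (le_of_eq ?_))
    · intro x hx hN
      by_contra hcon
      push Not at hcon
      apply hN
      refine nd_of_ent _ (fun y => cw_nonneg μ _ hμ _ _) (cw_sum μ _ hμ x hx) T hD (fun y hy => ?_) (by linarith)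
      exact hcell x y (cw_ne_zero μ _ hy).1
    · field_simp
  refine (Finset.sum_le_sum fun i _ => Finset.sum_le_sum fun s _ => key i s).trans ?_
  simp only [← Finset.mul_sum]
  exact mul_le_mul_of_nonneg_left h1 (by positivity)

end Pool.Agent.Helper99.FW
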